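import Mathlib

/-!
A two-term form of the Kruskal-Katona theorem: if a family of `i`-sets has `C(m,i) + p` members,
`1 ≤ p ≤ C(m,i-1)`, its shadow has at least `C(m,i-1) + |∂𝒞|` members for some family `𝒞` of `p`
sets with `i - 1` elements.
-/

namespace Pool.Agent.Lib.MP_455133_co.LR

open Finset Finset.Colex

open scoped FinsetFamily

/-- Initial segments of every size. -/
theorem exists_initSeg_card {n r : ℕ} : ∀ q : ℕ, q ≤ n.choose r →
    ∃ 𝒞 : Finset (Finset (Fin n)), IsInitSeg 𝒞 r ∧ 𝒞.card + q = n.choose r := by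
  intro q
  induction q with
  | zero =>
    intro _
    refine ⟨powersetCard r univ, ⟨?_, ?_⟩, ?_⟩
    · intro A hA
      exact (mem_powersetCard.1 hA).2
    · intro A B _ hB
      exact mem_powersetCard.2 ⟨subset_univ _, hB.2⟩
    · rw [card_powersetCard, card_univ, Fintype.card_fin, add_zero]
  | succ q ih =>
    intro hq
    obtain ⟨𝒞, h𝒞, hc⟩ := ih (by omega)
    have hne : 𝒞.Nonempty := by
      rw [← card_pos]
      omega
    obtain ⟨s, hs, he⟩ := h𝒞.exists_initSeg hne
    have hsm : s ∈ 𝒞 := by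
      rw [he]
      exact mem_initSeg_self
    refine ⟨𝒞.erase s, ⟨?_, ?_⟩, ?_⟩
    · intro A hA
      exact h𝒞.1 (mem_coe.2 (mem_of_mem_erase (mem_coe.1 hA)))
    · intro A B hA hB
      rw [mem_erase] at hA ⊢
      refine ⟨?_, h𝒞.2 hA.2 hB⟩
      rintro rfl
      rw [he, mem_initSeg] at hA
      exact absurd hB.1 (not_lt.2 hA.2.2)
    · rw [card_erase_of_mem hsm]
      have := card_pos.2 hne
      omega

/-- The sets with `r` elements below `m` form an initial segment. -/
theorem initSeg_range {n r m : ℕ} :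
    IsInitSeg (powersetCard r (univ.filter fun x : Fin n => (x : ℕ) < m)) r := by
  refine ⟨fun A hA => (mem_powersetCard.1 hA).2, ?_⟩
  intro A B hA hB
  rw [mem_powersetCard] at hA ⊢
  refine ⟨?_, hB.2⟩
  by_cases hm : m < n
  · have h1 : ∀ b ∈ A, b < (⟨m, hm⟩ : Fin n) := by
      intro b hb
      have := (mem_filter.1 (hA.1 hb)).2
      exact this
    have h2 := Colex.forall_lt_mono hB.1.le h1
    intro b hb
    exact mem_filter.2 ⟨mem_univ b, h2 b hb⟩
  · intro b _
    exact mem_filter.2 ⟨mem_univ b, by have := b.2; omega⟩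

theorem card_range_fin {n m : ℕ} (h : m ≤ n) :
    (univ.filter fun x : Fin n => (x : ℕ) < m).card = m := by
  have h1 : (univ.filter fun x : Fin n => (x : ℕ) < m).map Fin.valEmbedding = range m := by
    ext x
    rw [mem_map, mem_range]
    constructor
    · rintro ⟨y, hy, rfl⟩
      exact (mem_filter.1 hy).2
    · intro hx
      exact ⟨⟨x, by omega⟩, mem_filter.2 ⟨mem_univ _, hx⟩, rfl⟩
  rw [← card_map, h1, card_range]

/-- The two-term form. -/
theorem kk_two {n i m p : ℕ} {F : Finset (Finset (Fin n))} (hF : ∀ A ∈ F, A.card = i + 1)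
    (him : i + 1 ≤ m) (hp1 : 1 ≤ p) (hp : p ≤ m.choose i) (hc : F.card = m.choose (i + 1) + p) :
    ∃ 𝒞 : Finset (Finset (Fin n)), (∀ S ∈ 𝒞, S.card = i) ∧ 𝒞.card = p ∧
      m.choose i + (∂ 𝒞).card ≤ (∂ F).card := by
  classical
  -- the ground set is larger than `m`
  have hFn : F.card ≤ n.choose (i + 1) := by
    have h1 : F ⊆ powersetCard (i + 1) univ := fun A hA =>
      mem_powersetCard.2 ⟨subset_univ _, hF A hA⟩
    have h2 := card_le_card h1
    rwa [card_powersetCard, card_univ, Fintype.card_fin] at h2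
  have hmn : m < n := by
    by_contra hcon
    push Not at hcon
    have := Nat.choose_le_choose (i + 1) hcon
    omega
  obtain ⟨m', hm'⟩ : ∃ m' : Fin n, m' = ⟨m, hmn⟩ := ⟨_, rfl⟩
  have hm'v : (m' : ℕ) = m := by rw [hm']
  obtain ⟨𝒟, h𝒟, hcard⟩ := exists_initSeg_card (n := n) (r := i + 1) (n.choose (i + 1) - F.card)
    (Nat.sub_le _ _)
  have hcard' : 𝒟.card = F.card := by omega
  have hKK : (∂ 𝒟).card ≤ (∂ F).card :=
    kruskal_katona (fun A hA => hF A (mem_coe.1 hA)) hcard'.le h𝒟
  obtain ⟨R, hR⟩ : ∃ R, R = univ.filter fun x : Fin n => (x : ℕ) < m := ⟨_, rfl⟩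
  have hRc : R.card = m := by
    rw [hR]
    exact card_range_fin hmn.le
  have hmR : m' ∉ R := by
    rw [hR, mem_filter, hm'v]
    rintro ⟨_, h⟩
    exact absurd h (lt_irrefl _)
  -- all sets below `m` are in `𝒟`
  have hsub1 : powersetCard (i + 1) R ⊆ 𝒟 := by
    have h1 : IsInitSeg (powersetCard (i + 1) R) (i + 1) := by
      rw [hR]
      exact initSeg_range
    rcases h1.total h𝒟 with h2 | h2
    · exact h2
    · have h3 := card_le_card h2
      rw [card_powersetCard, hRc] at h3
      omega
  -- all members of `𝒟` are below `m + 1`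
  have hsub2 : 𝒟 ⊆ powersetCard (i + 1) (insert m' R) := by
    have h0 : insert m' R = univ.filter fun x : Fin n => (x : ℕ) < m + 1 := by
      ext x
      rw [mem_insert, hR, mem_filter, mem_filter, Fin.ext_iff, hm'v]
      constructor
      · rintro (h | h)
        · exact ⟨mem_univ x, by omega⟩
        · exact ⟨mem_univ x, by omega⟩
      · rintro ⟨_, h⟩
        rcases Nat.lt_or_ge (x : ℕ) m with h1 | h1
        · exact Or.inr ⟨mem_univ x, h1⟩
        · exact Or.inl (by omega)
    have h1 : IsInitSeg (powersetCard (i + 1) (insert m' R)) (i + 1) := by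
      rw [h0]
      exact initSeg_range
    rcases h1.total h𝒟 with h2 | h2
    · have h3 := card_le_card h2
      rw [card_powersetCard, card_insert_of_notMem hmR, hRc, Nat.choose_succ_succ' m i] at h3
      have h4 : powersetCard (i + 1) (insert m' R) = 𝒟 := by
        apply eq_of_subset_of_card_le h2
        rw [card_powersetCard, card_insert_of_notMem hmR, hRc, Nat.choose_succ_succ' m i]
        omega
      rw [h4]
    · exact h2
  -- the link of `m'`
  obtain ⟨𝒞, h𝒞⟩ : ∃ 𝒞, 𝒞 = (powersetCard i R).filter fun S => insert m' S ∈ 𝒟 := ⟨_, rfl⟩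
  have hmem : ∀ S, S ∈ 𝒞 ↔ (S ⊆ R ∧ S.card = i) ∧ insert m' S ∈ 𝒟 := by
    intro S
    rw [h𝒞, mem_filter, mem_powersetCard]
  have hdec : 𝒟 = powersetCard (i + 1) R ∪ 𝒞.image (insert m') := by
    ext A
    rw [mem_union, mem_image]
    constructor
    · intro hA
      have h1 := mem_powersetCard.1 (hsub2 hA)
      by_cases hmA : m' ∈ A
      · right
        refine ⟨A.erase m', (hmem _).2 ⟨⟨?_, ?_⟩, ?_⟩, insert_erase hmA⟩
        · intro x hx
          rw [mem_erase] at hx
          exact (mem_insert.1 (h1.1 hx.2)).resolve_left hx.1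
        · rw [card_erase_of_mem hmA, h1.2, Nat.add_sub_cancel]
        · rw [insert_erase hmA]
          exact hA
      · left
        refine mem_powersetCard.2 ⟨?_, h1.2⟩
        intro x hx
        refine (mem_insert.1 (h1.1 hx)).resolve_left ?_
        rintro rfl
        exact hmA hx
    · rintro (h | ⟨S, hS, rfl⟩)
      · exact hsub1 h
      · exact ((hmem S).1 hS).2
  have hnotm : ∀ S ∈ 𝒞, m' ∉ S := fun S hS h => hmR (((hmem S).1 hS).1.1 h)
  have hinj : Set.InjOn (insert m') (𝒞 : Set (Finset (Fin n))) := by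
    intro S hS S' hS' h
    have h1 : (insert m' S).erase m' = (insert m' S').erase m' := by rw [h]
    rwa [erase_insert (hnotm S hS), erase_insert (hnotm S' hS')] at h1
  have hdisj : Disjoint (powersetCard (i + 1) R) (𝒞.image (insert m')) := by
    rw [disjoint_left]
    intro A hA hA'
    obtain ⟨S, _, rfl⟩ := mem_image.1 hA'
    exact hmR ((mem_powersetCard.1 hA).1 (mem_insert_self _ _))
  have hC : 𝒞.card = p := by
    have h1 := hcard'
    rw [hdec, card_union_of_disjoint hdisj, card_powersetCard, hRc, card_image_of_injOn hinj, hc]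
      at h1
    omega
  refine ⟨𝒞, fun S hS => ((hmem S).1 hS).1.2, hC, le_trans ?_ hKK⟩
  -- the shadow
  have hshadow : powersetCard i R ∪ (∂ 𝒞).image (insert m') ⊆ ∂ 𝒟 := by
    intro T hT
    rw [mem_union, mem_image] at hT
    rcases hT with hT | ⟨T, hT, rfl⟩
    · rw [mem_powersetCard] at hT
      have h1 : (R \ T).Nonempty := by
        rw [← card_pos, card_sdiff_of_subset hT.1, hRc, hT.2]
        omega
      obtain ⟨x, hx⟩ := h1
      rw [mem_sdiff] at hx
      rw [mem_shadow_iff_insert_mem]
      refine ⟨x, hx.2, hsub1 (mem_powersetCard.2 ⟨insert_subset hx.1 hT.1, ?_⟩)⟩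
      rw [card_insert_of_notMem hx.2, hT.2]
    · rw [mem_shadow_iff_insert_mem] at hT
      obtain ⟨x, hx, hS⟩ := hT
      have h1 := (hmem _).1 hS
      have hxm : x ≠ m' := by
        rintro rfl
        exact hmR (h1.1.1 (mem_insert_self _ _))
      rw [mem_shadow_iff_insert_mem]
      refine ⟨x, ?_, ?_⟩
      · rw [mem_insert]
        rintro (h | h)
        · exact hxm h
        · exact hx h
      · rw [Finset.insert_comm]
        exact h1.2
  have hdisj2 : Disjoint (powersetCard i R) ((∂ 𝒞).image (insert m')) := by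
    rw [disjoint_left]
    intro A hA hA'
    obtain ⟨S, _, rfl⟩ := mem_image.1 hA'
    exact hmR ((mem_powersetCard.1 hA).1 (mem_insert_self _ _))
  have hinj2 : Set.InjOn (insert m') ((∂ 𝒞 : Finset (Finset (Fin n))) : Set (Finset (Fin n))) := by
    have h1 : ∀ T ∈ ∂ 𝒞, m' ∉ T := by
      intro T hT h2
      rw [mem_shadow_iff_insert_mem] at hT
      obtain ⟨x, _, hS⟩ := hT
      exact hnotm _ hS (mem_insert_of_mem h2)
    intro S hS S' hS' h
    have h2 : (insert m' S).erase m' = (insert m' S').erase m' := by rw [h]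
    rwa [erase_insert (h1 S hS), erase_insert (h1 S' hS')] at h2
  have h1 := card_le_card hshadow
  rw [card_union_of_disjoint hdisj2, card_powersetCard, hRc, card_image_of_injOn hinj2] at h1
  exact h1

end Pool.Agent.Lib.MP_455133_co.LR
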