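import Pool.Agent.Lib.MP_455133_co.LR.Fall
import Pool.Agent.Lib.MP_455133_co.LR.KK2

/-!
The chord through the integral points `m`, `m + 1` for the function `a / (y + 1)`: from the
two-term Kruskal-Katona theorem.
-/

namespace Pool.Agent.Lib.MP_455133_co.LR

open Finset

open scoped FinsetFamily

/-- the real binomial coefficient -/
noncomputable def bb (i : ℕ) (x : ℝ) : ℝ := P0 i x / (i.factorial : ℝ)

theorem bb_nat (i m : ℕ) : bb i (m : ℝ) = (m.choose i : ℝ) := by
  unfold bb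
  rw [P0_nat]
  have : ((i.factorial : ℕ) : ℝ) ≠ 0 := by exact_mod_cast i.factorial_ne_zero
  field_simp

theorem bb_succ (i : ℕ) (x : ℝ) : bb (i + 1) x * ((i : ℝ) + 1) = bb i x * (x - i) := by
  unfold bb
  have h1 : ((i.factorial : ℕ) : ℝ) ≠ 0 := by exact_mod_cast i.factorial_ne_zero
  have h2 : P0 (i + 1) x = P0 i x * (x - i) := rfl
  rw [h2, Nat.factorial_succ]
  push_cast
  have h3 : (i : ℝ) + 1 ≠ 0 := by positivity
  field_simp

/-! ### Elementary inequalities for the falling products -/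

theorem ch_up {i : ℕ} {x D : ℝ} (hD : 0 ≤ D) (hD1 : D ≤ 1) (hx : (i : ℝ) ≤ x + 1) :
    P0 i (x + D) ≤ P0 i x + i * D * P0 (i - 1) x := by
  induction i with
  | zero => simp [P0]
  | succ i ih =>
    push_cast at hx
    have h1 := ih (by linarith)
    have h2 : 0 ≤ x - i + D := by linarith
    have h3 := mul_le_mul_of_nonneg_right h1 h2
    have e1 : P0 (i + 1) (x + D) = P0 i (x + D) * (x - i + D) := by
      show P0 i (x + D) * (x + D - i) = _
      ring
    have e2 : P0 (i + 1) x = P0 i x * (x - i) := rfl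
    rw [Nat.add_sub_cancel, e1, e2]
    refine h3.trans ?_
    rcases Nat.eq_zero_or_pos i with h0 | h0
    · subst h0
      simp [P0]
    · obtain ⟨k, rfl⟩ : ∃ k, i = k + 1 := ⟨i - 1, by omega⟩
      rw [Nat.add_sub_cancel]
      have e3 : P0 (k + 1) x = P0 k x * (x - k) := rfl
      have h4 := (P_nonneg (i := k) (x := x) (by push_cast at hx; linarith)).1
      push_cast at h2 hx ⊢
      have h5 : ((k : ℝ) + 1) * D * (P0 k x * (x - ((k : ℝ) + 1) + D)) ≤
          ((k : ℝ) + 1) * D * (P0 k x * (x - k)) := by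
        apply mul_le_mul_of_nonneg_left _ (by positivity)
        apply mul_le_mul_of_nonneg_left _ h4
        linarith
      rw [e3]
      nlinarith

theorem ch_low {i : ℕ} {x D : ℝ} (hD : 0 ≤ D) (hD1 : D ≤ 1) (hx : (i : ℝ) ≤ x + 1) :
    P0 i x + i * D * P0 (i - 1) x - i * ((i : ℝ) - 1) / 2 * (D * (1 - D)) * P0 (i - 2) x ≤
      P0 i (x + D) := by
  induction i with
  | zero => simp [P0]
  | succ i ih =>
    push_cast at hx
    have h1 := ih (by linarith)
    have h2 : 0 ≤ x - i + D := by linarith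
    have h3 := mul_le_mul_of_nonneg_right h1 h2
    have e1 : P0 (i + 1) (x + D) = P0 i (x + D) * (x - i + D) := by
      show P0 i (x + D) * (x + D - i) = _
      ring
    have e2 : P0 (i + 1) x = P0 i x * (x - i) := rfl
    rw [Nat.add_sub_cancel, e1, e2]
    refine le_trans ?_ h3
    have hDD : 0 ≤ D * (1 - D) := mul_nonneg hD (by linarith)
    rcases Nat.lt_or_ge i 2 with h0 | h0
    · interval_cases i
      · simp [P0]
      · simp [P0]
        ring_nf
        nlinarith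
    · obtain ⟨k, rfl⟩ : ∃ k, i = k + 2 := ⟨i - 2, by omega⟩
      have s1 : k + 2 - 1 = k + 1 := by omega
      have s2 : k + 2 + 1 - 2 = k + 1 := by omega
      have s3 : k + 2 - 2 = k := by omega
      rw [s1, s2, s3]
      have e3 : P0 (k + 1) x = P0 k x * (x - k) := rfl
      have e4 : P0 (k + 2) x = P0 k x * (x - k) * (x - ((k + 1 : ℕ) : ℝ)) := rfl
      have h4 := (P_nonneg (i := k) (x := x) (by push_cast at hx; linarith)).1
      rw [e3, e4]
      push_cast at h2 hx ⊢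
      obtain ⟨p, hp⟩ : ∃ p, p = P0 k x := ⟨_, rfl⟩
      rw [← hp] at h4 ⊢
      obtain ⟨u, hu⟩ : ∃ u, u = x - k := ⟨_, rfl⟩
      have hx' : x = u + k := by linarith
      subst hx'
      have hu1 : 1 ≤ u := by linarith
      have key : (p * (u + ↑k - ↑k) * (u + ↑k - (↑k + 1)) +
            (↑k + 2) * D * (p * (u + ↑k - ↑k)) -
            (↑k + 2) * (↑k + 2 - 1) / 2 * (D * (1 - D)) * p) * (u + ↑k - (↑k + 2) + D) -
          (p * (u + ↑k - ↑k) * (u + ↑k - (↑k + 1)) * (u + ↑k - (↑k + 2)) +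
            (↑k + 2 + 1) * D * (p * (u + ↑k - ↑k) * (u + ↑k - (↑k + 1))) -
            (↑k + 2 + 1) * (↑k + 2 + 1 - 1) / 2 * (D * (1 - D)) * (p * (u + ↑k - ↑k))) =
          ((k : ℝ) + 2) * (k + 1) / 2 * (D * (1 - D)) * p * (2 - D) := by
        ring
      have h5 : 0 ≤ ((k : ℝ) + 2) * (k + 1) / 2 * (D * (1 - D)) * p * (2 - D) := by
        have : 0 ≤ 2 - D := by linarith
        positivity
      linarith

theorem ch_left {i : ℕ} {x y : ℝ} (hy : (i : ℝ) ≤ y + 1) (hyx : y ≤ x) :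
    P0 i x - P0 i y ≤ i * (x - y) * P0 (i - 1) x := by
  induction i with
  | zero => simp [P0]
  | succ i ih =>
    push_cast at hy
    have h1 := ih (by linarith)
    have h2 : 0 ≤ y - i := by linarith
    have h3 := mul_le_mul_of_nonneg_right h1 h2
    have e1 : P0 (i + 1) x = P0 i x * (x - i) := rfl
    have e2 : P0 (i + 1) y = P0 i y * (y - i) := rfl
    rw [Nat.add_sub_cancel, e1, e2]
    rcases Nat.eq_zero_or_pos i with h0 | h0
    · subst h0
      simp [P0]
    · obtain ⟨k, rfl⟩ : ∃ k, i = k + 1 := ⟨i - 1, by omega⟩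
      rw [Nat.add_sub_cancel] at h3
      have e3 : P0 (k + 1) x = P0 k x * (x - k) := rfl
      have h4 := (P_nonneg (i := k) (x := x) (by push_cast at hy; linarith)).1
      push_cast at h2 h3 hy ⊢
      have h5 : ((k : ℝ) + 1) * (x - y) * (P0 k x * (y - ((k : ℝ) + 1))) ≤
          ((k : ℝ) + 1) * (x - y) * (P0 k x * (x - k)) := by
        apply mul_le_mul_of_nonneg_left _ (mul_nonneg (by positivity) (by linarith))
        apply mul_le_mul_of_nonneg_left _ h4
        linarith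
      rw [e3] at h3 ⊢
      nlinarith

theorem ch_right {i : ℕ} {x y : ℝ} (hx : (i : ℝ) ≤ x + 1) (hyx : x + 1 ≤ y) :
    i * (y - x) * P0 (i - 1) x ≤ P0 i y - P0 i x := by
  induction i with
  | zero => simp [P0]
  | succ i ih =>
    push_cast at hx
    have h1 := ih (by linarith)
    have h2 : 0 ≤ y - i := by linarith
    have h3 := mul_le_mul_of_nonneg_right h1 h2
    have e1 : P0 (i + 1) x = P0 i x * (x - i) := rfl
    have e2 : P0 (i + 1) y = P0 i y * (y - i) := rfl
    rw [Nat.add_sub_cancel, e1, e2]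
    rcases Nat.eq_zero_or_pos i with h0 | h0
    · subst h0
      simp [P0]
    · obtain ⟨k, rfl⟩ : ∃ k, i = k + 1 := ⟨i - 1, by omega⟩
      rw [Nat.add_sub_cancel] at h3
      have e3 : P0 (k + 1) x = P0 k x * (x - k) := rfl
      have h4 := (P_nonneg (i := k) (x := x) (by push_cast at hx; linarith)).1
      push_cast at h2 h3 hx ⊢
      have h5 : ((k : ℝ) + 1) * (y - x) * (P0 k x * (x - k)) ≤
          ((k : ℝ) + 1) * (y - x) * (P0 k x * (y - ((k : ℝ) + 1))) := by
        apply mul_le_mul_of_nonneg_left _ (mul_nonneg (by positivity) (by linarith))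
        apply mul_le_mul_of_nonneg_left _ h4
        linarith
      rw [e3] at h3 ⊢
      nlinarith

theorem ch_ratio {i : ℕ} {x m : ℝ} (hx : (i : ℝ) ≤ x + 1) (hxm : x ≤ m) : ∀ l : ℕ, l ≤ i →
    P0 l m * (x + 1 - i) ^ l ≤ P0 l x * (m + 1 - i) ^ l := by
  intro l
  induction l with
  | zero => intro _; simp [P0]
  | succ l ih =>
    intro hl
    have hlR : (l : ℝ) + 1 ≤ i := by exact_mod_cast hl
    have h1 := ih (by omega)
    have h2 := (P_nonneg (i := l) (x := m) (by linarith)).1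
    have h3 : 0 ≤ x + 1 - i := by linarith
    have h4 : 0 ≤ m + 1 - i := by linarith
    have h5 : 0 ≤ x - l := by linarith
    have e1 : P0 (l + 1) m = P0 l m * (m - l) := rfl
    have e2 : P0 (l + 1) x = P0 l x * (x - l) := rfl
    rw [e1, e2, pow_succ, pow_succ]
    have h6 : (m - l) * (x + 1 - i) ≤ (x - l) * (m + 1 - i) := by
      have : (x - l) * (m + 1 - i) - (m - l) * (x + 1 - i) = (m - x) * (i - 1 - l) := by ring
      have h7 : 0 ≤ (m - x) * ((i : ℝ) - 1 - l) := mul_nonneg (by linarith) (by linarith)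
      linarith
    calc P0 l m * (m - l) * ((x + 1 - i) ^ l * (x + 1 - i))
        = P0 l m * (x + 1 - i) ^ l * ((m - l) * (x + 1 - i)) := by ring
      _ ≤ P0 l m * (x + 1 - i) ^ l * ((x - l) * (m + 1 - i)) := by
          apply mul_le_mul_of_nonneg_left h6 (by positivity)
      _ ≤ P0 l x * (m + 1 - i) ^ l * ((x - l) * (m + 1 - i)) := by
          apply mul_le_mul_of_nonneg_right h1 (by positivity)
      _ = P0 l x * (x - l) * ((m + 1 - i) ^ l * (m + 1 - i)) := by ring

/-! ### The improved local LYM inequality -/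

theorem kprime_real {i : ℕ} {m x p c C : ℝ} (hi : 1 ≤ i) (hC : C = bb i m) (hC0 : 0 < C)
    (hx : (i : ℝ) ≤ x + 1) (hxm : x ≤ m) (him : (i : ℝ) < m + 1) (hc : c = bb (i - 1) x)
    (hp0 : 0 ≤ p) (hp : (i : ℝ) * p ≤ (x - i + 1) * c) :
    p * (i + 1 - p / C) ≤ (m - i + 1) * c := by
  obtain ⟨k, rfl⟩ : ∃ k, i = k + 1 := ⟨i - 1, by omega⟩
  rw [Nat.add_sub_cancel] at hc
  push_cast at hx him hp ⊢
  have hw : 0 < m - k := by linarith
  have hk : (0 : ℝ) < (k : ℝ) + 1 := by positivity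
  obtain ⟨P, hP⟩ : ∃ P, P = bb (k + 1) x := ⟨_, rfl⟩
  have hPc : P * ((k : ℝ) + 1) = c * (x - k) := by
    rw [hP, hc]
    exact bb_succ k x
  have hpP : p ≤ P := by
    have h1 : ((k : ℝ) + 1) * p ≤ ((k : ℝ) + 1) * P := by
      have : (x - (k + 1) + 1) * c = c * (x - k) := by ring
      rw [this, ← hPc] at hp
      linarith
    exact le_of_mul_le_mul_left h1 hk
  have hPC : P ≤ C := by
    rw [hP, hC]
    unfold bb
    apply div_le_div_of_nonneg_right _ (by positivity)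
    exact P0_mono (by push_cast; linarith) hxm
  have hc0 : 0 ≤ c := by
    rw [hc]
    unfold bb
    exact div_nonneg (P_nonneg (by linarith)).1 (by positivity)
  have hP0 : 0 ≤ P := hp0.trans hpP
  -- monotonicity in `p`
  have h1 : p * ((k : ℝ) + 1 + 1 - p / C) ≤ P * ((k : ℝ) + 1 + 1 - P / C) := by
    have h2 : P * ((k : ℝ) + 1 + 1 - P / C) - p * ((k : ℝ) + 1 + 1 - p / C) =
        (P - p) * ((k : ℝ) + (1 - P / C) + (1 - p / C)) := by
      field_simp
      ring
    have h3 : P / C ≤ 1 := (div_le_one hC0).2 hPC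
    have h4 : p / C ≤ 1 := (div_le_one hC0).2 (hpP.trans hPC)
    have h5 : 0 ≤ (P - p) * ((k : ℝ) + (1 - P / C) + (1 - p / C)) := by
      apply mul_nonneg (by linarith)
      have : (0 : ℝ) ≤ k := by positivity
      linarith
    linarith
  refine h1.trans ?_
  -- Bernoulli
  obtain ⟨σ, hσ⟩ : ∃ σ, σ = (x - k) / (m - k) := ⟨_, rfl⟩
  have hσ0 : 0 ≤ σ := by
    rw [hσ]
    exact div_nonneg (by linarith) hw.le
  have hσ1 : σ ≤ 1 := by
    rw [hσ, div_le_one hw]
    linarith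
  have hber : 1 + ((k + 2 : ℕ) : ℝ) * (σ - 1) ≤ σ ^ (k + 2) := by
    have := one_add_mul_le_pow (a := σ - 1) (by linarith) (k + 2)
    rwa [add_sub_cancel] at this
  have hrat : σ ^ (k + 1) ≤ P / C := by
    rw [le_div_iff₀ hC0, hσ, div_pow, div_mul_eq_mul_div, div_le_iff₀ (pow_pos hw _), hP, hC]
    have h2 := ch_ratio (i := k + 1) (x := x) (m := m) (by push_cast; linarith) hxm (k + 1)
      le_rfl
    have e1 : x + 1 - ((k + 1 : ℕ) : ℝ) = x - k := by push_cast; ring
    have e2 : m + 1 - ((k + 1 : ℕ) : ℝ) = m - k := by push_cast; ring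
    rw [e1, e2] at h2
    unfold bb
    rw [← mul_div_assoc, div_mul_eq_mul_div]
    apply div_le_div_of_nonneg_right _ (by positivity)
    linarith
  have hPσ : P * ((k : ℝ) + 1) = σ * ((m - k) * c) := by
    rw [hPc, hσ]
    field_simp
  have h6 : P * ((k : ℝ) + 1 + 1 - P / C) * ((k : ℝ) + 1) ≤
      (m - (k + 1) + 1) * c * ((k : ℝ) + 1) := by
    have h7 : P * ((k : ℝ) + 1 + 1 - P / C) * ((k : ℝ) + 1) =
        (σ * ((k : ℝ) + 1 + 1 - P / C)) * ((m - k) * c) := by
      linear_combination ((k : ℝ) + 1 + 1 - P / C) * hPσ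
    rw [h7]
    have h8 : σ * ((k : ℝ) + 1 + 1 - P / C) ≤ (k : ℝ) + 1 := by
      have h9 : σ * σ ^ (k + 1) ≤ σ * (P / C) := mul_le_mul_of_nonneg_left hrat hσ0
      have h10 : σ * σ ^ (k + 1) = σ ^ (k + 2) := by ring
      push_cast at hber
      nlinarith
    have h11 : 0 ≤ (m - k) * c := mul_nonneg hw.le hc0
    have h12 := mul_le_mul_of_nonneg_right h8 h11
    linarith
  exact le_of_mul_le_mul_right h6 hk

/-- The improved local LYM inequality, from the Kruskal-Katona theorem. -/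
theorem kprime {n i m : ℕ} (hi : 1 ≤ i) (him : i ≤ m) (G : Finset (Finset (Fin n)))
    (hG : ∀ A ∈ G, A.card = i) (hp : G.card ≤ m.choose i)
    (hKK : ∀ x : ℝ, (i : ℝ) ≤ x + 1 → ((∂ G).card : ℝ) ≤ bb (i - 1) x →
      (i : ℝ) * G.card ≤ (x - i + 1) * (∂ G).card) :
    (G.card : ℝ) * (i + 1 - G.card / (m.choose i : ℝ)) ≤ ((m : ℝ) - i + 1) * (∂ G).card := by
  have hC0 : (0 : ℝ) < (m.choose i : ℝ) := by exact_mod_cast Nat.choose_pos him
  have hmR : (i : ℝ) ≤ m := by exact_mod_cast him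
  have hiR : (1 : ℝ) ≤ i := by exact_mod_cast hi
  rcases Nat.eq_zero_or_pos G.card with h0 | h0
  · rw [h0]
    push_cast
    have h1 : (0 : ℝ) ≤ ((m : ℝ) - i + 1) * (∂ G).card := by
      apply mul_nonneg (by linarith) (Nat.cast_nonneg _)
    linarith
  have hsh : 1 ≤ (∂ G).card := by
    obtain ⟨A, hA⟩ := card_pos.1 h0
    have h1 : A.Nonempty := by
      rw [← card_pos, hG A hA]
      omega
    obtain ⟨x, hx⟩ := h1
    exact card_pos.2 ⟨A.erase x, erase_mem_shadow hA hx⟩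
  have hshR : (1 : ℝ) ≤ ((∂ G).card : ℝ) := by exact_mod_cast hsh
  by_cases hbig : (m.choose (i - 1) : ℝ) ≤ ((∂ G).card : ℝ)
  · obtain ⟨k, rfl⟩ : ∃ k, i = k + 1 := ⟨i - 1, by omega⟩
    rw [Nat.add_sub_cancel] at hbig
    have h1 : ((m.choose (k + 1) : ℝ)) * ((k : ℝ) + 1) = (m.choose k : ℝ) * ((m : ℝ) - k) := by
      rw [← bb_nat, ← bb_nat]
      exact bb_succ k m
    obtain ⟨C, hC⟩ : ∃ C : ℝ, C = (m.choose (k + 1) : ℝ) := ⟨_, rfl⟩
    obtain ⟨ρ, hρ⟩ : ∃ ρ : ℝ, ρ = (G.card : ℝ) / C := ⟨_, rfl⟩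
    rw [← hC] at hC0 h1
    have hGρ : (G.card : ℝ) = C * ρ := by
      rw [hρ, mul_comm, div_mul_cancel₀ _ hC0.ne']
    have hρ1 : ρ ≤ 1 := by
      rw [hρ, div_le_one hC0, hC]
      exact_mod_cast hp
    have hρ0 : 0 ≤ ρ := by
      rw [hρ]
      exact div_nonneg (Nat.cast_nonneg _) hC0.le
    rw [← hC, ← hρ, hGρ]
    push_cast at hmR ⊢
    have h2 : ((m : ℝ) - (k + 1) + 1) * (m.choose k : ℝ) ≤
        ((m : ℝ) - (k + 1) + 1) * (∂ G).card :=
      mul_le_mul_of_nonneg_left hbig (by linarith)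
    have h3 : C * (ρ * ((k : ℝ) + 1 + 1 - ρ)) ≤ C * ((k : ℝ) + 1) := by
      apply mul_le_mul_of_nonneg_left _ hC0.le
      have hk0 : (0 : ℝ) ≤ k := by positivity
      nlinarith [mul_nonneg (sub_nonneg.2 hρ1) (by linarith : (0 : ℝ) ≤ (k : ℝ) + 1 - ρ)]
    nlinarith
  · push Not at hbig
    -- the intermediate value
    have hex : ∃ x : ℝ, (i : ℝ) ≤ x + 1 ∧ x ≤ m ∧ bb (i - 1) x = ((∂ G).card : ℝ) := by
      have h1 : bb (i - 1) ((i : ℝ) - 1) = 1 := by
        have h2 : ((i : ℝ) - 1) = ((i - 1 : ℕ) : ℝ) := by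
          rw [Nat.cast_sub hi, Nat.cast_one]
        rw [h2, bb_nat, Nat.choose_self, Nat.cast_one]
      have hcont : ContinuousOn (bb (i - 1)) (Set.Icc ((i : ℝ) - 1) m) := by
        have : Continuous (bb (i - 1)) := by
          unfold bb
          exact (continuous_P0 (i - 1)).div_const _
        exact this.continuousOn
      have h3 := intermediate_value_Icc (by linarith : (i : ℝ) - 1 ≤ m) hcont
      have h4 : ((∂ G).card : ℝ) ∈ Set.Icc (bb (i - 1) ((i : ℝ) - 1)) (bb (i - 1) (m : ℝ)) := by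
        rw [h1, bb_nat]
        exact ⟨hshR, hbig.le⟩
      obtain ⟨x, hx, hxv⟩ := h3 h4
      exact ⟨x, by linarith [hx.1], hx.2, hxv⟩
    obtain ⟨x, hx1, hx2, hx3⟩ := hex
    refine kprime_real hi (bb_nat i m).symm hC0 hx1 hx2 (by linarith) hx3.symm
      (Nat.cast_nonneg _) ?_
    exact hKK x hx1 hx3.ge

end Pool.Agent.Lib.MP_455133_co.LR
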