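import Pool.Agent.Lib.MP_455133_co.LR.ChordL

/-!
The chord for families of sets.
-/

namespace Pool.Agent.Lib.MP_455133_co.LR

open Finset

open scoped FinsetFamily

theorem sh_eq_shadow {V : Type*} [Fintype V] [DecidableEq V] {C : Finset (Finset V)} {p : ℕ}
    (hC : ∀ e ∈ C, e.card = p + 2) : sh (p + 1) C = ∂ C := by
  ext S
  rw [mem_sh, mem_shadow_iff_insert_mem]
  constructor
  · rintro ⟨hS, e, he, hSe⟩
    have h1 : (e \ S).Nonempty := by
      rw [← card_pos, card_sdiff_of_subset hSe, hC e he, hS]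
      omega
    obtain ⟨x, hx⟩ := h1
    rw [mem_sdiff] at hx
    refine ⟨x, hx.2, ?_⟩
    have h2 : insert x S = e := by
      apply eq_of_subset_of_card_le (insert_subset hx.1 hSe)
      rw [card_insert_of_notMem hx.2, hS, hC e he]
    rw [h2]
    exact he
  · rintro ⟨x, hx, he⟩
    refine ⟨?_, _, he, subset_insert _ _⟩
    have h1 := hC _ he
    rw [card_insert_of_notMem hx] at h1
    omega

/-- The chord through `m`, `m + 1`. -/
theorem chord_line {n p a m : ℕ} {θ y : ℝ} (C : Finset (Finset (Fin n)))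
    (hC : ∀ e ∈ C, e.card = p + 2) (hne : C.Nonempty)
    (hnb : ∀ S ∈ sh (p + 1) C, a + 1 ≤ (nb C S).card + (p + 2)) (hpa : p + 3 ≤ a)
    (hθ : ((p : ℝ) + 2) * θ = a - (p + 2)) (hθ2 : (p : ℝ) + 2 ≤ θ)
    (ham : a ≤ m + 1) (hy : (a : ℝ) - 1 ≤ y)
    (hFF : FF (p + 1) ((a : ℝ) - 1) y =
      ((p + 2).factorial : ℝ) * ((C.card : ℝ) - θ * ((sh (p + 1) C).card : ℝ))) :
    (a : ℝ) / (m + 1) - a / ((m + 1) * (m + 2) * (m.choose (p + 1) : ℝ)) *
      ((C.card : ℝ) - (m.choose (p + 2) : ℝ)) ≤ a / (y + 1) := by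
  have hsh := sh_eq_shadow hC
  have hMpos : 0 < (∂ C).card := by
    obtain ⟨e, he⟩ := hne
    have h1 : e.Nonempty := by
      rw [← card_pos, hC e he]
      omega
    obtain ⟨x, hx⟩ := h1
    exact card_pos.2 ⟨_, erase_mem_shadow he hx⟩
  have hMR : (0 : ℝ) < ((∂ C).card : ℝ) := by exact_mod_cast hMpos
  have hpaR : (p : ℝ) + 3 ≤ a := by exact_mod_cast hpa
  have hp0 : (0 : ℝ) ≤ p := by positivity
  -- the sum of the degrees
  have hdeg : ((a : ℝ) - (p + 1)) * ((∂ C).card : ℝ) ≤ ((p : ℝ) + 2) * (C.card : ℝ) := by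
    have h1 := sum_nb hC
    have h2 : ∑ S ∈ sh (p + 1) C, (a - (p + 1)) ≤
        ∑ S ∈ powersetCard (p + 1) (univ : Finset (Fin n)), (nb C S).card := by
      refine le_trans (Finset.sum_le_sum fun S hS => ?_)
        (Finset.sum_le_sum_of_subset (filter_subset _ _))
      have := hnb S hS
      omega
    rw [Finset.sum_const, smul_eq_mul, h1, hsh] at h2
    have h3 : (((∂ C).card * (a - (p + 1)) : ℕ) : ℝ) ≤ (((p + 2) * C.card : ℕ) : ℝ) := by
      exact_mod_cast h2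
    push_cast [Nat.cast_sub (by omega : p + 1 ≤ a)] at h3
    linarith
  rw [hsh] at hFF
  have hpos : 0 < (C.card : ℝ) - θ * ((∂ C).card : ℝ) := by
    have h1 : ((p : ℝ) + 2) * ((C.card : ℝ) - θ * ((∂ C).card : ℝ)) =
        ((p : ℝ) + 2) * C.card - (a - (p + 2)) * ((∂ C).card : ℝ) := by
      rw [← hθ]
      ring
    have h2 : 0 < ((p : ℝ) + 2) * ((C.card : ℝ) - θ * ((∂ C).card : ℝ)) := by
      rw [h1]
      nlinarith
    exact (mul_pos_iff_of_pos_left (by linarith)).1 h2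
  have hfac : (0 : ℝ) < ((p + 2).factorial : ℝ) := by positivity
  have hfac1 : (0 : ℝ) < ((p + 1).factorial : ℝ) := by positivity
  have hfac2 : ((p + 2).factorial : ℝ) = ((p : ℝ) + 2) * ((p + 1).factorial : ℝ) := by
    rw [Nat.factorial_succ (p + 1)]
    push_cast
    ring
  have hP : 0 ≤ P0 (p + 1) y := (P_nonneg (by push_cast; linarith)).1
  have hya : 0 < y - (a - 1) := by
    by_contra hc
    push Not at hc
    have h1 : FF (p + 1) ((a : ℝ) - 1) y ≤ 0 := mul_nonpos_of_nonneg_of_nonpos hP hc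
    have h2 : 0 < ((p + 2).factorial : ℝ) * ((C.card : ℝ) - θ * ((∂ C).card : ℝ)) :=
      mul_pos hfac hpos
    linarith
  -- `M ≥ bb (p + 1) y`
  have hM : bb (p + 1) y ≤ ((∂ C).card : ℝ) := by
    by_contra hc
    push Not at hc
    unfold bb at hc
    rw [lt_div_iff₀ hfac1] at hc
    have h1 := KKR_le (m := p) hC (x := y) (by linarith) (by linarith)
    have h2 : FF (p + 1) ((a : ℝ) - 1) y = P0 (p + 1) y * (y - (a - 1)) := rfl
    have h3 : ((p : ℝ) + 2) * ((C.card : ℝ) - θ * ((∂ C).card : ℝ)) ≤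
        (y - (a - 1)) * ((∂ C).card : ℝ) := by
      have e1 : ((p : ℝ) + 2) * ((C.card : ℝ) - θ * ((∂ C).card : ℝ)) =
          ((p : ℝ) + 2) * C.card - (a - (p + 2)) * ((∂ C).card : ℝ) := by
        rw [← hθ]
        ring
      rw [e1]
      linarith
    have h4 : P0 (p + 1) y * (y - (a - 1)) ≤
        ((p + 1).factorial : ℝ) * ((y - (a - 1)) * ((∂ C).card : ℝ)) := by
      rw [← h2, hFF, hfac2]
      have h5 := mul_le_mul_of_nonneg_left h3 hfac1.le
      linarith
    nlinarith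
  have hξ : bb (p + 2) y - θ * bb (p + 1) y = (C.card : ℝ) - θ * ((∂ C).card : ℝ) := by
    have h1 : bb (p + 2) y * (((p + 1 : ℕ) : ℝ) + 1) = bb (p + 1) y * (y - ((p + 1 : ℕ) : ℝ)) :=
      bb_succ (p + 1) y
    have h2 : FF (p + 1) ((a : ℝ) - 1) y =
        ((p + 1).factorial : ℝ) * (bb (p + 1) y * (y - (a - 1))) := by
      have h3 : FF (p + 1) ((a : ℝ) - 1) y = P0 (p + 1) y * (y - (a - 1)) := rfl
      rw [h3]
      unfold bb
      field_simp
    rw [h2, hfac2] at hFF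
    have h4 : bb (p + 1) y * (y - (a - 1)) =
        ((p : ℝ) + 2) * ((C.card : ℝ) - θ * ((∂ C).card : ℝ)) := by
      have h5 : ((p + 1).factorial : ℝ) * (bb (p + 1) y * (y - (a - 1))) =
          ((p + 1).factorial : ℝ) *
            (((p : ℝ) + 2) * ((C.card : ℝ) - θ * ((∂ C).card : ℝ))) := by
        rw [hFF]
        ring
      exact mul_left_cancel₀ hfac1.ne' h5
    have h5 : ((p : ℝ) + 2) * (bb (p + 2) y - θ * bb (p + 1) y) =
        ((p : ℝ) + 2) * ((C.card : ℝ) - θ * ((∂ C).card : ℝ)) := by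
      rw [← h4]
      push_cast at h1
      have h6 : ((p : ℝ) + 2) * (θ * bb (p + 1) y) = (a - (p + 2)) * bb (p + 1) y := by
        rw [← hθ]
        ring
      linear_combination h1 - h6
    exact mul_left_cancel₀ (by positivity) h5
  refine chord_num hpa hθ hθ2 ham hy hM hξ fun q hq hq0 hqC => ?_
  -- the two-term theorem
  have hqn : ∃ q' : ℕ, (q' : ℝ) = q := by
    have h1 : m.choose (p + 2) ≤ C.card := by
      have : (m.choose (p + 2) : ℝ) ≤ (C.card : ℝ) := by linarith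
      exact_mod_cast this
    refine ⟨C.card - m.choose (p + 2), ?_⟩
    rw [Nat.cast_sub h1]
    linarith
  obtain ⟨q', rfl⟩ := hqn
  have hq1 : 1 ≤ q' := by exact_mod_cast hq0
  have hqC' : q' ≤ m.choose (p + 1) := by exact_mod_cast hqC
  have hcard : C.card = m.choose (p + 1 + 1) + q' := by exact_mod_cast hq
  obtain ⟨G, hG, hGc, hGs⟩ := kk_two (i := p + 1) (m := m) (F := C) hC (by omega) hq1 hqC' hcard
  have h1 := kprime_all (i := p + 1) (m := m) (by omega) (by omega) G hG (by rw [hGc]; exact hqC')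
  rw [hGc] at h1
  push_cast at h1
  have h2 : ((∂ G).card : ℝ) ≤ ((∂ C).card : ℝ) - (m.choose (p + 1) : ℝ) := by
    have h3 : ((m.choose (p + 1) + (∂ G).card : ℕ) : ℝ) ≤ ((∂ C).card : ℝ) := by
      exact_mod_cast hGs
    push_cast at h3
    linarith
  have hpm : (p : ℝ) ≤ m := by
    have : p ≤ m := by omega
    exact_mod_cast this
  have h3 : ((m : ℝ) - p) * ((∂ G).card : ℝ) ≤
      ((m : ℝ) - p) * (((∂ C).card : ℝ) - (m.choose (p + 1) : ℝ)) :=
    mul_le_mul_of_nonneg_left h2 (by linarith)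
  have e1 : (p : ℝ) + 1 + 1 - q' / (m.choose (p + 1) : ℝ) =
      (p : ℝ) + 2 - q' / (m.choose (p + 1) : ℝ) := by ring
  have e2 : (m : ℝ) - (p + 1) + 1 = m - p := by ring
  rw [e1, e2] at h1
  exact h1.trans h3

/-- The line is at most one at zero. -/
theorem chord_zero {p a m : ℕ} (hpa : p + 3 ≤ a) (hm : a * (p + 3) ≤ (p + 2) * (m + 2)) :
    (a : ℝ) / (m + 1) - a / ((m + 1) * (m + 2) * (m.choose (p + 1) : ℝ)) *
      (0 - (m.choose (p + 2) : ℝ)) ≤ 1 := by
  have ham : a ≤ m + 1 := by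
    by_contra hc
    push Not at hc
    have h1 : (m + 2) * (p + 3) ≤ a * (p + 3) := Nat.mul_le_mul_right _ (by omega)
    nlinarith
  have hC0 : (0 : ℝ) < (m.choose (p + 1) : ℝ) := by
    exact_mod_cast Nat.choose_pos (by omega : p + 1 ≤ m)
  have h1 : (m.choose (p + 2) : ℝ) * (((p + 1 : ℕ) : ℝ) + 1) =
      (m.choose (p + 1) : ℝ) * (m - ((p + 1 : ℕ) : ℝ)) := by
    rw [← bb_nat, ← bb_nat]
    exact bb_succ (p + 1) m
  push_cast at h1
  have h2 : (m.choose (p + 2) : ℝ) = (m.choose (p + 1) : ℝ) * (m - (p + 1)) / (p + 2) := by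
    rw [eq_div_iff (by positivity)]
    linarith
  have h3 : (a : ℝ) * (p + 3) ≤ (p + 2) * (m + 2) := by exact_mod_cast hm
  have h4 : 1 - ((a : ℝ) / (m + 1) - a / ((m + 1) * (m + 2) * (m.choose (p + 1) : ℝ)) *
      (0 - (m.choose (p + 2) : ℝ))) =
      ((p + 2) * (m + 2) - a * (p + 3)) / ((p + 2) * (m + 2)) := by
    rw [h2]
    field_simp
    ring
  have h5 : 0 ≤ (((p : ℝ) + 2) * (m + 2) - a * (p + 3)) / ((p + 2) * (m + 2)) := by
    apply div_nonneg (by linarith) (by positivity)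
  linarith

end Pool.Agent.Lib.MP_455133_co.LR
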