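import Mathlib

/-!
Falling products `x (x-1) ... (x-i+1)` of a real variable and their derivatives.
-/

namespace Pool.Agent.Lib.MP_455133_co.LR

/-- `x (x-1) ... (x-i+1)` -/
noncomputable def P0 : ℕ → ℝ → ℝ
  | 0, _ => 1
  | i + 1, x => P0 i x * (x - i)

/-- first derivative -/
noncomputable def P1 : ℕ → ℝ → ℝ
  | 0, _ => 0
  | i + 1, x => P1 i x * (x - i) + P0 i x

/-- second derivative -/
noncomputable def P2 : ℕ → ℝ → ℝ
  | 0, _ => 0
  | i + 1, x => P2 i x * (x - i) + 2 * P1 i x

/-- third derivative -/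
noncomputable def P3 : ℕ → ℝ → ℝ
  | 0, _ => 0
  | i + 1, x => P3 i x * (x - i) + 3 * P2 i x

theorem hasDerivAt_P0 (i : ℕ) (x : ℝ) : HasDerivAt (P0 i) (P1 i x) x := by
  induction i with
  | zero => simpa [P0, P1] using hasDerivAt_const x (1 : ℝ)
  | succ i ih =>
    have h := ih.mul ((hasDerivAt_id x).sub_const (i : ℝ))
    have h2 : P1 (i + 1) x = P1 i x * (id x - i) + P0 i x * 1 := by simp [P1]
    rw [h2]
    exact h

theorem hasDerivAt_P1 (i : ℕ) (x : ℝ) : HasDerivAt (P1 i) (P2 i x) x := by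
  induction i with
  | zero => simpa [P1, P2] using hasDerivAt_const x (0 : ℝ)
  | succ i ih =>
    have h := (ih.mul ((hasDerivAt_id x).sub_const (i : ℝ))).add (hasDerivAt_P0 i x)
    have h2 : P2 (i + 1) x = P2 i x * (id x - i) + P1 i x * 1 + P1 i x := by
      simp [P2]; ring
    rw [h2]
    exact h

theorem hasDerivAt_P2 (i : ℕ) (x : ℝ) : HasDerivAt (P2 i) (P3 i x) x := by
  induction i with
  | zero => simpa [P2, P3] using hasDerivAt_const x (0 : ℝ)
  | succ i ih =>
    have h := (ih.mul ((hasDerivAt_id x).sub_const (i : ℝ))).add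
      ((hasDerivAt_P1 i x).const_mul 2)
    have h2 : P3 (i + 1) x = P3 i x * (id x - i) + P2 i x * 1 + 2 * P2 i x := by
      simp [P3]; ring
    rw [h2]
    exact h

theorem P0_pos {i : ℕ} {x : ℝ} (h : (i : ℝ) < x + 1) : 0 < P0 i x := by
  induction i with
  | zero => simp [P0]
  | succ i ih =>
    push_cast at h
    have h1 := ih (by linarith)
    simp only [P0]
    exact mul_pos h1 (by linarith)

theorem P_nonneg {i : ℕ} {x : ℝ} (h : (i : ℝ) ≤ x + 1) :
    0 ≤ P0 i x ∧ 0 ≤ P1 i x ∧ 0 ≤ P2 i x ∧ 0 ≤ P3 i x := by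
  induction i with
  | zero => simp [P0, P1, P2, P3]
  | succ i ih =>
    push_cast at h
    obtain ⟨h0, h1, h2, h3⟩ := ih (by linarith)
    have hu : 0 ≤ x - i := by linarith
    simp only [P0, P1, P2, P3]
    refine ⟨?_, ?_, ?_, ?_⟩ <;> positivity

theorem P_ineq {i : ℕ} {x : ℝ} (h : (i : ℝ) ≤ x + 1) :
    P0 i x * P2 i x ≤ P1 i x ^ 2 ∧ P0 i x * P3 i x ≤ P1 i x * P2 i x ∧
      P1 i x * P3 i x ≤ P2 i x ^ 2 := by
  induction i with
  | zero => simp [P0, P1, P2, P3]
  | succ i ih =>
    push_cast at h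
    obtain ⟨h0, h1, h2, h3⟩ := P_nonneg (i := i) (x := x) (by linarith)
    obtain ⟨i1, i2, i3⟩ := ih (by linarith)
    have hu : 0 ≤ x - i := by linarith
    simp only [P0, P1, P2, P3]
    set u := x - i
    set f := P0 i x
    set g := P1 i x
    set k := P2 i x
    set l := P3 i x
    have hu2 : 0 ≤ u ^ 2 := by positivity
    refine ⟨?_, ?_, ?_⟩
    · nlinarith [mul_le_mul_of_nonneg_right i1 hu2, mul_nonneg h0 h0]
    · nlinarith [mul_le_mul_of_nonneg_right i2 hu2, mul_le_mul_of_nonneg_right i1 hu,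
        mul_nonneg h0 h1]
    · nlinarith [mul_le_mul_of_nonneg_right i3 hu2, mul_le_mul_of_nonneg_right i2 hu,
        mul_nonneg h1 h1]

theorem P0_shift (i : ℕ) (x : ℝ) : P0 (i + 1) x = x * P0 i (x - 1) := by
  induction i with
  | zero => simp [P0]
  | succ i ih =>
    have h1 : P0 (i + 1 + 1) x = P0 (i + 1) x * (x - ((i + 1 : ℕ) : ℝ)) := rfl
    have h2 : P0 (i + 1) (x - 1) = P0 i (x - 1) * (x - 1 - i) := rfl
    rw [h1, ih, h2]
    push_cast
    ring

theorem P1_le {i : ℕ} {x : ℝ} (h : (i : ℝ) ≤ x + 1) :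
    P1 i x * (x + 1 - i) ≤ i * P0 i x := by
  induction i with
  | zero => simp [P1]
  | succ i ih =>
    push_cast at h
    have h1 := ih (by linarith)
    obtain ⟨h0, h1', -, -⟩ := P_nonneg (i := i) (x := x) (by linarith)
    have hu : 0 ≤ x - i := by linarith
    simp only [P0, P1]
    push_cast
    have h2 : P1 i x * (x - i) ≤ P1 i x * (x + 1 - i) := by nlinarith
    have h3 := mul_le_mul_of_nonneg_right h1 hu
    nlinarith

theorem P1_ge {i : ℕ} {x : ℝ} (h : (i : ℝ) ≤ x + 1) :
    i * P0 i x ≤ P1 i x * x := by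
  induction i with
  | zero => simp [P1]
  | succ i ih =>
    push_cast at h
    have h1 := ih (by linarith)
    obtain ⟨h0, h1', -, -⟩ := P_nonneg (i := i) (x := x) (by linarith)
    have hu : 0 ≤ x - i := by linarith
    simp only [P0, P1]
    push_cast
    have h3 := mul_le_mul_of_nonneg_right h1 hu
    have h4 : 0 ≤ (i : ℝ) * P0 i x := by positivity
    nlinarith

theorem P0_nat (i n : ℕ) : P0 i (n : ℝ) = (i.factorial : ℝ) * (n.choose i : ℝ) := by
  induction i with
  | zero => simp [P0]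
  | succ i ih =>
    simp only [P0]
    rw [ih, Nat.factorial_succ]
    have h := Nat.choose_succ_right_eq n i
    rcases le_or_gt i n with hi | hi
    · have h2 : ((n.choose (i + 1) : ℝ)) * ((i : ℝ) + 1) = (n.choose i : ℝ) * ((n : ℝ) - i) := by
        have : ((n.choose (i + 1) * (i + 1) : ℕ) : ℝ) = ((n.choose i * (n - i) : ℕ) : ℝ) := by
          rw [h]
        push_cast [Nat.cast_sub hi] at this
        exact this
      push_cast
      linear_combination -(i.factorial : ℝ) * h2
    · rw [Nat.choose_eq_zero_of_lt hi, Nat.choose_eq_zero_of_lt (by omega : n < i + 1)]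
      simp

theorem P0_mono {i : ℕ} {x y : ℝ} (h : (i : ℝ) ≤ x + 1) (hxy : x ≤ y) : P0 i x ≤ P0 i y := by
  induction i with
  | zero => simp [P0]
  | succ i ih =>
    push_cast at h
    have h1 := ih (by linarith)
    obtain ⟨h0, -, -, -⟩ := P_nonneg (i := i) (x := x) (by linarith)
    simp only [P0]
    exact mul_le_mul h1 (by linarith) (by linarith) (le_trans h0 h1)

theorem continuous_P0 (i : ℕ) : Continuous (P0 i) := by
  rw [continuous_iff_continuousAt]
  intro x
  exact (hasDerivAt_P0 i x).continuousAt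

/-- a convex function lies above its tangents -/
theorem tangent_le {f f' : ℝ → ℝ} {c : ℝ} (hf : ∀ x, HasDerivAt f (f' x) x)
    (hm : ∀ x y, c ≤ x → x ≤ y → f' x ≤ f' y) {x y : ℝ} (hx : c ≤ x) (hy : c ≤ y) :
    f x + f' x * (y - x) ≤ f y := by
  rcases lt_trichotomy x y with h | h | h
  · obtain ⟨z, hz, hz2⟩ := exists_hasDerivAt_eq_slope f f' h
      (fun t _ => (hf t).continuousAt.continuousWithinAt) (fun t _ => hf t)
    have h1 : f' x ≤ f' z := hm x z hx hz.1.le
    rw [eq_div_iff (by linarith)] at hz2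
    nlinarith
  · subst h; simp
  · obtain ⟨z, hz, hz2⟩ := exists_hasDerivAt_eq_slope f f' h
      (fun t _ => (hf t).continuousAt.continuousWithinAt) (fun t _ => hf t)
    have h1 : f' z ≤ f' x := hm z x (by linarith [hz.1]) hz.2.le
    rw [eq_div_iff (by linarith)] at hz2
    nlinarith

end Pool.Agent.Lib.MP_455133_co.LR
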