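import Mathlib
import Pool.Agent.Lib.MP_455133_co.LR.Fall

/-!
The theorem of Kruskal and Katona in the form of Lovász, for a real parameter
(the induction over links of Keevash).
-/

set_option linter.unusedSectionVars false

namespace Pool.Agent.Lib.MP_455133_co.LR

open Finset

variable {V : Type*} [Fintype V] [DecidableEq V]

/-- the link of a vertex -/
private def kkl (F : Finset (Finset V)) (v : V) : Finset (Finset V) :=
  (F.filter fun e => v ∈ e).image fun e => e.erase v

private theorem kk_card (F : Finset (Finset V)) (v : V) :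
    (kkl F v).card = (F.filter fun e => v ∈ e).card := by
  unfold kkl
  refine card_image_of_injOn ?_
  intro e he f hf hef
  simp only [coe_filter, Set.mem_ofPred_eq] at he hf
  have h1 : e.erase v = f.erase v := hef
  have h2 : insert v (e.erase v) = insert v (f.erase v) := by rw [h1]
  rwa [insert_erase he.2, insert_erase hf.2] at h2

private theorem kk_sum (F : Finset (Finset V)) {r : ℕ} (hF : ∀ e ∈ F, e.card = r) :
    ∑ v, (F.filter fun e => v ∈ e).card = F.card * r := by
  simp_rw [card_filter]
  rw [sum_comm]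
  have h1 : ∀ e ∈ F, ∑ v : V, (if v ∈ e then 1 else 0) = r := by
    intro e he
    rw [← hF e he]
    simp
  rw [sum_congr rfl h1]
  simp

private theorem kk_out {F G : Finset (Finset V)} (hFG : ∀ e ∈ F, ∀ v ∈ e, e.erase v ∈ G)
    (v : V) :
    (F.filter fun e => v ∈ e).card + (G.filter fun e => v ∈ e).card ≤ G.card := by
  have h1 : (F.filter fun e => v ∈ e).card ≤ (G.filter fun e => ¬ v ∈ e).card := by
    refine card_le_card_of_injOn (fun e => e.erase v) ?_ ?_
    · intro e he
      simp only [coe_filter, Set.mem_ofPred_eq] at he ⊢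
      exact ⟨hFG e he.1 v he.2, notMem_erase v e⟩
    · intro e he f hf hef
      simp only [coe_filter, Set.mem_ofPred_eq] at he hf
      have h1 : e.erase v = f.erase v := hef
      have h2 : insert v (e.erase v) = insert v (f.erase v) := by rw [h1]
      rwa [insert_erase he.2, insert_erase hf.2] at h2
  have h2 := card_filter_add_card_filter_not (s := G) (fun e => v ∈ e)
  omega

private theorem kk_total {F G : Finset (Finset V)} {m : ℕ} (hG : ∀ e ∈ G, e.card = m + 1)
    (hF : ∀ e ∈ F, e.card = m + 2) {x : ℝ}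
    (h : ∀ v, ((m : ℝ) + 1) * ((F.filter fun e => v ∈ e).card : ℝ) ≤
      (x - (m + 1)) * ((G.filter fun e => v ∈ e).card : ℝ)) :
    ((m : ℝ) + 2) * F.card ≤ (x - (m + 1)) * G.card := by
  have h1 : ∑ v, ((m : ℝ) + 1) * ((F.filter fun e => v ∈ e).card : ℝ) ≤
      ∑ v, (x - (m + 1)) * ((G.filter fun e => v ∈ e).card : ℝ) := sum_le_sum fun v _ => h v
  rw [← mul_sum, ← mul_sum, ← Nat.cast_sum, ← Nat.cast_sum, kk_sum F hF, kk_sum G hG] at h1
  push_cast at h1
  have hm : (0 : ℝ) < (m : ℝ) + 1 := by positivity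
  have h2 : ((m : ℝ) + 1) * (((m : ℝ) + 2) * F.card) ≤
      ((m : ℝ) + 1) * ((x - (m + 1)) * G.card) := by
    calc ((m : ℝ) + 1) * (((m : ℝ) + 2) * F.card) = ((m : ℝ) + 1) * (F.card * (m + 2)) := by ring
      _ ≤ _ := h1
      _ = _ := by ring
  exact le_of_mul_le_mul_left h2 hm

/-- `G` a family of `(m+1)`-sets, `F` a family of `(m+2)`-sets all of whose `(m+1)`-subsets
are in `G`, `|G| ≤ binom(x, m+1)` with `x ≥ m+1` real: `(m+2) |F| ≤ (x-m-1) |G|`. -/
theorem KKR_of_subset (m : ℕ) : ∀ (F G : Finset (Finset V)), (∀ e ∈ G, e.card = m + 1) →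
    (∀ e ∈ F, e.card = m + 2) → (∀ e ∈ F, ∀ v ∈ e, e.erase v ∈ G) →
    ∀ x : ℝ, (m : ℝ) + 1 ≤ x → ((m + 1).factorial : ℝ) * (G.card : ℝ) ≤ P0 (m + 1) x →
      ((m : ℝ) + 2) * F.card ≤ (x - (m + 1)) * G.card := by
  induction m with
  | zero =>
    intro F G hG hF hFG x hx hGx
    refine kk_total hG hF fun v => ?_
    have hGx' : (G.card : ℝ) ≤ x := by
      simpa [P0] using hGx
    by_cases hv : {v} ∈ G
    · have h1 : (G.filter fun e => v ∈ e) = {{v}} := by
        ext e
        simp only [mem_filter, mem_singleton]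
        constructor
        · rintro ⟨h1, h2⟩
          obtain ⟨w, hw⟩ := card_eq_one.1 (hG e h1)
          rw [hw] at h2 ⊢
          rw [mem_singleton] at h2
          rw [h2]
        · rintro rfl
          exact ⟨hv, mem_singleton_self v⟩
      have h2 := kk_out hFG v
      rw [h1, card_singleton] at h2 ⊢
      have h3 : ((F.filter fun e => v ∈ e).card : ℝ) + 1 ≤ G.card := by exact_mod_cast h2
      push_cast
      linarith
    · have h1 : (F.filter fun e => v ∈ e) = ∅ := by
        rw [filter_eq_empty_iff]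
        intro e he hve
        apply hv
        have h2 : (e.erase v).card = 1 := by
          rw [card_erase_of_mem hve, hF e he]
        obtain ⟨w, hw⟩ := card_eq_one.1 h2
        have hw2 : w ∈ e.erase v := by rw [hw]; exact mem_singleton_self w
        rw [mem_erase] at hw2
        have h3 := hFG e he w hw2.2
        have h4 : e.erase w = {v} := by
          have h5 : e = insert v {w} := by rw [← hw, insert_erase hve]
          rw [h5]
          ext y
          simp only [mem_erase, mem_insert, mem_singleton]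
          constructor
          · rintro ⟨h6, h7 | h7⟩
            · exact h7
            · exact absurd h7 h6
          · rintro rfl
            exact ⟨fun h => hw2.1 h.symm, Or.inl rfl⟩
        rwa [h4] at h3
      rw [h1]
      simp only [card_empty, Nat.cast_zero, mul_zero]
      apply mul_nonneg
      · push_cast at hx ⊢
        linarith
      · positivity
  | succ m ih =>
    intro F G hG hF hFG x hx hGx
    refine kk_total hG hF fun v => ?_
    push_cast at hx ⊢
    by_cases hd : ((m + 1).factorial : ℝ) * ((kkl G v).card : ℝ) ≤ P0 (m + 1) (x - 1)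
    · have h1 := ih (kkl F v) (kkl G v) ?_ ?_ ?_ (x - 1) (by linarith) hd
      · rw [kk_card, kk_card] at h1
        linarith
      · intro e he
        simp only [kkl, mem_image, mem_filter] at he
        obtain ⟨f, ⟨hf1, hf2⟩, rfl⟩ := he
        rw [card_erase_of_mem hf2, hG f hf1]
        rfl
      · intro e he
        simp only [kkl, mem_image, mem_filter] at he
        obtain ⟨f, ⟨hf1, hf2⟩, rfl⟩ := he
        rw [card_erase_of_mem hf2, hF f hf1]
        rfl
      · intro e he w hw
        simp only [kkl, mem_image, mem_filter] at he ⊢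
        obtain ⟨f, ⟨hf1, hf2⟩, rfl⟩ := he
        rw [mem_erase] at hw
        refine ⟨f.erase w, ⟨hFG f hf1 w hw.2, ?_⟩, erase_right_comm⟩
        rw [mem_erase]
        exact ⟨fun h => hw.1 h.symm, hf2⟩
    · push Not at hd
      rw [kk_card] at hd
      have h1 := kk_out hFG v
      set p := P0 (m + 1) (x - 1) with hp
      set d : ℝ := ((G.filter fun e => v ∈ e).card : ℝ) with hdd
      set c : ℝ := ((F.filter fun e => v ∈ e).card : ℝ) with hcc
      have h2 : c + d ≤ G.card := by rw [hcc, hdd]; exact_mod_cast h1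
      have h3 : P0 (m + 1 + 1) x = x * p := P0_shift (m + 1) x
      have h4 : ((m + 1 + 1).factorial : ℝ) = ((m : ℝ) + 2) * ((m + 1).factorial : ℝ) := by
        rw [Nat.factorial_succ (m + 1)]
        push_cast
        ring
      have hf : (0 : ℝ) < ((m + 1).factorial : ℝ) := by positivity
      rw [h3, h4] at hGx
      set q : ℝ := ((m + 1).factorial : ℝ) with hq
      have h5 : ((m : ℝ) + 2) * q * (c + d) ≤ x * p :=
        le_trans (mul_le_mul_of_nonneg_left h2 (by positivity)) hGx
      have h6 : 0 ≤ (x - (m + 2)) * (q * d - p) := mul_nonneg (by linarith) (by linarith)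
      have h7 : 0 ≤ ((m : ℝ) + 2) * (q * d - p) := mul_nonneg (by positivity) (by linarith)
      have h8 : q * (((m : ℝ) + 1 + 1) * c) ≤ q * ((x - ((m : ℝ) + 1 + 1)) * d) := by
        nlinarith
      exact le_of_mul_le_mul_left h8 hf

/-- `F` a family of `(m+2)`-sets, `|∂F| ≤ binom(x, m+1)`, `x ≥ m+1` real:
`(m+2) |F| ≤ (x-m-1) |∂F|`. -/
theorem KKR_le {m : ℕ} {F : Finset (Finset V)} (hF : ∀ e ∈ F, e.card = m + 2) {x : ℝ}
    (hx : (m : ℝ) + 1 ≤ x)
    (h : ((m + 1).factorial : ℝ) * (F.shadow.card : ℝ) ≤ P0 (m + 1) x) :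
    ((m : ℝ) + 2) * F.card ≤ (x - (m + 1)) * F.shadow.card := by
  refine KKR_of_subset m F F.shadow ?_ hF ?_ x hx h
  · intro e he
    obtain ⟨f, hf, a, ha, rfl⟩ := mem_shadow_iff.1 he
    rw [card_erase_of_mem ha, hF f hf]
    rfl
  · intro e he v hv
    exact mem_shadow_iff.2 ⟨e, he, v, hv, rfl⟩

/-- The theorem of Lovász: `F` a nonempty family of `(m+1)`-sets, `|F| ≥ binom(x, m+1)`,
`x ≥ m` real: `|∂F| ≥ binom(x, m)`. -/
theorem KKR_ge {m : ℕ} {F : Finset (Finset V)} (hF : ∀ e ∈ F, e.card = m + 1)
    (hne : F.Nonempty) {x : ℝ} (hx : (m : ℝ) ≤ x)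
    (h : P0 (m + 1) x ≤ ((m + 1).factorial : ℝ) * (F.card : ℝ)) :
    P0 m x ≤ (m.factorial : ℝ) * (F.shadow.card : ℝ) := by
  cases m with
  | zero =>
    obtain ⟨e, he⟩ := hne
    have h1 : 0 < e.card := by rw [hF e he]; norm_num
    obtain ⟨v, hv⟩ := card_pos.1 h1
    have h2 : 0 < F.shadow.card := card_pos.2 ⟨_, mem_shadow_iff.2 ⟨e, he, v, hv, rfl⟩⟩
    have h3 : (1 : ℝ) ≤ F.shadow.card := by exact_mod_cast h2
    simpa [P0] using h3
  | succ m =>
    by_contra hlt
    push Not at hlt
    push_cast at hx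
    have h1 := KKR_le hF hx hlt.le
    have h2 : (0 : ℝ) < F.card := by exact_mod_cast card_pos.2 hne
    have h3 : 0 < x - (m + 1) := by
      by_contra h4
      push Not at h4
      have h5 : (x - (m + 1)) * (F.shadow.card : ℝ) ≤ 0 :=
        mul_nonpos_of_nonpos_of_nonneg h4 (by positivity)
      have h6 : 0 < ((m : ℝ) + 2) * F.card := by positivity
      linarith
    have h4 : P0 (m + 1 + 1) x = P0 (m + 1) x * (x - (m + 1)) := by
      simp only [P0]
      push_cast
      ring
    have h5 : ((m + 1 + 1).factorial : ℝ) = ((m : ℝ) + 2) * ((m + 1).factorial : ℝ) := by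
      rw [Nat.factorial_succ (m + 1)]
      push_cast
      ring
    rw [h4, h5] at h
    have hf : (0 : ℝ) < ((m + 1).factorial : ℝ) := by positivity
    have h6 := mul_lt_mul_of_pos_right hlt h3
    have h7 := mul_le_mul_of_nonneg_left h1 hf.le
    nlinarith

end Pool.Agent.Lib.MP_455133_co.LR
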