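import Mathlib

/-!
The capped weight function of the vertex deletion potential.
-/

namespace Pool.Agent.Lib.MP_455133_co.LR

/-- `1/((d+1)(d+2)...(d+k))` -/
noncomputable def wt (k d : ℕ) : ℝ := 1 / ((d + 1).ascFactorial k : ℝ)

/-- `(d-a)/((d+1)(d+2)...(d+k+1))` -/
noncomputable def hh (a k d : ℕ) : ℝ := ((d : ℝ) - a) * wt (k + 1) d

/-- the running maximum of `hh` (and `0`) -/
noncomputable def GG (a k : ℕ) : ℕ → ℝ
  | 0 => 0
  | d + 1 => max (GG a k d) (hh a k (d + 1))

theorem wt_pos (k d : ℕ) : 0 < wt k d := by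
  unfold wt
  have : 0 < (d + 1).ascFactorial k := Nat.ascFactorial_pos _ _
  positivity

theorem wt_anti {k d d' : ℕ} (h : d ≤ d') : wt k d' ≤ wt k d := by
  unfold wt
  have h1 : 0 < (d + 1).ascFactorial k := Nat.ascFactorial_pos _ _
  have h2 : (d + 1).ascFactorial k ≤ (d' + 1).ascFactorial k := by
    induction k with
    | zero => simp
    | succ k ih =>
      rw [Nat.ascFactorial_succ, Nat.ascFactorial_succ]
      exact Nat.mul_le_mul (by omega) (ih (Nat.ascFactorial_pos _ _))
  apply one_div_le_one_div_of_le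
  · exact_mod_cast h1
  · exact_mod_cast h2

theorem wt_zero (d : ℕ) : wt 0 d = 1 := by simp [wt]

theorem wt_succ (k d : ℕ) : ((d : ℝ) + 1 + k) * wt (k + 1) d = wt k d := by
  unfold wt
  rw [Nat.ascFactorial_succ]
  have h1 : (0 : ℝ) < ((d + 1).ascFactorial k : ℕ) := by
    exact_mod_cast Nat.ascFactorial_pos _ _
  push_cast
  field_simp

theorem wt_succ' (k d : ℕ) : ((d : ℝ) + 1) * wt (k + 1) d = wt k (d + 1) := by
  unfold wt
  have h0 : (d + 1).ascFactorial (k + 1) = (d + 1) * (d + 2).ascFactorial k := by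
    rw [Nat.ascFactorial_eq_prod_range, Nat.ascFactorial_eq_prod_range, Finset.prod_range_succ']
    rw [mul_comm]
    congr 1
    apply Finset.prod_congr rfl
    intro i _
    ring
  rw [h0]
  have h1 : (0 : ℝ) < ((d + 2).ascFactorial k : ℕ) := by
    exact_mod_cast Nat.ascFactorial_pos _ _
  push_cast
  have h2 : (d : ℝ) + 1 ≠ 0 := by positivity
  rw [show d + 1 + 1 = d + 2 from rfl]
  field_simp

theorem hh_step (a k d : ℕ) :
    ((d : ℝ) + 2 + k) * hh a k (d + 1) - ((d : ℝ) + 1) * hh a k d = wt k (d + 1) := by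
  unfold hh
  have h1 := wt_succ k (d + 1)
  have h2 := wt_succ' k d
  push_cast at h1 ⊢
  have h3 : ((d : ℝ) + 2 + k) * (((d : ℝ) + 1 - a) * wt (k + 1) (d + 1)) =
      ((d : ℝ) + 1 - a) * wt k (d + 1) := by
    rw [← h1]; ring
  have h4 : ((d : ℝ) + 1) * (((d : ℝ) - a) * wt (k + 1) d) =
      ((d : ℝ) - a) * wt k (d + 1) := by
    rw [← h2]; ring
  rw [h3, h4]; ring

theorem GG_nonneg (a k d : ℕ) : 0 ≤ GG a k d := by
  induction d with
  | zero => simp [GG]
  | succ d ih => exact le_trans ih (le_max_left _ _)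

theorem GG_mono (a k : ℕ) : Monotone (GG a k) :=
  monotone_nat_of_le_succ fun _ => le_max_left _ _

theorem hh_le_GG (a k d : ℕ) : hh a k d ≤ GG a k d := by
  cases d with
  | zero =>
    simp only [GG, hh]
    have := wt_pos (k + 1) 0
    have h2 : (0 : ℝ) ≤ a := Nat.cast_nonneg _
    push_cast
    nlinarith
  | succ d => exact le_max_right _ _

theorem GG_eq_zero {a k d : ℕ} (h : d ≤ a) : GG a k d = 0 := by
  induction d with
  | zero => simp [GG]
  | succ d ih =>
    simp only [GG]
    rw [ih (by omega)]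
    apply max_eq_left
    unfold hh
    have h1 := wt_pos (k + 1) (d + 1)
    have h2 : ((d + 1 : ℕ) : ℝ) ≤ a := by exact_mod_cast h
    nlinarith

theorem GG_step {a k : ℕ} (d : ℕ) (hd : a ≤ d) :
    wt k (d + 1) ≤ ((d : ℝ) + 2 + k) * GG a k (d + 1) - ((d : ℝ) + 1) * GG a k d := by
  have key : ∀ d, GG a k d = hh a k d →
      wt k (d + 1) ≤ ((d : ℝ) + 2 + k) * GG a k (d + 1) - ((d : ℝ) + 1) * GG a k d := by
    intro d h
    rw [h, ← hh_step a k d]
    have h1 := hh_le_GG a k (d + 1)
    have h2 : (0 : ℝ) ≤ (d : ℝ) + 2 + k := by positivity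
    nlinarith
  induction d, hd using Nat.le_induction with
  | base =>
    apply key
    rw [GG_eq_zero le_rfl]
    simp [hh]
  | succ d hd ih =>
    rcases max_choice (GG a k d) (hh a k (d + 1)) with h | h
    · have h1 : GG a k (d + 1) = GG a k d := h
      have h2 : wt k (d + 1 + 1) ≤ wt k (d + 1) := wt_anti (by omega)
      have h3 : GG a k (d + 1) ≤ GG a k (d + 1 + 1) := GG_mono a k (by omega)
      rw [← h1] at ih
      have h4 : (0 : ℝ) ≤ (d : ℝ) + 3 + k := by positivity
      push_cast
      nlinarith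
    · exact key (d + 1) h

/-- the linear bound -/
theorem GG_linear {a k : ℕ} {γ : ℝ} (hγ : 0 ≤ γ)
    (h : ∀ m : ℕ, 1 ≤ m → γ * m ≤ ((m + (k + 1 + a)).choose (k + 2) : ℝ)) (d : ℕ) :
    γ * (((k + 2).factorial : ℝ) * GG a k d) ≤ d := by
  have key : ∀ d : ℕ, γ * (((k + 2).factorial : ℝ) * hh a k d) ≤ d := by
    intro d
    rcases Nat.lt_or_ge a d with hd | hd
    · obtain ⟨m, rfl⟩ : ∃ m, d = a + m := ⟨d - a, by omega⟩
      have hm := h m (by omega)
      have e1 : ((a + m).ascFactorial (k + 2) : ℕ) =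
          (k + 2).factorial * (m + (k + 1 + a)).choose (k + 2) := by
        rw [Nat.ascFactorial_eq_factorial_mul_choose']
        congr 2
        omega
      have e2 : ((a + m).ascFactorial (k + 2) : ℕ) =
          (a + m) * (a + m + 1).ascFactorial (k + 1) := by
        rw [Nat.ascFactorial_eq_prod_range, Nat.ascFactorial_eq_prod_range,
          Finset.prod_range_succ', mul_comm]
        congr 1
        apply Finset.prod_congr rfl
        intro i _
        ring
      have hpos : (0 : ℝ) < ((a + m + 1).ascFactorial (k + 1) : ℕ) := by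
        exact_mod_cast Nat.ascFactorial_pos _ _
      have e3 : ((k + 2).factorial : ℝ) * ((m + (k + 1 + a)).choose (k + 2) : ℝ) =
          ((a + m : ℕ) : ℝ) * ((a + m + 1).ascFactorial (k + 1) : ℕ) := by
        exact_mod_cast e1.symm.trans e2
      have hf : (0 : ℝ) < ((k + 2).factorial : ℝ) := by
        exact_mod_cast Nat.factorial_pos _
      unfold hh wt
      rw [show ((a + m : ℕ) : ℝ) - a = m by push_cast; ring]
      have h5 : γ * (((k + 2).factorial : ℝ) * ((m : ℝ) *
          (1 / ((a + m + 1).ascFactorial (k + 1) : ℕ)))) =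
          (((k + 2).factorial : ℝ) * (γ * m)) / ((a + m + 1).ascFactorial (k + 1) : ℕ) := by
        field_simp
      rw [h5, div_le_iff₀ hpos, ← e3]
      exact mul_le_mul_of_nonneg_left hm hf.le
    · have h1 := wt_pos (k + 1) d
      have h2 : (d : ℝ) ≤ a := by exact_mod_cast hd
      have h3 : hh a k d ≤ 0 := by
        unfold hh
        nlinarith
      have hf : (0 : ℝ) < ((k + 2).factorial : ℝ) := by
        exact_mod_cast Nat.factorial_pos _
      have h4 : ((k + 2).factorial : ℝ) * hh a k d ≤ 0 := by nlinarith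
      have h5 : γ * (((k + 2).factorial : ℝ) * hh a k d) ≤ 0 :=
        mul_nonpos_of_nonneg_of_nonpos hγ h4
      exact h5.trans (Nat.cast_nonneg _)
  induction d with
  | zero => simp [GG]
  | succ d ih =>
    rcases max_choice (GG a k d) (hh a k (d + 1)) with h1 | h1
    · have h2 : GG a k (d + 1) = GG a k d := h1
      rw [h2]
      push_cast
      linarith
    · have h2 : GG a k (d + 1) = hh a k (d + 1) := h1
      rw [h2]
      exact key _

end Pool.Agent.Lib.MP_455133_co.LR
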