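import Mathlib
import Pool.Agent.Lib.MP_455133_co.LR.Num

/-!
Neighbourhoods in a hypergraph and the degree sum inequality for the sets of the shadow
through a fixed set.
-/

namespace Pool.Agent.Lib.MP_455133_co.LR

open Finset

variable {V : Type*} [Fintype V] [DecidableEq V]

/-- the elements `x` outside `S` such that `S` and `x` lie in a common edge -/
def nb (B : Finset (Finset V)) (S : Finset V) : Finset V :=
  univ.filter fun x => x ∉ S ∧ ∃ e ∈ B, insert x S ⊆ e

/-- the `i`-sets lying in an edge -/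
def sh (i : ℕ) (B : Finset (Finset V)) : Finset (Finset V) :=
  (powersetCard i univ).filter fun S => ∃ e ∈ B, S ⊆ e

theorem mem_nb {B : Finset (Finset V)} {S : Finset V} {x : V} :
    x ∈ nb B S ↔ x ∉ S ∧ ∃ e ∈ B, insert x S ⊆ e := by simp [nb]

theorem mem_sh {i : ℕ} {B : Finset (Finset V)} {S : Finset V} :
    S ∈ sh i B ↔ S.card = i ∧ ∃ e ∈ B, S ⊆ e := by simp [sh, mem_powersetCard]

theorem nb_insert_subset {B : Finset (Finset V)} {P : Finset V} {x : V} :
    nb B (insert x P) ⊆ (nb B P).erase x := by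
  intro y hy
  rw [mem_nb] at hy
  obtain ⟨h1, e, he, h2⟩ := hy
  rw [mem_insert, not_or] at h1
  rw [mem_erase, mem_nb]
  refine ⟨h1.1, h1.2, e, he, ?_⟩
  intro z hz
  apply h2
  rw [mem_insert] at hz ⊢
  rcases hz with hz | hz
  · exact Or.inl hz
  · exact Or.inr (mem_insert_of_mem hz)

/-- the weighted number of shadow sets above `P` -/
noncomputable def TT (B : Finset (Finset V)) (P : Finset V) (k e : ℕ) : ℝ :=
  ∑ S ∈ (sh (P.card + k) B).filter (fun S => P ⊆ S),
    (k.factorial : ℝ) * wt (k + e) (nb B S).card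

theorem TT_zero {B : Finset (Finset V)} {P : Finset V} (hP : ∃ e ∈ B, P ⊆ e) (e : ℕ) :
    TT B P 0 e = wt e (nb B P).card := by
  unfold TT
  have h : (sh (P.card + 0) B).filter (fun S => P ⊆ S) = {P} := by
    ext S
    simp only [mem_filter, mem_sh, mem_singleton, Nat.add_zero]
    constructor
    · rintro ⟨⟨h1, -⟩, h2⟩
      exact (eq_of_subset_of_card_le h2 h1.le).symm
    · rintro rfl
      exact ⟨⟨rfl, hP⟩, Subset.refl _⟩
  rw [h, sum_singleton]
  simp

/-- one step of the recursion -/
theorem TT_succ {B : Finset (Finset V)} {P : Finset V} (k e : ℕ) :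
    TT B P (k + 1) e = ∑ x ∈ nb B P, TT B (insert x P) k (e + 1) := by
  unfold TT
  have h1 : ∀ x ∈ nb B P, ∑ S ∈ (sh ((insert x P).card + k) B).filter
      (fun S => insert x P ⊆ S), (k.factorial : ℝ) * wt (k + (e + 1)) (nb B S).card =
      ∑ S ∈ (sh (P.card + (k + 1)) B).filter (fun S => P ⊆ S),
        if x ∈ S then (k.factorial : ℝ) * wt (k + 1 + e) (nb B S).card else 0 := by
    intro x hx
    have hx' := (mem_nb.mp hx).1
    rw [← sum_filter]
    apply sum_congr
    · ext S
      simp only [mem_filter, insert_subset_iff, card_insert_of_notMem hx']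
      rw [show P.card + 1 + k = P.card + (k + 1) by ring]
      tauto
    · intro S _
      rw [show k + (e + 1) = k + 1 + e by ring]
  rw [sum_congr rfl h1, sum_comm]
  apply sum_congr rfl
  intro S hS
  rw [mem_filter, mem_sh] at hS
  obtain ⟨⟨hSc, e', he', hSe⟩, hPS⟩ := hS
  rw [← sum_filter, sum_const]
  have h2 : (nb B P).filter (fun x => x ∈ S) = S \ P := by
    ext x
    simp only [mem_filter, mem_nb, mem_sdiff]
    constructor
    · rintro ⟨⟨h, -⟩, h'⟩; exact ⟨h', h⟩
    · rintro ⟨h, h'⟩
      exact ⟨⟨h', e', he', insert_subset (hSe h) (hPS.trans hSe)⟩, h⟩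
  rw [h2, card_sdiff_of_subset hPS, hSc]
  rw [show P.card + (k + 1) - P.card = k + 1 by omega, Nat.factorial_succ, nsmul_eq_mul]
  push_cast
  ring

theorem nb_nonempty {B : Finset (Finset V)} {P : Finset V} (hP : ∃ e ∈ B, P ⊆ e)
    {r : ℕ} (hB : ∀ e ∈ B, e.card = r) (hPr : P.card < r) : (nb B P).Nonempty := by
  obtain ⟨e, he, hPe⟩ := hP
  have : (e \ P).Nonempty := by
    rw [← card_pos, card_sdiff_of_subset hPe, hB e he]; omega
  obtain ⟨x, hx⟩ := this
  rw [mem_sdiff] at hx
  exact ⟨x, mem_nb.mpr ⟨hx.2, e, he, insert_subset hx.1 hPe⟩⟩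

/-- The degree sum inequality. -/
theorem TT_ge {B : Finset (Finset V)} {r : ℕ} (hB : ∀ e ∈ B, e.card = r) (k : ℕ) :
    ∀ (e : ℕ) (P : Finset V), P.card + k < r → (∃ e ∈ B, P ⊆ e) →
      wt e (nb B P).card ≤ TT B P k e := by
  induction k with
  | zero =>
    intro e P _ hP
    rw [TT_zero hP]
  | succ k ih =>
    intro e P hPk hP
    rw [TT_succ]
    obtain ⟨N, hN⟩ : ∃ N, (nb B P).card = N + 1 := by
      have := card_pos.mpr (nb_nonempty hP hB (by omega))
      exact ⟨(nb B P).card - 1, by omega⟩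
    have h1 : ∀ x ∈ nb B P, wt (e + 1) N ≤ TT B (insert x P) k (e + 1) := by
      intro x hx
      have hx' := mem_nb.mp hx
      refine le_trans (wt_anti ?_) (ih (e + 1) (insert x P) ?_ ?_)
      · have := card_le_card (nb_insert_subset (B := B) (P := P) (x := x))
        rw [card_erase_of_mem hx, hN] at this
        omega
      · rw [card_insert_of_notMem hx'.1]; omega
      · exact hx'.2
    have h2 := sum_le_sum h1
    rw [sum_const, nsmul_eq_mul, hN] at h2
    have h3 := wt_succ' e N
    rw [hN]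
    push_cast at h2
    linarith

/-- the equality case: one element at each step -/
theorem TT_eq {B : Finset (Finset V)} {r : ℕ} (hB : ∀ e ∈ B, e.card = r) (k : ℕ)
    (e : ℕ) (P : Finset V) (hPk : P.card + (k + 1) < r) (hP : ∃ e ∈ B, P ⊆ e)
    (heq : TT B P (k + 1) e ≤ wt e (nb B P).card) {x : V} (hx : x ∈ nb B P) :
    nb B (insert x P) = (nb B P).erase x ∧
      TT B (insert x P) k (e + 1) ≤ wt (e + 1) (nb B (insert x P)).card := by
  obtain ⟨N, hN⟩ : ∃ N, (nb B P).card = N + 1 := by
    have := card_pos.mpr (nb_nonempty hP hB (by omega))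
    exact ⟨(nb B P).card - 1, by omega⟩
  have hle : ∀ y ∈ nb B P, (nb B (insert y P)).card ≤ N := by
    intro y hy
    have := card_le_card (nb_insert_subset (B := B) (P := P) (x := y))
    rw [card_erase_of_mem hy, hN] at this
    omega
  have h0 : ∀ y ∈ nb B P, wt (e + 1) (nb B (insert y P)).card ≤
      TT B (insert y P) k (e + 1) := by
    intro y hy
    have hy' := mem_nb.mp hy
    refine TT_ge hB k (e + 1) (insert y P) ?_ hy'.2
    rw [card_insert_of_notMem hy'.1]; omega
  have h1 : ∀ y ∈ nb B P, wt (e + 1) N ≤ TT B (insert y P) k (e + 1) := by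
    intro y hy
    exact le_trans (wt_anti (hle y hy)) (h0 y hy)
  rw [TT_succ, hN, ← wt_succ' e N] at heq
  have h2 : ∑ y ∈ nb B P, wt (e + 1) N = ((N : ℝ) + 1) * wt (e + 1) N := by
    rw [sum_const, nsmul_eq_mul, hN]; push_cast; ring
  have h3 : TT B (insert x P) k (e + 1) ≤ wt (e + 1) N := by
    by_contra hlt
    push Not at hlt
    have := sum_lt_sum h1 ⟨x, hx, hlt⟩
    rw [h2] at this
    linarith
  have h4 : wt (e + 1) (nb B (insert x P)).card ≤ wt (e + 1) N := le_trans (h0 x hx) h3
  have h5 : (nb B (insert x P)).card = N := by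
    by_contra hne
    have hlt : (nb B (insert x P)).card < N := lt_of_le_of_ne (hle x hx) hne
    have : wt (e + 1) N < wt (e + 1) (nb B (insert x P)).card := by
      have h6 := wt_succ' e (nb B (insert x P)).card
      have h7 := wt_succ' e N
      have h8 : wt e (N + 1) ≤ wt e ((nb B (insert x P)).card + 1) := wt_anti (by omega)
      have h9 : (((nb B (insert x P)).card : ℝ)) < N := by exact_mod_cast hlt
      have h10 := wt_pos (e + 1) N
      have h11 := wt_pos (e + 1) (nb B (insert x P)).card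
      by_contra hcon
      push Not at hcon
      nlinarith [Nat.cast_nonneg (α := ℝ) (nb B (insert x P)).card]
    linarith
  refine ⟨?_, ?_⟩
  · apply eq_of_subset_of_card_le nb_insert_subset
    rw [card_erase_of_mem hx, hN, h5]
    omega
  · rw [h5]; exact h3

end Pool.Agent.Lib.MP_455133_co.LR
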