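import Mathlib
import Pool.Agent.Lib.MP_455133_co.LR.Star

/-!
The vertex deletion potential: a set of at most `(r-1)!` times the potential many vertices
meets all complete `s`-sets of an `r`-uniform hypergraph.
-/

namespace Pool.Agent.Lib.MP_455133_co.LR

open Finset

variable {V : Type*} [Fintype V] [DecidableEq V]

/-- the potential -/
noncomputable def Ph (a k : ℕ) (B : Finset (Finset V)) : ℝ :=
  ∑ S ∈ powersetCard (k + 1) (univ : Finset V), GG a k (nb B S).card

/-- delete the vertex `u` -/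
def del (B : Finset (Finset V)) (u : V) : Finset (Finset V) := B.filter fun e => u ∉ e

/-- the vertices in an edge -/
def su (B : Finset (Finset V)) : Finset V := univ.filter fun v => ∃ e ∈ B, v ∈ e

theorem mem_su {B : Finset (Finset V)} {v : V} : v ∈ su B ↔ ∃ e ∈ B, v ∈ e := by simp [su]

theorem nb_mono {B B' : Finset (Finset V)} (h : B' ⊆ B) (S : Finset V) :
    nb B' S ⊆ nb B S := by
  intro x hx
  rw [mem_nb] at hx ⊢
  obtain ⟨h1, e, he, h2⟩ := hx
  exact ⟨h1, e, h he, h2⟩

theorem Ph_nonneg (a k : ℕ) (B : Finset (Finset V)) : 0 ≤ Ph a k B :=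
  sum_nonneg fun _ _ => GG_nonneg _ _ _

theorem Ph_mono {a k : ℕ} {B B' : Finset (Finset V)} (h : B' ⊆ B) : Ph a k B' ≤ Ph a k B :=
  sum_le_sum fun _ _ => GG_mono _ _ (card_le_card (nb_mono h _))

theorem nb_del_mem {B : Finset (Finset V)} {S : Finset V} {u : V} (hu : u ∈ S) :
    nb (del B u) S = ∅ := by
  rw [eq_empty_iff_forall_notMem]
  intro x hx
  rw [mem_nb] at hx
  obtain ⟨-, e, he, h2⟩ := hx
  rw [del, mem_filter] at he
  exact he.2 (h2 (mem_insert_of_mem hu))

theorem nb_iff {B : Finset (Finset V)} {k : ℕ} (hB : ∀ e ∈ B, e.card = k + 2)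
    {S : Finset V} (hS : S.card = k + 1) {x : V} : x ∈ nb B S ↔ x ∉ S ∧ insert x S ∈ B := by
  rw [mem_nb]
  constructor
  · rintro ⟨h1, e, he, h2⟩
    refine ⟨h1, ?_⟩
    have : insert x S = e := by
      apply eq_of_subset_of_card_le h2
      rw [hB e he, card_insert_of_notMem h1, hS]
    rw [this]; exact he
  · rintro ⟨h1, h2⟩
    exact ⟨h1, _, h2, Subset.refl _⟩

theorem nb_del_notMem {B : Finset (Finset V)} {k : ℕ} (hB : ∀ e ∈ B, e.card = k + 2)
    {S : Finset V} (hS : S.card = k + 1) {u : V} (hu : u ∉ S) :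
    nb (del B u) S = (nb B S).erase u := by
  ext x
  have hB' : ∀ e ∈ del B u, e.card = k + 2 := fun e he => hB e (mem_filter.mp he).1
  rw [nb_iff hB' hS, mem_erase, nb_iff hB hS, del, mem_filter, mem_insert, not_or]
  constructor
  · rintro ⟨h1, h2, h3, -⟩
    exact ⟨fun h => h3 h.symm, h1, h2⟩
  · rintro ⟨h1, h2, h3⟩
    exact ⟨h2, h3, fun h => h1 h.symm, hu⟩

/-- the total drop of the term of `S` -/
theorem drop_term {B : Finset (Finset V)} {a k : ℕ} (hB : ∀ e ∈ B, e.card = k + 2)
    {S : Finset V} (hS : S.card = k + 1) :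
    ∑ u : V, (GG a k (nb B S).card - GG a k (nb (del B u) S).card) =
      (k + 1) * GG a k (nb B S).card +
        (nb B S).card * (GG a k (nb B S).card - GG a k ((nb B S).card - 1)) := by
  have h1 : ∀ u : V, GG a k (nb B S).card - GG a k (nb (del B u) S).card =
      (if u ∈ S then GG a k (nb B S).card else 0) +
        (if u ∈ nb B S then GG a k (nb B S).card - GG a k ((nb B S).card - 1) else 0) := by
    intro u
    by_cases hu : u ∈ S
    · have hu' : u ∉ nb B S := fun h => (mem_nb.mp h).1 hu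
      rw [nb_del_mem hu, if_pos hu, if_neg hu']
      simp [GG]
    · rw [nb_del_notMem hB hS hu, if_neg hu]
      by_cases hu' : u ∈ nb B S
      · rw [if_pos hu', card_erase_of_mem hu', zero_add]
      · rw [if_neg hu', erase_eq_of_notMem hu']; ring
  rw [sum_congr rfl fun u _ => h1 u, sum_add_distrib, sum_ite_mem, sum_ite_mem, univ_inter,
    univ_inter, sum_const, sum_const, hS, nsmul_eq_mul, nsmul_eq_mul]
  push_cast
  ring

/-- deletion of a vertex outside the support does nothing -/
theorem del_of_notMem {B : Finset (Finset V)} {u : V} (hu : u ∉ su B) : del B u = B := by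
  rw [del, filter_eq_self]
  intro e he hue
  exact hu (mem_su.mpr ⟨e, he, hue⟩)

theorem sum_TT {B : Finset (Finset V)} (k : ℕ) :
    ∑ v ∈ su B, TT B {v} k 0 =
      ((k + 1).factorial : ℝ) * ∑ S ∈ sh (k + 1) B, wt k (nb B S).card := by
  unfold TT
  have h1 : ∀ v ∈ su B, ∑ S ∈ (sh (({v} : Finset V).card + k) B).filter
      (fun S => {v} ⊆ S), (k.factorial : ℝ) * wt (k + 0) (nb B S).card =
      ∑ S ∈ sh (k + 1) B, if v ∈ S then (k.factorial : ℝ) * wt k (nb B S).card else 0 := by
    intro v _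
    rw [← sum_filter]
    apply sum_congr
    · ext S
      rw [mem_filter, mem_filter, singleton_subset_iff, card_singleton, add_comm 1 k]
    · intro S _; simp
  rw [sum_congr rfl h1, sum_comm, mul_sum]
  apply sum_congr rfl
  intro S hS
  rw [mem_sh] at hS
  rw [← sum_filter, sum_const]
  have h2 : (su B).filter (fun v => v ∈ S) = S := by
    ext x
    rw [mem_filter, mem_su]
    constructor
    · exact fun h => h.2
    · intro h
      obtain ⟨-, e, he, hSe⟩ := hS
      exact ⟨⟨e, he, hSe h⟩, h⟩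
  rw [h2, hS.1, Nat.factorial_succ, nsmul_eq_mul]
  push_cast
  ring

theorem card_su_le {B : Finset (Finset V)} {k : ℕ} (hB : ∀ e ∈ B, e.card = k + 2) :
    ((su B).card : ℝ) ≤ ((k + 1).factorial : ℝ) * ∑ S ∈ sh (k + 1) B, wt k (nb B S).card := by
  rw [← sum_TT]
  have h1 : ∀ v ∈ su B, (1 : ℝ) ≤ TT B {v} k 0 := by
    intro v hv
    obtain ⟨e, he, hve⟩ := mem_su.mp hv
    have := TT_ge hB k 0 {v} (by rw [card_singleton]; omega)
      ⟨e, he, singleton_subset_iff.mpr hve⟩
    rwa [wt_zero] at this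
  have := sum_le_sum h1
  simpa using this

/-- the total drop of the potential -/
theorem sum_drop {B : Finset (Finset V)} {a k : ℕ} (hB : ∀ e ∈ B, e.card = k + 2)
    (hdeg : ∀ S ∈ sh (k + 1) B, a < (nb B S).card) :
    ∑ S ∈ sh (k + 1) B, wt k (nb B S).card ≤ ∑ u ∈ su B, (Ph a k B - Ph a k (del B u)) := by
  have h0 : ∑ u ∈ su B, (Ph a k B - Ph a k (del B u)) =
      ∑ u : V, (Ph a k B - Ph a k (del B u)) := by
    apply sum_subset (subset_univ _)
    intro u _ hu
    rw [del_of_notMem hu, sub_self]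
  rw [h0]
  have h1 : ∑ u : V, (Ph a k B - Ph a k (del B u)) =
      ∑ S ∈ powersetCard (k + 1) (univ : Finset V),
        ∑ u : V, (GG a k (nb B S).card - GG a k (nb (del B u) S).card) := by
    rw [sum_comm]
    apply sum_congr rfl
    intro u _
    rw [sum_sub_distrib]
    rfl
  rw [h1]
  have h2 : sh (k + 1) B ⊆ powersetCard (k + 1) (univ : Finset V) := filter_subset _ _
  refine le_trans ?_ (sum_le_sum_of_subset_of_nonneg h2 ?_)
  · apply sum_le_sum
    intro S hS
    rw [drop_term hB (mem_sh.mp hS).1]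
    obtain ⟨d, hd⟩ : ∃ d, (nb B S).card = d + 1 := ⟨(nb B S).card - 1, by
      have := hdeg S hS; omega⟩
    have h3 := hdeg S hS
    rw [hd] at h3 ⊢
    have h4 := GG_step (a := a) (k := k) d (by omega)
    rw [Nat.add_sub_cancel]
    push_cast
    linarith
  · intro S hS hS'
    apply sum_nonneg
    intro u _
    rw [sub_nonneg]
    exact GG_mono _ _ (card_le_card (nb_mono (filter_subset _ _) _))

/-- `A` is complete in `B` -/
def isK (r : ℕ) (B : Finset (Finset V)) (A : Finset V) : Prop :=
  ∀ R : Finset V, R ⊆ A → R.card = r → R ∈ B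

theorem exists_drop {B : Finset (Finset V)} {a k : ℕ} (hB : ∀ e ∈ B, e.card = k + 2)
    (hne : B.Nonempty) (hdeg : ∀ S ∈ sh (k + 1) B, a < (nb B S).card) :
    ∃ u ∈ su B, 1 ≤ ((k + 1).factorial : ℝ) * (Ph a k B - Ph a k (del B u)) := by
  have hU : (su B).Nonempty := by
    obtain ⟨e, he⟩ := hne
    have : e.Nonempty := by rw [← card_pos, hB e he]; omega
    obtain ⟨v, hv⟩ := this
    exact ⟨v, mem_su.mpr ⟨e, he, hv⟩⟩
  have h1 := card_su_le hB
  have h2 := sum_drop hB hdeg
  have hf : (0 : ℝ) < ((k + 1).factorial : ℝ) := by exact_mod_cast Nat.factorial_pos _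
  have h3 : ∑ u ∈ su B, (1 : ℝ) ≤
      ∑ u ∈ su B, ((k + 1).factorial : ℝ) * (Ph a k B - Ph a k (del B u)) := by
    rw [← mul_sum, sum_const, nsmul_eq_mul, mul_one]
    exact h1.trans (mul_le_mul_of_nonneg_left h2 hf.le)
  exact exists_le_of_sum_le hU h3

theorem exists_hit (a k : ℕ) : ∀ (N : ℕ) (B : Finset (Finset V)), B.card = N →
    (∀ e ∈ B, e.card = k + 2) →
    ∃ D : Finset V, (D.card : ℝ) ≤ ((k + 1).factorial : ℝ) * Ph a k B ∧
      ∀ A : Finset V, A.card = k + 2 + a → isK (k + 2) B A → ¬ Disjoint A D := by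
  intro N
  induction N using Nat.strong_induction_on with
  | _ N ih =>
    intro B hN hB
    have hf : (0 : ℝ) < ((k + 1).factorial : ℝ) := by exact_mod_cast Nat.factorial_pos _
    by_cases hK : ∃ A : Finset V, A.card = k + 2 + a ∧ isK (k + 2) B A
    swap
    · refine ⟨∅, ?_, ?_⟩
      · rw [card_empty]
        push_cast
        exact mul_nonneg hf.le (Ph_nonneg _ _ _)
      · intro A h1 h2
        exact absurd ⟨A, h1, h2⟩ hK
    by_cases hdeg : ∀ S ∈ sh (k + 1) B, a < (nb B S).card
    · have hne : B.Nonempty := by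
        obtain ⟨A, hA, hAK⟩ := hK
        obtain ⟨R, hR, hRc⟩ := exists_subset_card_eq (s := A) (n := k + 2) (by omega)
        exact ⟨R, hAK R hR hRc⟩
      obtain ⟨u, hu, hd⟩ := exists_drop hB hne hdeg
      have hlt : (del B u).card < N := by
        rw [← hN]
        apply card_lt_card
        rw [del, filter_ssubset]
        obtain ⟨e, he, hue⟩ := mem_su.mp hu
        exact ⟨e, he, fun h => h hue⟩
      obtain ⟨D, hD1, hD2⟩ := ih _ hlt (del B u) rfl (fun e he => hB e (mem_filter.mp he).1)
      refine ⟨insert u D, ?_, ?_⟩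
      · have h1 := card_insert_le u D
        have h2 : ((insert u D).card : ℝ) ≤ D.card + 1 := by exact_mod_cast h1
        have h3 : ((k + 1).factorial : ℝ) * (Ph a k B - Ph a k (del B u)) =
          ((k + 1).factorial : ℝ) * Ph a k B - ((k + 1).factorial : ℝ) * Ph a k (del B u) := by
          ring
        linarith
      · intro A hA hAK hdis
        rw [disjoint_insert_right] at hdis
        refine hD2 A hA ?_ hdis.2
        intro R hR hRc
        rw [del, mem_filter]
        exact ⟨hAK R hR hRc, fun h => hdis.1 (hR h)⟩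
    · push Not at hdeg
      obtain ⟨S, hS, hSa⟩ := hdeg
      have hlt : (B.filter fun e => ¬ S ⊆ e).card < N := by
        rw [← hN]
        apply card_lt_card
        rw [filter_ssubset]
        obtain ⟨-, e, he, hSe⟩ := mem_sh.mp hS
        exact ⟨e, he, fun h => h hSe⟩
      obtain ⟨D, hD1, hD2⟩ := ih _ hlt (B.filter fun e => ¬ S ⊆ e) rfl
        (fun e he => hB e (mem_filter.mp he).1)
      refine ⟨D, hD1.trans (mul_le_mul_of_nonneg_left (Ph_mono (filter_subset _ _)) hf.le), ?_⟩
      intro A hA hAK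
      refine hD2 A hA ?_
      intro R hR hRc
      rw [mem_filter]
      refine ⟨hAK R hR hRc, ?_⟩
      intro hSR
      have hSc := (mem_sh.mp hS).1
      have hSA : S ⊆ A := hSR.trans hR
      have h1 : A \ S ⊆ nb B S := by
        intro x hx
        rw [mem_sdiff] at hx
        rw [nb_iff hB hSc]
        refine ⟨hx.2, hAK _ (insert_subset hx.1 hSA) ?_⟩
        rw [card_insert_of_notMem hx.2, hSc]
      have h2 := card_le_card h1
      rw [card_sdiff_of_subset hSA, hA, hSc] at h2
      omega

/-- double counting of the pairs of an edge and one of its points -/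
theorem sum_nb {B : Finset (Finset V)} {k : ℕ} (hB : ∀ e ∈ B, e.card = k + 2) :
    ∑ S ∈ powersetCard (k + 1) (univ : Finset V), (nb B S).card = (k + 2) * B.card := by
  have h1 : ∀ S ∈ powersetCard (k + 1) (univ : Finset V), (nb B S).card =
      ∑ e ∈ B, if S ⊆ e then 1 else 0 := by
    intro S hS
    have hSc := (mem_powersetCard.mp hS).2
    rw [← card_filter]
    apply card_bij (fun x _ => insert x S)
    · intro x hx
      rw [nb_iff hB hSc] at hx
      exact mem_filter.mpr ⟨hx.2, subset_insert _ _⟩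
    · intro x hx y hy h
      rw [nb_iff hB hSc] at hx hy
      have : x ∈ insert y S := by rw [← h]; exact mem_insert_self _ _
      rw [mem_insert] at this
      exact this.resolve_right hx.1
    · intro e he
      rw [mem_filter] at he
      have h2 : (e \ S).card = 1 := by
        rw [card_sdiff_of_subset he.2, hB e he.1, hSc]; omega
      obtain ⟨x, hx⟩ := card_eq_one.mp h2
      have hx' : x ∈ e \ S := by rw [hx]; exact mem_singleton_self x
      rw [mem_sdiff] at hx'
      have h3 : insert x S = e := by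
        apply eq_of_subset_of_card_le (insert_subset hx'.1 he.2)
        rw [hB e he.1, card_insert_of_notMem hx'.2, hSc]
      refine ⟨x, ?_, h3⟩
      rw [nb_iff hB hSc, h3]
      exact ⟨hx'.2, he.1⟩
  rw [sum_congr rfl h1, sum_comm]
  have h2 : ∀ e ∈ B, (∑ S ∈ powersetCard (k + 1) (univ : Finset V),
      if S ⊆ e then 1 else 0) = k + 2 := by
    intro e he
    rw [← card_filter]
    have h3 : (powersetCard (k + 1) (univ : Finset V)).filter (fun S => S ⊆ e) =
        powersetCard (k + 1) e := by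
      ext S
      simp only [mem_filter, mem_powersetCard, subset_univ, true_and]
      tauto
    rw [h3, card_powersetCard, hB e he]
    exact Nat.choose_succ_self_right (k + 1)
  rw [sum_congr rfl h2, sum_const, smul_eq_mul, mul_comm]

/-- The potential is at most the number of edges over `γ`. -/
theorem Ph_le {B : Finset (Finset V)} {a k : ℕ} (hB : ∀ e ∈ B, e.card = k + 2)
    {γ : ℝ} (hγ : 0 ≤ γ)
    (h : ∀ m : ℕ, 1 ≤ m → γ * m ≤ ((m + (k + 1 + a)).choose (k + 2) : ℝ)) :
    γ * (((k + 1).factorial : ℝ) * Ph a k B) ≤ B.card := by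
  have h1 : ∑ S ∈ powersetCard (k + 1) (univ : Finset V),
      γ * (((k + 2).factorial : ℝ) * GG a k (nb B S).card) ≤
      ∑ S ∈ powersetCard (k + 1) (univ : Finset V), ((nb B S).card : ℝ) :=
    sum_le_sum fun S _ => GG_linear hγ h _
  rw [← mul_sum, ← mul_sum] at h1
  have h2 : ∑ S ∈ powersetCard (k + 1) (univ : Finset V), ((nb B S).card : ℝ) =
      ((k : ℝ) + 2) * B.card := by
    have := sum_nb hB
    exact_mod_cast this
  rw [h2, Nat.factorial_succ] at h1
  have h3 : γ * ((((k + 1 + 1) * (k + 1).factorial : ℕ) : ℝ) *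
      ∑ S ∈ powersetCard (k + 1) (univ : Finset V), GG a k (nb B S).card) =
      ((k : ℝ) + 2) * (γ * (((k + 1).factorial : ℝ) * Ph a k B)) := by
    unfold Ph
    push_cast
    ring
  rw [h3] at h1
  have hk : (0 : ℝ) < (k : ℝ) + 2 := by positivity
  exact le_of_mul_le_mul_left h1 hk

/-- The lower bound: if no set of fewer than `c` vertices meets all complete `s`-sets then the
number of edges is at least `γ c`. -/
theorem edges_ge {B : Finset (Finset V)} {a k c : ℕ} (hB : ∀ e ∈ B, e.card = k + 2)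
    {γ : ℝ} (hγ : 0 ≤ γ)
    (h : ∀ m : ℕ, 1 ≤ m → γ * m ≤ ((m + (k + 1 + a)).choose (k + 2) : ℝ))
    (hc : ∀ D : Finset V, D.card < c → ∃ A : Finset V, A.card = k + 2 + a ∧
      isK (k + 2) B A ∧ Disjoint A D) : γ * c ≤ B.card := by
  obtain ⟨D, hD1, hD2⟩ := exists_hit a k _ B rfl hB
  have h1 : c ≤ D.card := by
    by_contra hlt
    push Not at hlt
    obtain ⟨A, h1, h2, h3⟩ := hc D hlt
    exact hD2 A h1 h2 h3
  have h2 : (c : ℝ) ≤ D.card := by exact_mod_cast h1
  have h3 := Ph_le hB hγ h
  have h4 : γ * c ≤ γ * (((k + 1).factorial : ℝ) * Ph a k B) :=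
    mul_le_mul_of_nonneg_left (h2.trans hD1) hγ
  exact h4.trans h3

end Pool.Agent.Lib.MP_455133_co.LR
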