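import Mathlib

/-!
An interpolation inequality for `1/(z+1)` as a function of `f z`.
-/

namespace Pool.Agent.Lib.MP_455133_co.LR

/-- monotone from the derivative -/
theorem mvt_le {F F' : ℝ → ℝ} {u v : ℝ} (huv : u ≤ v)
    (hF : ∀ x, u ≤ x → x ≤ v → HasDerivAt F (F' x) x)
    (hF' : ∀ x, u < x → x < v → 0 ≤ F' x) : F u ≤ F v := by
  rcases eq_or_lt_of_le huv with h | h
  · rw [h]
  · obtain ⟨x, hx, hx2⟩ := exists_hasDerivAt_eq_slope F F' h
      (fun t ht => (hF t ht.1 ht.2).continuousAt.continuousWithinAt)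
      (fun t ht => hF t ht.1.le ht.2.le)
    have h1 := hF' x hx.1 hx.2
    rw [hx2] at h1
    have h2 : 0 < v - u := by linarith
    have h3 : 0 ≤ F v - F u := by
      by_contra hneg
      push Not at hneg
      have := div_neg_of_neg_of_pos hneg h2
      linarith
    linarith

theorem mvt_ge {F F' : ℝ → ℝ} {u v : ℝ} (huv : u ≤ v)
    (hF : ∀ x, u ≤ x → x ≤ v → HasDerivAt F (F' x) x)
    (hF' : ∀ x, u < x → x < v → F' x ≤ 0) : F v ≤ F u := by
  have h := mvt_le (F := fun x => - F x) (F' := fun x => - F' x) huv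
    (fun x h1 h2 => (hF x h1 h2).neg) (fun x h1 h2 => by
      have := hF' x h1 h2
      linarith)
  linarith

/-- a convex function lies above its tangents -/
theorem tangent_on {f f' : ℝ → ℝ} {c : ℝ} (hf : ∀ x, c ≤ x → HasDerivAt f (f' x) x)
    (hm : ∀ x y, c ≤ x → x ≤ y → f' x ≤ f' y) {x y : ℝ} (hx : c ≤ x) (hy : c ≤ y) :
    f x + f' x * (y - x) ≤ f y := by
  rcases le_total x y with h | h
  · have h1 := mvt_le (F := fun t => f t - f' x * t) (F' := fun t => f' t - f' x) h
      (fun t h1 h2 => by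
        have h3 := (hf t (hx.trans h1)).sub ((hasDerivAt_id t).const_mul (f' x))
        simp only [id, mul_one] at h3
        exact h3)
      (fun t h1 h2 => by
        have := hm x t hx h1.le
        linarith)
    linarith
  · have h1 := mvt_ge (F := fun t => f t - f' x * t) (F' := fun t => f' t - f' x) h
      (fun t h1 h2 => by
        have h3 := (hf t (hy.trans h1)).sub ((hasDerivAt_id t).const_mul (f' x))
        simp only [id, mul_one] at h3
        exact h3)
      (fun t h1 h2 => by
        have := hm t x (hy.trans h1.le) h2.le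
        linarith)
    linarith

theorem herm_core {D V U f1 : ℝ → ℝ} {c p y : ℝ} (hcp : c ≤ p) (hpy : p < y)
    (hD : ∀ x, c ≤ x → HasDerivAt D (-(f1 x * V x)) x)
    (hV : ∀ x, c ≤ x → HasDerivAt V (f1 x * U x) x)
    (hf : ∀ x, c ≤ x → 0 < f1 x)
    (hU : ∀ x x', c ≤ x → x ≤ x' → U x ≤ U x')
    (hDp : D p = 0) (hDy : D y = 0) (hVp : V p = 0) {z : ℝ} (hz : c ≤ z) (hzy : z ≤ y) :
    0 ≤ D z := by
  obtain ⟨ζ, hζ, hζ2⟩ := exists_hasDerivAt_eq_slope D (fun x => -(f1 x * V x)) hpy
    (fun t ht => (hD t (hcp.trans ht.1)).continuousAt.continuousWithinAt)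
    (fun t ht => hD t (hcp.trans ht.1.le))
  have hVζ : V ζ = 0 := by
    rw [hDp, hDy, sub_zero, zero_div, neg_eq_zero] at hζ2
    exact (mul_eq_zero.mp hζ2).resolve_left (hf ζ (hcp.trans hζ.1.le)).ne'
  obtain ⟨τ, hτ, hτ2⟩ := exists_hasDerivAt_eq_slope V (fun x => f1 x * U x) hζ.1
    (fun t ht => (hV t (hcp.trans ht.1)).continuousAt.continuousWithinAt)
    (fun t ht => hV t (hcp.trans ht.1.le))
  have hcτ : c ≤ τ := hcp.trans hτ.1.le
  have hUτ : U τ = 0 := by
    rw [hVp, hVζ, sub_zero, zero_div] at hτ2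
    exact (mul_eq_zero.mp hτ2).resolve_left (hf τ hcτ).ne'
  have hV1 : ∀ x x', c ≤ x → x ≤ x' → x' ≤ τ → V x' ≤ V x := by
    intro x x' h1 h2 h3
    refine mvt_ge (F' := fun x => f1 x * U x) h2 (fun t h4 _ => hV t (h1.trans h4)) ?_
    intro t h4 h5
    have h6 := hU t τ (h1.trans h4.le) (h5.le.trans h3)
    rw [hUτ] at h6
    exact mul_nonpos_of_nonneg_of_nonpos (hf t (h1.trans h4.le)).le h6
  have hV2 : ∀ x x', τ ≤ x → x ≤ x' → V x ≤ V x' := by
    intro x x' h1 h2
    refine mvt_le (F' := fun x => f1 x * U x) h2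
      (fun t h4 _ => hV t (hcτ.trans (h1.trans h4))) ?_
    intro t h4 h5
    have h6 := hU τ t hcτ (h1.trans h4.le)
    rw [hUτ] at h6
    exact mul_nonneg (hf t (hcτ.trans (h1.trans h4.le))).le h6
  rcases le_total z p with h | h
  · have h1 := mvt_ge (F := D) (F' := fun x => -(f1 x * V x)) h
      (fun t h4 _ => hD t (hz.trans h4)) (fun t h4 h5 => by
        have h6 := hV1 t p (hz.trans h4.le) h5.le hτ.1.le
        rw [hVp] at h6
        have h7 := mul_nonneg (hf t (hz.trans h4.le)).le h6
        linarith)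
    linarith
  rcases le_total z ζ with h' | h'
  · have h1 := mvt_le (F := D) (F' := fun x => -(f1 x * V x)) h
      (fun t h4 _ => hD t (hcp.trans h4)) (fun t h4 h5 => by
        have hct : c ≤ t := hcp.trans h4.le
        have h6 : V t ≤ 0 := by
          rcases le_total t τ with h7 | h7
          · have := hV1 p t hcp h4.le h7
            rwa [hVp] at this
          · have := hV2 t ζ h7 (h5.le.trans h')
            rwa [hVζ] at this
        have h7 := mul_nonpos_of_nonneg_of_nonpos (hf t hct).le h6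
        linarith)
    linarith
  · have hcz : c ≤ ζ := hcp.trans hζ.1.le
    have h1 := mvt_ge (F := D) (F' := fun x => -(f1 x * V x)) hzy
      (fun t h4 _ => hD t (hcz.trans (h'.trans h4))) (fun t h4 h5 => by
        have hct : c ≤ t := hcz.trans (h'.trans h4.le)
        have h6 := hV2 ζ t hτ.2.le (h'.trans h4.le)
        rw [hVζ] at h6
        have h7 := mul_nonneg (hf t hct).le h6
        linarith)
    linarith

/-- The interpolation inequality. -/
theorem herm {f f1 f2 f3 : ℝ → ℝ} {c y : ℝ} (hc : -1 < c) (hcy : c ≤ y - 1)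
    (h0 : ∀ x, HasDerivAt f (f1 x) x) (h1 : ∀ x, HasDerivAt f1 (f2 x) x)
    (h2 : ∀ x, HasDerivAt f2 (f3 x) x)
    (p1 : ∀ x, c ≤ x → 0 < f1 x) (p2 : ∀ x, c ≤ x → 0 ≤ f2 x)
    (p3 : ∀ x, c ≤ x → f1 x * f3 x ≤ f2 x ^ 2) {K c' : ℝ} (hK : K = f y - f (y - 1))
    (hc' : c' = (y + 1) / y * (K / f1 (y - 1)) - 1) {z : ℝ} (hz : c ≤ z) (hzy : z ≤ y) :
    (f y - f z) / (y * (y + 1) * K) * (1 - c' + c' * ((f y - f z) / K)) ≤
      1 / (z + 1) - 1 / (y + 1) := by
  have hy : 0 < y := by linarith
  have hmono : ∀ x x', c ≤ x → x ≤ x' → f1 x ≤ f1 x' := fun x x' hx hxx' =>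
    mvt_le (F' := f2) hxx' (fun t _ _ => h1 t) (fun t h3 _ => p2 t (hx.trans h3.le))
  have hKpos : 0 < K := by
    obtain ⟨x, hx, hx2⟩ := exists_hasDerivAt_eq_slope f f1 (show y - 1 < y by linarith)
      (fun t _ => (h0 t).continuousAt.continuousWithinAt) (fun t _ => h0 t)
    have h3 := p1 x (hcy.trans hx.1.le)
    rw [hx2, show y - (y - 1) = 1 by ring, div_one, ← hK] at h3
    exact h3
  have hf1 := p1 (y - 1) hcy
  have hK1 : f1 (y - 1) ≤ K := by
    have h3 := tangent_on (f := f) (f' := f1) (c := c) (fun x _ => h0 x) hmono hcy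
      (y := y) (by linarith)
    rw [hK]
    linarith
  have hc'0 : 0 ≤ c' := by
    rw [hc', sub_nonneg]
    have h3 : 1 ≤ (y + 1) / y := by rw [le_div_iff₀ hy]; linarith
    have h4 : 1 ≤ K / f1 (y - 1) := by rw [le_div_iff₀ hf1]; linarith
    nlinarith
  set G : ℝ := 1 / (y * (y + 1) * K) with hG
  have hGpos : 0 < G := by rw [hG]; positivity
  set D : ℝ → ℝ := fun x => 1 / (x + 1) - 1 / (y + 1) -
    G * ((f y - f x) * (1 - c' + c' * ((f y - f x) / K))) with hD
  set V : ℝ → ℝ := fun x => 1 / ((x + 1) ^ 2 * f1 x) -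
    G * (1 - c' + 2 * c' * ((f y - f x) / K)) with hV
  set q : ℝ → ℝ := fun x => 2 / ((x + 1) ^ 3 * f1 x ^ 2) + f2 x / f1 x * (1 / ((x + 1) ^ 2 *
    f1 x ^ 2)) with hq
  set U : ℝ → ℝ := fun x => 2 * G * c' / K - q x with hU
  have key : 0 ≤ D z := by
    refine herm_core (D := D) (V := V) (U := U) (f1 := f1) (p := y - 1) hcy (by linarith)
      ?_ ?_ p1 ?_ ?_ ?_ ?_ hz hzy
    · intro x hx
      have hx1 : x + 1 ≠ 0 := by intro h; linarith
      have hfx := (p1 x hx).ne'
      have e1 : HasDerivAt (fun x : ℝ => 1 / (x + 1)) (-1 / (x + 1) ^ 2) x := by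
        have := (((hasDerivAt_id x).add_const (1 : ℝ)).inv hx1)
        simp only [id] at this
        refine (this.congr_of_eventuallyEq ?_)
        filter_upwards with t
        simp only [Pi.inv_apply, one_div]
      have e2 : HasDerivAt (fun x => f y - f x) (-(f1 x)) x := (h0 x).const_sub (f y)
      have e3 : HasDerivAt (fun x => 1 - c' + c' * ((f y - f x) / K)) (c' * (-(f1 x) / K)) x :=
        ((e2.div_const K).const_mul c').const_add (1 - c')
      have e4 := (e2.mul e3).const_mul G
      have e5 := (e1.sub_const (1 / (y + 1))).sub e4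
      refine e5.congr_deriv ?_
      simp only [hV]
      field_simp
      ring
    · intro x hx
      have hx1 : x + 1 ≠ 0 := by intro h; linarith
      have hfx := (p1 x hx).ne'
      have e0 : HasDerivAt (fun x : ℝ => (x + 1) ^ 2) (2 * (x + 1)) x := by
        have h3 := ((hasDerivAt_id x).add_const (1 : ℝ)).pow 2
        simp only [id] at h3
        refine (h3.congr_deriv ?_)
        norm_num
      have e1 := (e0.mul (h1 x))
      have hne : ((fun x : ℝ => (x + 1) ^ 2) * f1 : ℝ → ℝ) x ≠ 0 := by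
        simp only [Pi.mul_apply]
        exact mul_ne_zero (pow_ne_zero _ hx1) hfx
      have e1' := e1.inv hne
      have e2 : HasDerivAt (fun x => f y - f x) (-(f1 x)) x := (h0 x).const_sub (f y)
      have e3 : HasDerivAt (fun x => 1 - c' + 2 * c' * ((f y - f x) / K))
          (2 * c' * (-(f1 x) / K)) x :=
        ((e2.div_const K).const_mul (2 * c')).const_add (1 - c')
      have e5 := e1'.sub (e3.const_mul G)
      have e6 : HasDerivAt V (-(2 * (x + 1) * f1 x + (x + 1) ^ 2 * f2 x) /
          ((x + 1) ^ 2 * f1 x) ^ 2 - G * (2 * c' * (-(f1 x) / K))) x := by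
        refine (e5.congr_of_eventuallyEq ?_)
        filter_upwards with t
        simp only [hV, Pi.inv_apply, Pi.mul_apply, Pi.sub_apply, one_div]
      refine e6.congr_deriv ?_
      simp only [hU, hq]
      field_simp
      ring
    · intro x x' hx hxx'
      have hx1 : 0 < x + 1 := by linarith
      have hx1' : 0 < x' + 1 := by linarith
      have hx' : c ≤ x' := hx.trans hxx'
      have hfx := p1 x hx
      have hfx' := p1 x' hx'
      have hm := hmono x x' hx hxx'
      have hr : f2 x' / f1 x' ≤ f2 x / f1 x := by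
        refine mvt_ge (F := fun t => f2 t / f1 t)
          (F' := fun t => (f3 t * f1 t - f2 t * f2 t) / f1 t ^ 2) hxx' ?_ ?_
        · intro t h3 _
          exact (h2 t).div (h1 t) (p1 t (hx.trans h3)).ne'
        · intro t h3 _
          have h4 := p3 t (hx.trans h3.le)
          apply div_nonpos_of_nonpos_of_nonneg
          · nlinarith
          · positivity
      have hr0 : 0 ≤ f2 x' / f1 x' := div_nonneg (p2 x' hx') hfx'.le
      have hq1 : 2 / ((x' + 1) ^ 3 * f1 x' ^ 2) ≤ 2 / ((x + 1) ^ 3 * f1 x ^ 2) := by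
        apply div_le_div_of_nonneg_left (by norm_num) (by positivity)
        apply mul_le_mul
        · apply pow_le_pow_left₀ hx1.le; linarith
        · apply pow_le_pow_left₀ hfx.le hm
        · positivity
        · positivity
      have hq2 : 1 / ((x' + 1) ^ 2 * f1 x' ^ 2) ≤ 1 / ((x + 1) ^ 2 * f1 x ^ 2) := by
        apply div_le_div_of_nonneg_left (by norm_num) (by positivity)
        apply mul_le_mul
        · apply pow_le_pow_left₀ hx1.le; linarith
        · apply pow_le_pow_left₀ hfx.le hm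
        · positivity
        · positivity
      have hq3 : f2 x' / f1 x' * (1 / ((x' + 1) ^ 2 * f1 x' ^ 2)) ≤
          f2 x / f1 x * (1 / ((x + 1) ^ 2 * f1 x ^ 2)) :=
        mul_le_mul hr hq2 (by positivity) (hr0.trans hr)
      simp only [hU, hq]
      linarith
    · simp only [hD]
      rw [← hK, div_self hKpos.ne', show y - 1 + 1 = y by ring, hG]
      field_simp
      ring
    · simp only [hD]; simp
    · simp only [hV]
      rw [← hK, div_self hKpos.ne', show y - 1 + 1 = y by ring, hG, hc']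
      field_simp
      ring
  simp only [hD] at key
  have h3 : (f y - f z) / (y * (y + 1) * K) * (1 - c' + c' * ((f y - f z) / K)) =
      G * ((f y - f z) * (1 - c' + c' * ((f y - f z) / K))) := by
    rw [hG]; ring
  rw [h3]
  linarith

end Pool.Agent.Lib.MP_455133_co.LR
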