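import Mathlib
import Pool.Agent.Lib.MP_455133_co.LR.Fall
import Pool.Agent.Lib.MP_455133_co.LR.Herm

/-!
The numerical part of the induction step.
-/

namespace Pool.Agent.Lib.MP_455133_co.LR

open Finset

noncomputable def FF (q : ℕ) (ρ x : ℝ) : ℝ := P0 q x * (x - ρ)
noncomputable def FF1 (q : ℕ) (ρ x : ℝ) : ℝ := P1 q x * (x - ρ) + P0 q x
noncomputable def FF2 (q : ℕ) (ρ x : ℝ) : ℝ := P2 q x * (x - ρ) + 2 * P1 q x
noncomputable def FF3 (q : ℕ) (ρ x : ℝ) : ℝ := P3 q x * (x - ρ) + 3 * P2 q x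

theorem hasDerivAt_FF (q : ℕ) (ρ x : ℝ) : HasDerivAt (FF q ρ) (FF1 q ρ x) x := by
  have h := (hasDerivAt_P0 q x).mul ((hasDerivAt_id x).sub_const ρ)
  refine h.congr_deriv ?_
  simp only [FF1, id]
  ring

theorem hasDerivAt_FF1 (q : ℕ) (ρ x : ℝ) : HasDerivAt (FF1 q ρ) (FF2 q ρ x) x := by
  have h := ((hasDerivAt_P1 q x).mul ((hasDerivAt_id x).sub_const ρ)).add (hasDerivAt_P0 q x)
  refine h.congr_deriv ?_
  simp only [FF2, id]
  ring

theorem hasDerivAt_FF2 (q : ℕ) (ρ x : ℝ) : HasDerivAt (FF2 q ρ) (FF3 q ρ x) x := by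
  have h := ((hasDerivAt_P2 q x).mul ((hasDerivAt_id x).sub_const ρ)).add
    ((hasDerivAt_P1 q x).const_mul 2)
  refine h.congr_deriv ?_
  simp only [FF3, id]
  ring

theorem P1_ge2 {i : ℕ} {x : ℝ} (h : (i : ℝ) < x + 1) :
    i * P0 i x ≤ P1 i x * (x - ((i : ℝ) - 1) / 2) := by
  induction i with
  | zero => simp [P1]
  | succ i ih =>
    push_cast at h
    have hi : (0 : ℝ) ≤ i := Nat.cast_nonneg _
    have h1 := ih (by linarith)
    have h0 : 0 < P0 i x := P0_pos (by linarith)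
    have hu : 0 < x - i := by linarith
    have hv : 0 < x - ((i : ℝ) - 1) / 2 := by linarith
    simp only [P0, P1]
    push_cast
    set v := x - ((i : ℝ) - 1) / 2 with hvdef
    have e1 : x - ((i : ℝ) + 1 - 1) / 2 = v - 1 / 2 := by rw [hvdef]; ring
    rw [e1]
    have h2 : v * (((i : ℝ) + 1) * (P0 i x * (x - i))) ≤
        v * ((P1 i x * (x - i) + P0 i x) * (v - 1 / 2)) := by
      have h3 := mul_le_mul_of_nonneg_right h1 (mul_nonneg hu.le (show (0 : ℝ) ≤ v - 1 / 2 by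
        rw [hvdef]; linarith))
      have h4 : v * ((P1 i x * (x - i) + P0 i x) * (v - 1 / 2)) =
          P1 i x * v * ((x - i) * (v - 1 / 2)) + v * P0 i x * (v - 1 / 2) := by ring
      rw [h4]
      have h5 : 0 ≤ P0 i x * ((i : ℝ) / 2 * (((i : ℝ) + 1) / 2)) := by positivity
      have h6 : i * P0 i x * ((x - i) * (v - 1 / 2)) + v * P0 i x * (v - 1 / 2) -
          v * (((i : ℝ) + 1) * (P0 i x * (x - i))) =
          P0 i x * ((i : ℝ) / 2 * (((i : ℝ) + 1) / 2)) := by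
        rw [hvdef]; ring
      linarith
    exact le_of_mul_le_mul_left h2 hv

theorem FF1_pos {q : ℕ} {ρ x : ℝ} (hq : (q : ℝ) < ρ + 1) (hx : ρ ≤ x) : 0 < FF1 q ρ x := by
  have h0 : 0 < P0 q x := P0_pos (by linarith)
  obtain ⟨-, h1, -, -⟩ := P_nonneg (i := q) (x := x) (by linarith)
  have : 0 ≤ x - ρ := by linarith
  unfold FF1
  positivity

theorem FF2_nonneg {q : ℕ} {ρ x : ℝ} (hq : (q : ℝ) < ρ + 1) (hx : ρ ≤ x) : 0 ≤ FF2 q ρ x := by
  obtain ⟨-, h1, h2, -⟩ := P_nonneg (i := q) (x := x) (by linarith)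
  have : 0 ≤ x - ρ := by linarith
  unfold FF2
  positivity

theorem FF_ineq {q : ℕ} {ρ x : ℝ} (hq : (q : ℝ) < ρ + 1) (hx : ρ ≤ x) :
    FF1 q ρ x * FF3 q ρ x ≤ FF2 q ρ x ^ 2 := by
  obtain ⟨h0, h1, h2, h3⟩ := P_nonneg (i := q) (x := x) (by linarith)
  obtain ⟨i1, i2, i3⟩ := P_ineq (i := q) (x := x) (by linarith)
  have hu : 0 ≤ x - ρ := by linarith
  unfold FF1 FF2 FF3
  set u := x - ρ
  set f := P0 q x
  set g := P1 q x
  set k := P2 q x
  set l := P3 q x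
  have hu2 : 0 ≤ u ^ 2 := by positivity
  nlinarith [mul_le_mul_of_nonneg_right i3 hu2, mul_le_mul_of_nonneg_right i2 hu,
        mul_nonneg h1 h1]

theorem FF1_mono {q : ℕ} {ρ x x' : ℝ} (hq : (q : ℝ) < ρ + 1) (hx : ρ ≤ x) (hxx' : x ≤ x') :
    FF1 q ρ x ≤ FF1 q ρ x' :=
  mvt_le (F' := FF2 q ρ) hxx' (fun t _ _ => hasDerivAt_FF1 q ρ t)
    (fun _ h _ => FF2_nonneg hq (hx.trans h.le))

theorem FF_tangent {q : ℕ} {ρ x x' : ℝ} (hq : (q : ℝ) < ρ + 1) (hx : ρ ≤ x) (hx' : ρ ≤ x') :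
    FF q ρ x + FF1 q ρ x * (x' - x) ≤ FF q ρ x' :=
  tangent_on (f := FF q ρ) (f' := FF1 q ρ) (c := ρ) (fun t _ => hasDerivAt_FF q ρ t)
    (fun _ _ h1 h2 => FF1_mono hq h1 h2) hx hx'

theorem FF_diff {p : ℕ} {a θ ρ y : ℝ} (hθ : ((p : ℝ) + 2) * θ = a - (p + 2))
    (hρ : ρ = p + (p + 1) * θ) :
    FF (p + 1) (a - 1) y - FF (p + 1) (a - 1) (y - 1) = ((p : ℝ) + 2) * FF p ρ (y - 1) := by
  have h1 := P0_shift p y
  have h2 : P0 (p + 1) (y - 1) = P0 p (y - 1) * (y - 1 - p) := rfl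
  have ha : a = ((p : ℝ) + 2) * θ + (p + 2) := by linarith
  unfold FF
  rw [h1, h2, hρ, ha]
  ring

section step

variable {p : ℕ} {a θ ρ y K c' : ℝ}

theorem theta_nonneg (ha : (p : ℝ) + 3 ≤ a) (hθ : ((p : ℝ) + 2) * θ = a - (p + 2)) : 0 < θ := by
  have hp : (0 : ℝ) ≤ p := Nat.cast_nonneg _
  by_contra h
  push Not at h
  nlinarith

theorem rho_lt (ha : (p : ℝ) + 3 ≤ a) (hθ : ((p : ℝ) + 2) * θ = a - (p + 2))
    (hρ : ρ = p + (p + 1) * θ) (hy : a ≤ y) : (p : ℝ) < ρ + 1 ∧ (p : ℝ) ≤ ρ ∧ ρ < y - 1 := by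
  have hp : (0 : ℝ) ≤ p := Nat.cast_nonneg _
  have hθ0 := theta_nonneg ha hθ
  refine ⟨?_, ?_, ?_⟩
  · rw [hρ]; nlinarith
  · rw [hρ]; nlinarith
  · rw [hρ]
    have : a = ((p : ℝ) + 2) * θ + (p + 2) := by linarith
    nlinarith

theorem K_pos (ha : (p : ℝ) + 3 ≤ a) (hθ : ((p : ℝ) + 2) * θ = a - (p + 2))
    (hρ : ρ = p + (p + 1) * θ) (hy : a ≤ y)
    (hK : K = FF (p + 1) (a - 1) y - FF (p + 1) (a - 1) (y - 1)) :
    0 < FF p ρ (y - 1) ∧ K = ((p : ℝ) + 2) * FF p ρ (y - 1) ∧ 0 < K := by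
  have hp : (0 : ℝ) ≤ p := Nat.cast_nonneg _
  obtain ⟨h1, h2, h3⟩ := rho_lt ha hθ hρ hy
  have h4 : 0 < FF p ρ (y - 1) := by
    unfold FF
    exact mul_pos (P0_pos (by linarith)) (by linarith)
  have h5 : K = ((p : ℝ) + 2) * FF p ρ (y - 1) := by rw [hK, FF_diff hθ hρ]
  refine ⟨h4, h5, ?_⟩
  rw [h5]; positivity

theorem c_nonneg (ha : (p : ℝ) + 3 ≤ a) (hy : a ≤ y)
    (hK : K = FF (p + 1) (a - 1) y - FF (p + 1) (a - 1) (y - 1))
    (hc' : c' = (y + 1) / y * (K / FF1 (p + 1) (a - 1) (y - 1)) - 1) : 0 ≤ c' := by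
  have hp : (0 : ℝ) ≤ p := Nat.cast_nonneg _
  have hq : ((p + 1 : ℕ) : ℝ) < a - 1 + 1 := by push_cast; linarith
  have hf1 := FF1_pos hq (x := y - 1) (by linarith)
  have h1 := FF_tangent hq (x := y - 1) (x' := y) (by linarith) (by linarith)
  have hyp : 0 < y := by linarith
  rw [hc', sub_nonneg]
  have h3 : 1 ≤ (y + 1) / y := by rw [le_div_iff₀ hyp]; linarith
  have h4 : 1 ≤ K / FF1 (p + 1) (a - 1) (y - 1) := by
    rw [le_div_iff₀ hf1, hK]
    linarith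
  nlinarith

theorem c_le (ha : (p : ℝ) + 3 ≤ a) (ha2 : (p : ℝ) + 2 ≤ 2 * (a - (p + 2)))
    (hθ : ((p : ℝ) + 2) * θ = a - (p + 2))
    (hρ : ρ = p + (p + 1) * θ) (hy : a ≤ y)
    (hK : K = FF (p + 1) (a - 1) y - FF (p + 1) (a - 1) (y - 1))
    (hc' : c' = (y + 1) / y * (K / FF1 (p + 1) (a - 1) (y - 1)) - 1) :
    c' * (y - a + 1) ≤ ((p : ℝ) + 3) / 2 := by
  have hp : (0 : ℝ) ≤ p := Nat.cast_nonneg _
  obtain ⟨-, hK2, hK3⟩ := K_pos ha hθ hρ hy hK
  have hyp : 0 < y := by linarith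
  set j : ℝ := (p : ℝ) + 2 with hj
  set Y : ℝ := y - a + 1 with hY
  set w : ℝ := y - 1 - p with hw
  set T : ℝ := w + (j - 1) * Y with hT
  have hP0 : 0 < P0 p (y - 1) := P0_pos (by linarith)
  have hKT : K = P0 p (y - 1) * T := by
    rw [hK2]
    unfold FF
    have : a = ((p : ℝ) + 2) * θ + (p + 2) := by linarith
    rw [hT, hY, hw, hj, hρ, this]
    ring
  have hYpos : 1 ≤ Y := by rw [hY]; linarith
  set D : ℝ := a - j with hD
  have hwY : w = Y + D := by rw [hY, hw, hD, hj]; ring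
  have hD1 : 1 ≤ D := by rw [hD, hj]; linarith
  have hwpos : 0 < w := by linarith
  have hj2 : 2 ≤ j := by rw [hj]; linarith
  have hyw : y = w + (j - 1) := by rw [hw, hj]; ring
  have hTj : j / 2 + 1 < T := by rw [hT, hwY]; nlinarith
  -- lower bound for FF1
  have h1 : P0 (p + 1) (y - 1) = P0 p (y - 1) * w := rfl
  have h2 := P1_ge2 (i := p + 1) (x := y - 1) (by push_cast; linarith)
  have hv : 0 < y - j / 2 := by rw [hyw]; linarith
  have h3 : P0 p (y - 1) * w * (T - j / 2) ≤ FF1 (p + 1) (a - 1) (y - 1) * (y - j / 2) := by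
    unfold FF1
    rw [h1] at h2 ⊢
    push_cast at h2
    have e0 : y - 1 - (((p : ℝ) + 1) - 1) / 2 = y - j / 2 := by rw [hj]; ring
    rw [e0] at h2
    have h4 := mul_le_mul_of_nonneg_right h2 (show (0 : ℝ) ≤ y - a by linarith)
    have h5 : T - j / 2 = (p + 1) * (y - a) + (y - j / 2) := by rw [hT, hw, hY, hj]; ring
    rw [h5]
    nlinarith
  have hq : ((p + 1 : ℕ) : ℝ) < a - 1 + 1 := by push_cast; linarith
  have hf1 := FF1_pos hq (x := y - 1) (by linarith)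
  have hTpos : 0 < T := by linarith
  have hTj0 : 0 < T - j / 2 := by linarith
  have h4 : K / FF1 (p + 1) (a - 1) (y - 1) ≤ T * (y - j / 2) / (w * (T - j / 2)) := by
    rw [div_le_div_iff₀ hf1 (mul_pos hwpos hTj0), hKT]
    nlinarith [mul_le_mul_of_nonneg_left h3 hTpos.le]
  have h5 : c' + 1 ≤ (y + 1) / y * (T * (y - j / 2) / (w * (T - j / 2))) := by
    rw [hc']
    have : 0 ≤ (y + 1) / y := by positivity
    nlinarith [mul_le_mul_of_nonneg_left h4 this]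
  have hden : 0 < y * (w * (T - j / 2)) := mul_pos hyp (mul_pos hwpos hTj0)
  have h6 : (c' + 1) * (y * (w * (T - j / 2))) ≤ (y + 1) * (T * (y - j / 2)) := by
    rw [div_mul_div_comm, le_div_iff₀ hden] at h5
    exact h5
  have h7 : c' * (y * (w * (T - j / 2))) ≤ y * (j / 2 * (T + w)) := by
    have h9 : (y + 1) * (T * (y - j / 2)) = y * (w * (T - j / 2)) + y * (j / 2 * (T + w)) -
        j / 2 * T := by
      rw [hyw]; ring
    have h10 : 0 ≤ j / 2 * T := by positivity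
    nlinarith
  have h8 : c' * (w * (T - j / 2)) ≤ j / 2 * (T + w) := by
    have : y * (c' * (w * (T - j / 2))) ≤ y * (j / 2 * (T + w)) := by nlinarith
    exact le_of_mul_le_mul_left this hyp
  have h9 : j / 2 * (T + w) * Y ≤ (j + 1) / 2 * (w * (T - j / 2)) := by
    have e1 : (j + 1) / 2 * (w * (T - j / 2)) - j / 2 * (T + w) * Y =
        1 / 2 * ((j ^ 2 + 1) * D * Y + (j + 1) * D ^ 2 - j * (j + 1) / 2 * (Y + D)) := by
      rw [hT, hwY]; ring
    have e2 : 0 ≤ ((j ^ 2 + 1) * D - j * (j + 1) / 2) * Y := by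
      apply mul_nonneg _ (by linarith)
      nlinarith
    have e3 : 0 ≤ ((j + 1) * D - j * (j + 1) / 2) * D := by
      apply mul_nonneg _ (by linarith)
      have : j ≤ 2 * D := by rw [hD, hj]; linarith
      nlinarith
    nlinarith
  have h10 : (w * (T - j / 2)) * (c' * Y) ≤ (w * (T - j / 2)) * ((j + 1) / 2) := by
    have := mul_le_mul_of_nonneg_right h8 (show (0 : ℝ) ≤ Y by linarith)
    nlinarith
  have h11 := le_of_mul_le_mul_left h10 (mul_pos hwpos hTj0)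
  have h12 : (j + 1) / 2 = ((p : ℝ) + 3) / 2 := by rw [hj]; ring
  rw [← h12]
  exact h11

/-- one vertex -/
theorem vertex_num (ha : (p : ℝ) + 3 ≤ a) (hθ : ((p : ℝ) + 2) * θ = a - (p + 2))
    (hρ : ρ = p + (p + 1) * θ) (hy : a ≤ y) {m x : ℝ} (hx : ρ < x) (hm : P0 p x ≤ m) :
    m * (x - ρ) * (1 - m * (x - ρ) / FF p ρ (y - 1)) ≤
      FF1 p ρ (y - 1) / P0 p (y - 1) * (m * (y - 1 - x)) := by
  obtain ⟨h1, h2, h3⟩ := rho_lt ha hθ hρ hy
  have hP : 0 < P0 p x := P0_pos (by linarith)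
  have hPK : 0 < P0 p (y - 1) := P0_pos (by linarith)
  have hm0 : 0 < m := lt_of_lt_of_le hP hm
  have hH : 0 < FF p ρ (y - 1) := by
    unfold FF
    exact mul_pos hPK (by linarith)
  have ht := FF_tangent h1 (x := y - 1) (x' := x) (by linarith) hx.le
  have hH1 := FF1_pos h1 (x := y - 1) (by linarith)
  have hxρ : 0 < x - ρ := by linarith
  have e1 : FF p ρ x ≤ m * (x - ρ) := mul_le_mul_of_nonneg_right hm hxρ.le
  have e2 : 1 - m * (x - ρ) / FF p ρ (y - 1) ≤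
      FF1 p ρ (y - 1) / FF p ρ (y - 1) * (y - 1 - x) := by
    rw [sub_le_iff_le_add, div_mul_eq_mul_div, ← add_div, le_div_iff₀ hH]
    nlinarith
  have e3 : (x - ρ) * (1 - m * (x - ρ) / FF p ρ (y - 1)) ≤
      (y - 1 - ρ) * (FF1 p ρ (y - 1) / FF p ρ (y - 1) * (y - 1 - x)) := by
    have e4 := mul_le_mul_of_nonneg_left e2 hxρ.le
    have e5 : (x - ρ) * (FF1 p ρ (y - 1) / FF p ρ (y - 1) * (y - 1 - x)) ≤
        (y - 1 - ρ) * (FF1 p ρ (y - 1) / FF p ρ (y - 1) * (y - 1 - x)) := by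
      have e6 : 0 ≤ FF1 p ρ (y - 1) / FF p ρ (y - 1) := by positivity
      have e7 : 0 ≤ FF1 p ρ (y - 1) / FF p ρ (y - 1) * (y - 1 - x) ^ 2 := by positivity
      nlinarith
    linarith
  have e4 : (y - 1 - ρ) * (FF1 p ρ (y - 1) / FF p ρ (y - 1) * (y - 1 - x)) =
      FF1 p ρ (y - 1) / P0 p (y - 1) * (y - 1 - x) := by
    have hne : y - 1 - ρ ≠ 0 := by
      intro h; linarith
    unfold FF
    field_simp
  rw [e4] at e3
  have e5 := mul_le_mul_of_nonneg_left e3 hm0.le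
  nlinarith

theorem A_le (ha : (p : ℝ) + 3 ≤ a) (hθ : ((p : ℝ) + 2) * θ = a - (p + 2))
    (hρ : ρ = p + (p + 1) * θ) (hy : a ≤ y) :
    0 ≤ FF1 p ρ (y - 1) / P0 p (y - 1) ∧ FF1 p ρ (y - 1) / P0 p (y - 1) ≤ p + 1 := by
  obtain ⟨h1, h2, h3⟩ := rho_lt ha hθ hρ hy
  have hPK : 0 < P0 p (y - 1) := P0_pos (by linarith)
  have hH1 := FF1_pos h1 (x := y - 1) (by linarith)
  refine ⟨by positivity, ?_⟩
  rw [div_le_iff₀ hPK]
  have h4 := P1_le (i := p) (x := y - 1) (by linarith)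
  obtain ⟨-, h5, -, -⟩ := P_nonneg (i := p) (x := y - 1) (by linarith)
  unfold FF1
  have h6 : P1 p (y - 1) * (y - 1 - ρ) ≤ P1 p (y - 1) * (y - 1 + 1 - p) :=
    mul_le_mul_of_nonneg_left (by linarith) h5
  linarith

/-- The sum over the vertices. -/
theorem step_num {ι : Type*} (U : Finset ι) (d m : ι → ℝ) {e M : ℝ}
    (ha : (p : ℝ) + 3 ≤ a) (hθ : ((p : ℝ) + 2) * θ = a - (p + 2))
    (hρ : ρ = p + (p + 1) * θ) (hθ2 : ((p : ℝ) + 3) / 2 * (p + 1) ≤ θ) (hy : a ≤ y)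
    (hm : ∀ u ∈ U, 0 < m u) (hx : ∀ u ∈ U, θ * m u < d u)
    (hP : ∀ u ∈ U, P0 p (((p : ℝ) + 1) * (d u / m u) + p) ≤ (p.factorial : ℝ) * m u)
    (hd : ∑ u ∈ U, d u = (p + 2) * e) (hM : ∑ u ∈ U, m u = (p + 1) * M)
    (hF : FF (p + 1) (a - 1) y = ((p + 2).factorial : ℝ) * (e - θ * M))
    (hE : P0 (p + 1) y ≤ ((p + 1).factorial : ℝ) * M)
    (hK : K = FF (p + 1) (a - 1) y - FF (p + 1) (a - 1) (y - 1))
    (hc' : c' = (y + 1) / y * (K / FF1 (p + 1) (a - 1) (y - 1)) - 1) :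
    y * K ≤ ∑ u ∈ U, (((p + 2).factorial : ℝ) * (d u - θ * m u)) *
      (1 - c' + c' * ((((p + 2).factorial : ℝ) * (d u - θ * m u)) / K)) := by
  obtain ⟨hH, hK2, hK3⟩ := K_pos ha hθ hρ hy hK
  obtain ⟨h1, h2, h3⟩ := rho_lt ha hθ hρ hy
  have hp : (0 : ℝ) ≤ p := Nat.cast_nonneg _
  have hc0 := c_nonneg ha hy hK hc'
  have ha2 : (p : ℝ) + 2 ≤ 2 * (a - (p + 2)) := by
    rw [← hθ]
    nlinarith
  have hcY := c_le ha ha2 hθ hρ hy hK hc'
  obtain ⟨hA0, hA⟩ := A_le ha hθ hρ hy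
  set A := FF1 p ρ (y - 1) / P0 p (y - 1) with hAdef
  set H := FF p ρ (y - 1) with hHdef
  set Y : ℝ := y - a + 1 with hY
  have hYpos : 0 < Y := by rw [hY]; linarith
  have f1 : ((p + 1).factorial : ℝ) = (p + 1) * (p.factorial : ℝ) := by
    rw [Nat.factorial_succ]; push_cast; ring
  have f2 : ((p + 2).factorial : ℝ) = (p + 2) * ((p + 1) * (p.factorial : ℝ)) := by
    rw [Nat.factorial_succ (p + 1), Nat.factorial_succ]; push_cast; ring
  set E : ℝ := ((p + 1).factorial : ℝ) * M - P0 (p + 1) y with hEdef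
  have hE0 : 0 ≤ E := by rw [hEdef]; linarith
  -- the scaled quantities
  set x : ι → ℝ := fun u => ((p : ℝ) + 1) * (d u / m u) + p with hxdef
  set m' : ι → ℝ := fun u => (p.factorial : ℝ) * m u with hm'
  have hxρ : ∀ u ∈ U, ρ < x u := by
    intro u hu
    have e1 := hm u hu
    have e2 : θ < d u / m u := by rw [lt_div_iff₀ e1]; exact hx u hu
    simp only [hxdef]
    rw [hρ]
    nlinarith
  have hg : ∀ u ∈ U, ((p + 2).factorial : ℝ) * (d u - θ * m u) =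
      ((p : ℝ) + 2) * (m' u * (x u - ρ)) := by
    intro u hu
    have e1 := (hm u hu).ne'
    simp only [hxdef, hm']
    rw [f2, hρ]
    field_simp
    ring
  have hterm : ∀ u ∈ U, ((p : ℝ) + 2) * (m' u * (x u - ρ)) - c' * (((p : ℝ) + 2) *
      (A * (m' u * (y - 1 - x u)))) ≤ (((p + 2).factorial : ℝ) * (d u - θ * m u)) *
      (1 - c' + c' * ((((p + 2).factorial : ℝ) * (d u - θ * m u)) / K)) := by
    intro u hu
    rw [hg u hu, hK2]
    have e1 := vertex_num ha hθ hρ hy (hxρ u hu) (hP u hu)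
    rw [← hAdef, ← hHdef] at e1
    have e2 : ((p : ℝ) + 2) * (m' u * (x u - ρ)) / (((p : ℝ) + 2) * H) =
        m' u * (x u - ρ) / H := by
      rw [mul_div_mul_left]
      positivity
    rw [e2]
    have e3 : ((p : ℝ) + 2) * (m' u * (x u - ρ)) * (1 - c' + c' * (m' u * (x u - ρ) / H)) =
        ((p : ℝ) + 2) * (m' u * (x u - ρ)) - c' * (((p : ℝ) + 2) *
          (m' u * (x u - ρ) * (1 - m' u * (x u - ρ) / H))) := by ring
    rw [e3]
    have e4 := mul_le_mul_of_nonneg_left (mul_le_mul_of_nonneg_left e1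
      (show (0 : ℝ) ≤ (p : ℝ) + 2 by positivity)) hc0
    linarith
  refine le_trans ?_ (sum_le_sum hterm)
  rw [sum_sub_distrib, ← mul_sum, ← mul_sum, ← mul_sum, ← mul_sum]
  have s1 : ∑ u ∈ U, m' u = ((p + 1).factorial : ℝ) * M := by
    simp only [hm']
    rw [← mul_sum, hM, f1]; ring
  have s2 : ∑ u ∈ U, m' u * x u = ((p + 1).factorial : ℝ) * ((p + 2) * e + p * M) := by
    have e1 : ∀ u ∈ U, m' u * x u = (p.factorial : ℝ) * (p + 1) * d u +
        (p.factorial : ℝ) * p * m u := by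
      intro u hu
      have e1 := (hm u hu).ne'
      simp only [hxdef, hm']
      field_simp
    rw [sum_congr rfl e1, sum_add_distrib, ← mul_sum, ← mul_sum, hd, hM, f1]
    ring
  have s3 : ((p + 1).factorial : ℝ) * ((p + 2) * e) =
      P0 (p + 1) y * Y + ((p + 1).factorial : ℝ) * ((a - (p + 2)) * M) := by
    have e1 : FF (p + 1) (a - 1) y = P0 (p + 1) y * Y := by
      unfold FF
      rw [hY]; ring
    rw [e1, f2] at hF
    rw [← hθ, f1]
    linarith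
  have s4 : ∑ u ∈ U, m' u * (y - 1 - x u) = Y * E := by
    have e1 : ∀ u ∈ U, m' u * (y - 1 - x u) = (y - 1) * m' u - m' u * x u := by
      intro u _; ring
    rw [sum_congr rfl e1, sum_sub_distrib, ← mul_sum, s1, s2, hEdef, mul_add, s3, hY]
    ring
  have s5 : ∑ u ∈ U, m' u * (x u - ρ) = y * H + θ * E := by
    have e1 : ∀ u ∈ U, m' u * (x u - ρ) = (y - 1 - ρ) * m' u - m' u * (y - 1 - x u) := by
      intro u _; ring
    rw [sum_congr rfl e1, sum_sub_distrib, ← mul_sum, s1, s4]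
    have e2 : y * H = P0 (p + 1) y * (y - 1 - ρ) := by
      rw [hHdef, P0_shift]
      unfold FF
      ring
    have e3 : y - 1 - ρ = Y + θ := by rw [hY, hρ]; linarith
    rw [e2, hEdef, e3]
    ring
  rw [s4, s5, hK2]
  have k1 : c' * (A * Y) ≤ θ := by
    have e1 : c' * Y * A ≤ ((p : ℝ) + 3) / 2 * (p + 1) :=
      mul_le_mul hcY hA hA0 (by positivity)
    nlinarith
  have k2 := mul_le_mul_of_nonneg_right k1 hE0
  have k3 := mul_le_mul_of_nonneg_left k2 (show (0 : ℝ) ≤ (p : ℝ) + 2 by positivity)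
  nlinarith

end step

end Pool.Agent.Lib.MP_455133_co.LR
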