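import Pool.Agent.Lib.MP_455133_co.LR.Chord
import Pool.Agent.Lib.MP_455133_co.LR.KKR
import Pool.Agent.Lib.MP_455133_co.LR.Pot
import Pool.Agent.Lib.MP_455133_co.LR.Step

/-!
The chord through the integral points `m`, `m + 1` of the function `a / (y + 1)`, for families.
-/

namespace Pool.Agent.Lib.MP_455133_co.LR

open Finset

open scoped FinsetFamily

/-- The improved local LYM inequality. -/
theorem kprime_all {n i m : ℕ} (hi : 1 ≤ i) (him : i ≤ m) (G : Finset (Finset (Fin n)))
    (hG : ∀ A ∈ G, A.card = i) (hp : G.card ≤ m.choose i) :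
    (G.card : ℝ) * (i + 1 - G.card / (m.choose i : ℝ)) ≤ ((m : ℝ) - i + 1) * (∂ G).card := by
  rcases Nat.lt_or_ge i 2 with h2 | h2
  · have h1 : i = 1 := by omega
    subst h1
    rw [Nat.choose_one_right] at hp ⊢
    have hmR : (1 : ℝ) ≤ m := by exact_mod_cast him
    rcases Nat.eq_zero_or_pos G.card with h0 | h0
    · rw [h0]
      push_cast
      have h3 : (0 : ℝ) ≤ ((m : ℝ) - 1 + 1) * (∂ G).card :=
        mul_nonneg (by linarith) (Nat.cast_nonneg _)
      linarith
    · obtain ⟨A, hA⟩ := card_pos.1 h0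
      have h3 : A.Nonempty := by
        rw [← card_pos, hG A hA]
        omega
      obtain ⟨x, hx⟩ := h3
      have h4 : 1 ≤ (∂ G).card := card_pos.2 ⟨A.erase x, erase_mem_shadow hA hx⟩
      have h5 : (1 : ℝ) ≤ ((∂ G).card : ℝ) := by exact_mod_cast h4
      have h6 : (m : ℝ) * 1 ≤ (m : ℝ) * (∂ G).card := mul_le_mul_of_nonneg_left h5 (by linarith)
      obtain ⟨q, hq⟩ : ∃ q : ℝ, q = (G.card : ℝ) := ⟨_, rfl⟩
      rw [← hq]
      have h7 : q * ((1 : ℕ) + 1 - q / m) ≤ m := by
        have h8 : (m : ℝ) - q * ((1 : ℕ) + 1 - q / m) = (m - q) ^ 2 / m := by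
          push_cast
          field_simp
          ring
        have h9 : 0 ≤ ((m : ℝ) - q) ^ 2 / m := by positivity
        linarith
      have h10 : ((m : ℝ) - ((1 : ℕ) : ℝ) + 1) = m := by
        push_cast
        ring
      rw [h10]
      linarith
  · refine kprime hi him G hG hp fun x hx hc => ?_
    obtain ⟨k, rfl⟩ : ∃ k, i = k + 2 := ⟨i - 2, by omega⟩
    push_cast at hx
    have s1 : k + 2 - 1 = k + 1 := by omega
    rw [s1] at hc
    have h1 : ((k + 1).factorial : ℝ) * ((∂ G).card : ℝ) ≤ P0 (k + 1) x := by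
      unfold bb at hc
      rw [le_div_iff₀ (by positivity)] at hc
      linarith
    have h3 := KKR_le (m := k) hG (by linarith) h1
    have e1 : x - ((k + 2 : ℕ) : ℝ) + 1 = x - (k + 1) := by
      push_cast
      ring
    rw [e1]
    push_cast
    exact h3

/-! ### The real inequality -/

theorem ch_fin {D v ρ w m i θ : ℝ} (hD : 0 < D) (hD1 : D < 1) (hw : w = m - i + 1) (hw0 : 0 < w)
    (hv : v * w = θ) (hθ : i + 1 ≤ θ) (hi : 1 ≤ i) (hv1 : (i + 1) * v ≤ 1) (hρ : 0 ≤ ρ)
    (h : D * (1 - i * v) - D * (1 - D) / 2 * (i / w) ≤ ρ * (1 - v * (i + 1 - ρ))) :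
    D * (m + 2) / (m + 1 + D) ≤ ρ := by
  have hm : 0 < m := by linarith
  have hT : 0 < m + 1 + D := by linarith
  have hv0 : 0 < v := by
    by_contra hc
    push Not at hc
    have : v * w ≤ 0 := mul_nonpos_of_nonpos_of_nonneg hc hw0.le
    linarith
  by_contra hcon
  push Not at hcon
  obtain ⟨r, hr⟩ : ∃ r, r = D * (m + 2) / (m + 1 + D) := ⟨_, rfl⟩
  rw [← hr] at hcon
  have hrT : r * (m + 1 + D) = D * (m + 2) := by
    rw [hr]
    field_simp
  -- `φ ρ < φ r`
  have h1 : ρ * (1 - v * (i + 1 - ρ)) < r * (1 - v * (i + 1 - r)) := by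
    have h2 : r * (1 - v * (i + 1 - r)) - ρ * (1 - v * (i + 1 - ρ)) =
        (r - ρ) * (1 - (i + 1) * v + v * (r + ρ)) := by ring
    have h3 : 0 < (r - ρ) * (1 - (i + 1) * v + v * (r + ρ)) := by
      apply mul_pos (by linarith)
      have : 0 < v * (r + ρ) := mul_pos hv0 (by linarith)
      linarith
    linarith
  have h4 := lt_of_le_of_lt h h1
  -- the bracket
  have h5 : r * (1 - v * (i + 1 - r)) - (D * (1 - i * v) - D * (1 - D) / 2 * (i / w)) =
      D * (1 - D) / ((m + 1 + D) * w) * (i * (m + 1 + D) / 2 + (w - i * θ) -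
        (1 + (1 - D) / (m + 1 + D)) * (θ * (m + 1))) := by
    rw [hr, ← hv]
    field_simp
    ring
  have h6 : i * (m + 1 + D) / 2 + (w - i * θ) -
      (1 + (1 - D) / (m + 1 + D)) * (θ * (m + 1)) ≤ 0 := by
    have h7 : 0 ≤ (1 - D) / (m + 1 + D) * (θ * (m + 1)) := by
      apply mul_nonneg (div_nonneg (by linarith) hT.le)
      apply mul_nonneg (by linarith) (by linarith)
    have h8 : (i + 1) * (m + 1) ≤ θ * (m + 1) := mul_le_mul_of_nonneg_right hθ (by linarith)
    have h9 : 0 ≤ i * θ := mul_nonneg (by linarith) (by linarith)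
    have h10 : i * D ≤ i := by nlinarith
    rw [hw]
    nlinarith
  have h7 : D * (1 - D) / ((m + 1 + D) * w) * (i * (m + 1 + D) / 2 + (w - i * θ) -
        (1 + (1 - D) / (m + 1 + D)) * (θ * (m + 1))) ≤ 0 := by
    apply mul_nonpos_of_nonneg_of_nonpos _ h6
    apply div_nonneg
    · exact mul_nonneg hD.le (by linarith)
    · exact mul_nonneg hT.le hw0.le
  linarith

/-- The chord, in terms of numbers. -/
theorem chord_num {p a m : ℕ} {θ y e M : ℝ} (hpa : p + 3 ≤ a)
    (hθ : ((p : ℝ) + 2) * θ = a - (p + 2)) (hθ2 : (p : ℝ) + 2 ≤ θ)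
    (ham : a ≤ m + 1) (hy : (a : ℝ) - 1 ≤ y)
    (hM : bb (p + 1) y ≤ M) (hξ : bb (p + 2) y - θ * bb (p + 1) y = e - θ * M)
    (hK : ∀ q : ℝ, e = (m.choose (p + 2) : ℝ) + q → 0 < q → q ≤ (m.choose (p + 1) : ℝ) →
      q * ((p : ℝ) + 2 - q / (m.choose (p + 1) : ℝ)) ≤
        ((m : ℝ) - p) * (M - (m.choose (p + 1) : ℝ))) :
    (a : ℝ) / (m + 1) - a / ((m + 1) * (m + 2) * (m.choose (p + 1) : ℝ)) *
      (e - (m.choose (p + 2) : ℝ)) ≤ a / (y + 1) := by
  have hpaR : (p : ℝ) + 3 ≤ a := by exact_mod_cast hpa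
  have hamR : (a : ℝ) ≤ m + 1 := by exact_mod_cast ham
  have hp0 : (0 : ℝ) ≤ p := by positivity
  have ha0 : (0 : ℝ) < a := by linarith
  have hm0 : (0 : ℝ) < m := by linarith
  have hθ0 : 0 ≤ θ := by linarith
  obtain ⟨C, hC⟩ : ∃ C : ℝ, C = (m.choose (p + 1) : ℝ) := ⟨_, rfl⟩
  obtain ⟨Cj, hCj⟩ : ∃ Cj : ℝ, Cj = (m.choose (p + 2) : ℝ) := ⟨_, rfl⟩
  obtain ⟨Cp, hCp⟩ : ∃ Cp : ℝ, Cp = (m.choose p : ℝ) := ⟨_, rfl⟩
  have hpm : p + 1 ≤ m := by omega
  have hC0 : 0 < C := by
    rw [hC]
    exact_mod_cast Nat.choose_pos hpm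
  have hCp0 : 0 ≤ Cp := by
    rw [hCp]
    exact Nat.cast_nonneg _
  have hCC : C * ((p : ℝ) + 1) = Cp * (m - p) := by
    rw [hC, hCp, ← bb_nat, ← bb_nat]
    exact bb_succ p m
  rw [← hC, ← hCj] at hK ⊢
  -- `e ≥ bb (p + 2) y`
  have he : bb (p + 2) y ≤ e := by
    have : θ * bb (p + 1) y ≤ θ * M := mul_le_mul_of_nonneg_left hM hθ0
    linarith
  have hfac : (0 : ℝ) < ((p + 1).factorial : ℝ) := by positivity
  have hden : 0 < ((m : ℝ) + 1) * (m + 2) * C := by positivity
  have hy1 : 0 < y + 1 := by linarith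
  -- it is enough to bound `e`
  have hgoal : ∀ X : ℝ, X ≤ e → (a : ℝ) / (m + 1) - a / ((m + 1) * (m + 2) * C) * (X - Cj) ≤
      a / (y + 1) → (a : ℝ) / (m + 1) - a / ((m + 1) * (m + 2) * C) * (e - Cj) ≤ a / (y + 1) := by
    intro X hX h1
    have h2 : a / ((m + 1) * (m + 2) * C) * (X - Cj) ≤ a / ((m + 1) * (m + 2) * C) * (e - Cj) := by
      apply mul_le_mul_of_nonneg_left (by linarith)
      positivity
    linarith
  have hF : ((p + 2 : ℕ) : ℝ) = p + 2 := by push_cast; ring
  have hfac2 : ((p + 2).factorial : ℝ) = ((p : ℝ) + 2) * ((p + 1).factorial : ℝ) := by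
    rw [Nat.factorial_succ (p + 1)]
    push_cast
    ring
  rcases le_or_gt y m with hym | hym
  · -- to the left of `m`
    refine hgoal _ he ?_
    have h1 := ch_left (i := p + 2) (x := (m : ℝ)) (y := y) (by push_cast; linarith) hym
    have s1 : p + 2 - 1 = p + 1 := by omega
    rw [s1, hF] at h1
    have h2 : Cj - bb (p + 2) y ≤ (m - y) * C := by
      rw [hCj, hC, ← bb_nat, ← bb_nat]
      unfold bb
      rw [← sub_div, div_le_iff₀ (by positivity), hfac2]
      have h3 : (m - y) * (P0 (p + 1) (m : ℝ) / ((p + 1).factorial : ℝ)) *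
          (((p : ℝ) + 2) * ((p + 1).factorial : ℝ)) =
          ((p : ℝ) + 2) * (m - y) * P0 (p + 1) m := by
        field_simp
      rw [h3]
      exact h1
    have h3 : (a : ℝ) / (y + 1) - (a / (m + 1) - a / ((m + 1) * (m + 2) * C) *
        (bb (p + 2) y - Cj)) = a / ((m + 1) * (m + 2) * C) *
          ((m - y) * C * ((m + 2) / (y + 1)) - (Cj - bb (p + 2) y)) := by
      field_simp
      ring
    have h4 : (m - y) * C * 1 ≤ (m - y) * C * ((m + 2) / (y + 1)) := by
      apply mul_le_mul_of_nonneg_left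
      · rw [le_div_iff₀ hy1]
        linarith
      · exact mul_nonneg (by linarith) hC0.le
    have h5 : 0 ≤ a / ((m + 1) * (m + 2) * C) *
          ((m - y) * C * ((m + 2) / (y + 1)) - (Cj - bb (p + 2) y)) := by
      apply mul_nonneg (by positivity)
      linarith
    linarith
  rcases le_or_gt ((m : ℝ) + 1) y with hym1 | hym1
  · -- to the right of `m + 1`
    refine hgoal _ he ?_
    have h1 := ch_right (i := p + 2) (x := (m : ℝ)) (y := y) (by push_cast; linarith) hym1
    have s1 : p + 2 - 1 = p + 1 := by omega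
    rw [s1, hF] at h1
    have h2 : (y - m) * C ≤ bb (p + 2) y - Cj := by
      rw [hCj, hC, ← bb_nat, ← bb_nat]
      unfold bb
      rw [← sub_div, le_div_iff₀ (by positivity), hfac2]
      have h3 : (y - m) * (P0 (p + 1) (m : ℝ) / ((p + 1).factorial : ℝ)) *
          (((p : ℝ) + 2) * ((p + 1).factorial : ℝ)) =
          ((p : ℝ) + 2) * (y - m) * P0 (p + 1) m := by
        field_simp
      rw [h3]
      exact h1
    have h3 : (a : ℝ) / (y + 1) - (a / (m + 1) - a / ((m + 1) * (m + 2) * C) *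
        (bb (p + 2) y - Cj)) = a / ((m + 1) * (m + 2) * C) *
          ((bb (p + 2) y - Cj) - (y - m) * C * ((m + 2) / (y + 1))) := by
      field_simp
      ring
    have h4 : (y - m) * C * ((m + 2) / (y + 1)) ≤ (y - m) * C * 1 := by
      apply mul_le_mul_of_nonneg_left
      · rw [div_le_one hy1]
        linarith
      · exact mul_nonneg (by linarith) hC0.le
    have h5 : 0 ≤ a / ((m + 1) * (m + 2) * C) *
          ((bb (p + 2) y - Cj) - (y - m) * C * ((m + 2) / (y + 1))) := by
      apply mul_nonneg (by positivity)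
      linarith
    linarith
  -- between `m` and `m + 1`
  obtain ⟨D, hD⟩ : ∃ D, y = m + D := ⟨y - m, by ring⟩
  have hD0 : 0 < D := by linarith
  have hD1 : D < 1 := by linarith
  have hkey : C * (D * (m + 2) / (m + 1 + D)) ≤ e - Cj := by
    rcases le_or_gt C (e - Cj) with hbig | hsm
    · refine le_trans ?_ hbig
      have h1 : D * (m + 2) / (m + 1 + D) ≤ 1 := by
        rw [div_le_one (by linarith)]
        nlinarith
      nlinarith
    · have hq0 : 0 < e - Cj := by
        have h1 : Cj < bb (p + 2) y := by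
          rw [hCj, ← bb_nat]
          unfold bb
          apply div_lt_div_of_pos_right _ (by positivity)
          have h2 : P0 (p + 2) (m : ℝ) = P0 (p + 1) (m : ℝ) * (m - ((p + 1 : ℕ) : ℝ)) := rfl
          have h3 : P0 (p + 2) y = P0 (p + 1) y * (y - ((p + 1 : ℕ) : ℝ)) := rfl
          have h4 : P0 (p + 1) (m : ℝ) ≤ P0 (p + 1) y :=
            P0_mono (by push_cast; linarith) hym.le
          have h5 : 0 < P0 (p + 1) (m : ℝ) := P0_pos (by push_cast; linarith)
          rw [h2, h3]
          push_cast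
          have h6 : (0 : ℝ) ≤ m - (p + 1) := by linarith
          nlinarith [mul_le_mul_of_nonneg_right h4 h6, mul_pos (lt_of_lt_of_le h5 h4)
            (by linarith : 0 < y - m)]
        linarith
      obtain ⟨ρ, hρ⟩ : ∃ ρ, ρ = (e - Cj) / C := ⟨_, rfl⟩
      have hρC : e - Cj = C * ρ := by
        rw [hρ, mul_comm, div_mul_cancel₀ _ hC0.ne']
      have hρ0 : 0 ≤ ρ := by
        rw [hρ]
        exact div_nonneg hq0.le hC0.le
      have hk := hK (e - Cj) (by ring) hq0 hsm.le
      rw [← hρ, hρC] at hk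
      -- the two expansions at `m`
      have hup := ch_up (i := p + 1) (x := (m : ℝ)) (D := D) hD0.le hD1.le (by push_cast; linarith)
      have hlo := ch_low (i := p + 2) (x := (m : ℝ)) (D := D) hD0.le hD1.le
        (by push_cast; linarith)
      have s1 : p + 2 - 1 = p + 1 := by omega
      have s2 : p + 2 - 2 = p := by omega
      have s3 : p + 1 - 1 = p := by omega
      rw [s1, s2] at hlo
      rw [s3] at hup
      have hfac1 : ((p + 1).factorial : ℝ) = ((p : ℝ) + 1) * (p.factorial : ℝ) := by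
        rw [Nat.factorial_succ p]
        push_cast
        ring
      have hfp : (0 : ℝ) < (p.factorial : ℝ) := by positivity
      have hup' : bb (p + 1) y ≤ C + D * Cp := by
        rw [hC, hCp, ← bb_nat, ← bb_nat, hD]
        unfold bb
        rw [div_le_iff₀ (by positivity), hfac1]
        have h3 : (P0 (p + 1) (m : ℝ) / (((p : ℝ) + 1) * (p.factorial : ℝ)) +
            D * (P0 p (m : ℝ) / (p.factorial : ℝ))) * (((p : ℝ) + 1) * (p.factorial : ℝ)) =
            P0 (p + 1) (m : ℝ) + ((p : ℝ) + 1) * D * P0 p (m : ℝ) := by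
          field_simp
        rw [h3]
        push_cast at hup
        exact hup
      have hlo' : Cj + D * C - D * (1 - D) / 2 * Cp ≤ bb (p + 2) y := by
        rw [hC, hCp, hCj, ← bb_nat, ← bb_nat, ← bb_nat, hD]
        unfold bb
        rw [le_div_iff₀ (by positivity), hfac2, hfac1]
        have h3 : (P0 (p + 2) (m : ℝ) / (((p : ℝ) + 2) * (((p : ℝ) + 1) * (p.factorial : ℝ))) +
            D * (P0 (p + 1) (m : ℝ) / (((p : ℝ) + 1) * (p.factorial : ℝ))) -
            D * (1 - D) / 2 * (P0 p (m : ℝ) / (p.factorial : ℝ))) *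
            (((p : ℝ) + 2) * (((p : ℝ) + 1) * (p.factorial : ℝ))) =
            P0 (p + 2) (m : ℝ) + ((p : ℝ) + 2) * D * P0 (p + 1) (m : ℝ) -
              ((p : ℝ) + 2) * (((p : ℝ) + 2) - 1) / 2 * (D * (1 - D)) * P0 p (m : ℝ) := by
          field_simp
          ring
        rw [h3]
        push_cast at hlo
        exact hlo
      obtain ⟨w, hw⟩ : ∃ w : ℝ, w = (m : ℝ) - ((p : ℝ) + 1) + 1 := ⟨_, rfl⟩
      have hwm : w = (m : ℝ) - p := by rw [hw]; ring
      have hw0 : 0 < w := by
        rw [hwm]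
        linarith
      obtain ⟨v, hv⟩ : ∃ v : ℝ, v = θ / w := ⟨_, rfl⟩
      have hvw : v * w = θ := by
        rw [hv]
        field_simp
      rw [← hwm] at hk hCC
      have hCp' : Cp = C * (((p : ℝ) + 1) / w) := by
        rw [← mul_div_assoc, hCC]
        field_simp
      have h := ch_fin (D := D) (v := v) (ρ := ρ) (w := w) (m := m) (i := (p : ℝ) + 1) (θ := θ)
        hD0 hD1 hw hw0 hvw (by linarith) (by linarith) (by
          have h7 : ((p : ℝ) + 1 + 1) * v * w ≤ 1 * w := by
            have h8 : ((p : ℝ) + 1 + 1) * v * w = ((p : ℝ) + 2) * θ := by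
              rw [← hvw]
              ring
            rw [h8, hθ, hwm]
            linarith
          exact le_of_mul_le_mul_right h7 hw0) hρ0 (by
          -- divide by `C`
          have h7 : e - θ * M - (Cj - θ * C) =
              C * ρ - θ * (M - C) := by
            rw [← hρC]
            ring
          have h8 : v * (C * ρ * ((p : ℝ) + 2 - ρ)) ≤ θ * (M - C) := by
            have h9 : v * (C * ρ * ((p : ℝ) + 2 - ρ)) ≤ v * (w * (M - C)) := by
              apply mul_le_mul_of_nonneg_left hk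
              rw [hv]
              exact div_nonneg hθ0 hw0.le
            have h10 : v * (w * (M - C)) = θ * (M - C) := by
              rw [← hvw]
              ring
            linarith
          have h9 : θ * bb (p + 1) y ≤ θ * (C + D * Cp) := mul_le_mul_of_nonneg_left hup' hθ0
          have h10 : D * C - D * (1 - D) / 2 * Cp - θ * (D * Cp) ≤
              C * ρ - v * (C * ρ * ((p : ℝ) + 2 - ρ)) := by linarith
          have h11 : θ * (D * Cp) = C * (D * (((p : ℝ) + 1) * v)) := by
            rw [hCp', ← hvw]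
            field_simp
          rw [h11, hCp'] at h10
          have h12 : C * (D * (1 - ((p : ℝ) + 1) * v) - D * (1 - D) / 2 * (((p : ℝ) + 1) / w)) ≤
              C * (ρ * (1 - v * ((p : ℝ) + 1 + 1 - ρ))) := by
            have e1 : C * (D * (1 - ((p : ℝ) + 1) * v) - D * (1 - D) / 2 * (((p : ℝ) + 1) / w)) =
                D * C - D * (1 - D) / 2 * (C * (((p : ℝ) + 1) / w)) -
                  C * (D * (((p : ℝ) + 1) * v)) := by ring
            have e2 : C * (ρ * (1 - v * ((p : ℝ) + 1 + 1 - ρ))) =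
                C * ρ - v * (C * ρ * ((p : ℝ) + 2 - ρ)) := by ring
            rw [e1, e2]
            exact h10
          exact le_of_mul_le_mul_left h12 hC0)
      rw [hρC]
      exact mul_le_mul_of_nonneg_left h hC0.le
  refine hgoal (Cj + C * (D * (m + 2) / (m + 1 + D))) (by linarith) ?_
  have h1 : (a : ℝ) / (m + 1) - a / ((m + 1) * (m + 2) * C) *
      (Cj + C * (D * (m + 2) / (m + 1 + D)) - Cj) = a / (y + 1) := by
    have h2 : y + 1 = m + 1 + D := by
      rw [hD]
      ring
    have h3 : (m : ℝ) + 1 + D ≠ 0 := by linarith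
    rw [h2]
    field_simp
    ring
  exact h1.le

end Pool.Agent.Lib.MP_455133_co.LR
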