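import Mathlib
import Pool.Agent.Lib.MP_455133_co.LR.Pot

/-!
Random orders without probability: `RR j a L n W` is the expectation of the time at which a
random order of the `n` elements of `W` completes a complete `a`-set of `L` (times uniform in
`[0,1]`, value `1` if there is none), given by its recursion over the last element.
-/

namespace Pool.Agent.Lib.MP_455133_co.LR

open Finset

variable {V : Type*} [Fintype V] [DecidableEq V]

/-- `W` contains a complete `a`-set of `L` -/
def HasK (j a : ℕ) (L : Finset (Finset V)) (W : Finset V) : Prop :=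
  ∃ K : Finset V, K ⊆ W ∧ K.card = a ∧ isK j L K

open Classical in
/-- the mean completion time -/
noncomputable def RR (j a : ℕ) (L : Finset (Finset V)) : ℕ → Finset V → ℝ
  | 0, _ => 1
  | n + 1, W => if HasK j a L W then (∑ u ∈ W, RR j a L n (W.erase u)) / ((n : ℝ) + 2) else 1

theorem HasK_mono {j a : ℕ} {L : Finset (Finset V)} {W W' : Finset V} (h : W ⊆ W')
    (hW : HasK j a L W) : HasK j a L W' := by
  obtain ⟨K, h1, h2, h3⟩ := hW
  exact ⟨K, h1.trans h, h2, h3⟩

theorem RR_pos {j a : ℕ} {L : Finset (Finset V)} {n : ℕ} {W : Finset V} (h : HasK j a L W) :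
    ((n : ℝ) + 2) * RR j a L (n + 1) W = ∑ u ∈ W, RR j a L n (W.erase u) := by
  have hn : (0 : ℝ) < (n : ℝ) + 2 := by positivity
  simp only [RR, if_pos h]
  field_simp

theorem RR_neg {j a : ℕ} {L : Finset (Finset V)} {n : ℕ} {W : Finset V}
    (h : ¬ HasK j a L W) : RR j a L n W = 1 := by
  cases n with
  | zero => rfl
  | succ n => simp only [RR, if_neg h]

theorem RR_le_one {j a : ℕ} {L : Finset (Finset V)} : ∀ (n : ℕ) (W : Finset V), W.card = n →
    RR j a L n W ≤ 1 := by
  intro n
  induction n with
  | zero => intro W _; simp [RR]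
  | succ n ih =>
    intro W hW
    by_cases h : HasK j a L W
    · have h1 := RR_pos (n := n) h
      have h2 : ∑ u ∈ W, RR j a L n (W.erase u) ≤ ∑ u ∈ W, (1 : ℝ) := by
        apply sum_le_sum
        intro u hu
        exact ih _ (by rw [card_erase_of_mem hu, hW]; rfl)
      rw [sum_const, nsmul_eq_mul, mul_one, hW] at h2
      push_cast at h2
      have hn : (0 : ℝ) < (n : ℝ) + 2 := by positivity
      by_contra hlt
      push Not at hlt
      have : (n : ℝ) + 2 < ((n : ℝ) + 2) * RR j a L (n + 1) W := by nlinarith
      linarith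
    · rw [RR_neg h]

theorem RR_erase {j a : ℕ} {L : Finset (Finset V)} : ∀ (n : ℕ) (W : Finset V),
    W.card = n + 1 → ∀ u ∈ W, RR j a L (n + 1) W ≤ RR j a L n (W.erase u) := by
  intro n
  induction n with
  | zero =>
    intro W hW u hu
    have h1 := RR_le_one (j := j) (a := a) (L := L) 1 W hW
    exact h1
  | succ n ih =>
    intro W hW u hu
    have hcu : (W.erase u).card = n + 1 := by rw [card_erase_of_mem hu, hW]; rfl
    by_cases h : HasK j a L (W.erase u)
    · have hW' : HasK j a L W := HasK_mono (erase_subset _ _) h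
      have h1 := RR_pos (n := n + 1) hW'
      have h2 := RR_pos (n := n) h
      rw [← add_sum_erase W _ hu] at h1
      have h3 : ∑ w ∈ W.erase u, RR j a L (n + 1) (W.erase w) ≤
          ∑ w ∈ W.erase u, RR j a L n ((W.erase u).erase w) := by
        apply sum_le_sum
        intro w hw
        rw [mem_erase] at hw
        rw [erase_right_comm]
        exact ih (W.erase w) (by rw [card_erase_of_mem hw.2, hW]; rfl) u
          (mem_erase.mpr ⟨hw.1.symm, hu⟩)
      push_cast at h1 h2
      have hn : (0 : ℝ) < (n : ℝ) + 1 + 2 := by positivity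
      have h4 : ((n : ℝ) + 1 + 2) * RR j a L (n + 1 + 1) W ≤
          ((n : ℝ) + 1 + 2) * RR j a L (n + 1) (W.erase u) := by
        rw [h1]
        linarith
      exact le_of_mul_le_mul_left h4 hn
    · rw [RR_neg (n := n + 1) h]
      exact RR_le_one _ _ hW

/-- a vertex in no complete set does not matter -/
theorem RR_skip {j a : ℕ} (ha : 1 ≤ a) {L : Finset (Finset V)} : ∀ (n : ℕ) (W : Finset V),
    W.card = n + 1 → ∀ u ∈ W, (∀ K ⊆ W, K.card = a → isK j L K → u ∉ K) →
      RR j a L n (W.erase u) ≤ RR j a L (n + 1) W := by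
  intro n
  induction n with
  | zero =>
    intro W hW u hu hK
    by_cases h : HasK j a L W
    · exfalso
      obtain ⟨K, h1, h2, h3⟩ := h
      have h4 := hK K h1 h2 h3
      obtain ⟨x, hx⟩ : K.Nonempty := by rw [← card_pos, h2]; omega
      obtain ⟨w, hw⟩ := card_eq_one.mp hW
      have h5 := h1 hx
      rw [hw, mem_singleton] at h5 hu
      rw [hu, ← h5] at h4
      exact h4 hx
    · rw [RR_neg h]
      simp [RR]
  | succ n ih =>
    intro W hW u hu hK
    by_cases h : HasK j a L W
    · have h' : HasK j a L (W.erase u) := by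
        obtain ⟨K, h1, h2, h3⟩ := h
        refine ⟨K, ?_, h2, h3⟩
        intro x hx
        rw [mem_erase]
        exact ⟨fun hxu => hK K h1 h2 h3 (hxu ▸ hx), h1 hx⟩
      have h1 := RR_pos (n := n + 1) h
      have h2 := RR_pos (n := n) h'
      rw [← add_sum_erase W _ hu] at h1
      have h3 : ∑ w ∈ W.erase u, RR j a L n ((W.erase u).erase w) ≤
          ∑ w ∈ W.erase u, RR j a L (n + 1) (W.erase w) := by
        apply sum_le_sum
        intro w hw
        rw [mem_erase] at hw
        rw [erase_right_comm]
        refine ih (W.erase w) (by rw [card_erase_of_mem hw.2, hW]; rfl) u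
          (mem_erase.mpr ⟨hw.1.symm, hu⟩) ?_
        intro K hKW hKc hKK
        exact hK K (hKW.trans (erase_subset _ _)) hKc hKK
      push_cast at h1 h2
      have hn : (0 : ℝ) < (n : ℝ) + 1 + 2 := by positivity
      have h4 : ((n : ℝ) + 1 + 2) * RR j a L (n + 1) (W.erase u) ≤
          ((n : ℝ) + 1 + 2) * RR j a L (n + 1 + 1) W := by
        rw [h1]
        linarith
      exact le_of_mul_le_mul_left h4 hn
    · rw [RR_neg h]
      exact RR_le_one _ _ (by rw [card_erase_of_mem hu, hW]; rfl)

/-- removing several vertices in no complete set -/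
theorem RR_core {j a : ℕ} (ha : 1 ≤ a) {L : Finset (Finset V)} {C : Finset V} :
    ∀ (n : ℕ) (W : Finset V), (W \ C).card = n → C ⊆ W →
      (∀ K ⊆ W, K.card = a → isK j L K → K ⊆ C) → RR j a L C.card C ≤ RR j a L W.card W := by
  intro n
  induction n with
  | zero =>
    intro W hW hCW _
    have : W = C := by
      apply Subset.antisymm _ hCW
      rw [← sdiff_eq_empty_iff_subset, ← card_eq_zero, hW]
    rw [this]
  | succ n ih =>
    intro W hW hCW hK
    obtain ⟨u, hu⟩ : (W \ C).Nonempty := by rw [← card_pos, hW]; omega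
    rw [mem_sdiff] at hu
    have h1 : (W.erase u \ C).card = n := by
      rw [erase_sdiff_comm, card_erase_of_mem (mem_sdiff.mpr hu), hW]; rfl
    have h2 : C ⊆ W.erase u := by
      intro x hx
      rw [mem_erase]
      exact ⟨fun h => hu.2 (h ▸ hx), hCW hx⟩
    have h3 := ih (W.erase u) h1 h2 (fun K hKW => hK K (hKW.trans (erase_subset _ _)))
    obtain ⟨m, hm⟩ : ∃ m, W.card = m + 1 := by
      have := card_pos.mpr ⟨u, hu.1⟩
      exact ⟨W.card - 1, by omega⟩
    have h4 : (W.erase u).card = m := by rw [card_erase_of_mem hu.1, hm]; rfl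
    rw [h4] at h3
    rw [hm]
    refine h3.trans (RR_skip ha m W hm u hu.1 ?_)
    intro K hKW hKc hKK huK
    exact hu.2 (hK K hKW hKc hKK huK)

/-- the link of a vertex -/
def lk (B : Finset (Finset V)) (v : V) : Finset (Finset V) :=
  (B.filter fun e => v ∈ e).image fun e => e.erase v

theorem mem_lk {B : Finset (Finset V)} {v : V} {S : Finset V} :
    S ∈ lk B v ↔ v ∉ S ∧ insert v S ∈ B := by
  rw [lk, mem_image]
  constructor
  · rintro ⟨e, he, rfl⟩
    rw [mem_filter] at he
    refine ⟨notMem_erase _ _, ?_⟩
    rw [insert_erase he.2]; exact he.1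
  · rintro ⟨h1, h2⟩
    exact ⟨insert v S, mem_filter.mpr ⟨h2, mem_insert_self _ _⟩, erase_insert h1⟩

/-- A large set of vertices without complete `(a+1)`-sets: the random greedy choice. -/
theorem exists_free {j a : ℕ} (ha : 1 ≤ a) (B : Finset (Finset V)) :
    ∀ (n : ℕ) (W : Finset V), W.card = n →
      ∃ I : Finset V, I ⊆ W ∧ (∀ A ⊆ I, A.card = a + 1 → ¬ isK (j + 1) B A) ∧
        ∑ v ∈ W, RR j a (lk B v) (n - 1) (W.erase v) ≤ I.card := by
  intro n
  induction n with
  | zero =>
    intro W hW
    rw [card_eq_zero] at hW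
    subst hW
    refine ⟨∅, Subset.refl _, ?_, by simp⟩
    intro A hA hAc
    have := card_le_card hA
    rw [hAc, card_empty] at this
    omega
  | succ n ih =>
    intro W hW
    rw [Nat.add_sub_cancel]
    by_cases hall : ∀ v ∈ W, HasK j a (lk B v) (W.erase v)
    · -- some deletion does not lower the sum
      have hWne : W.Nonempty := by rw [← card_pos, hW]; omega
      obtain ⟨m, rfl⟩ : ∃ m, n = m + 1 := by
        obtain ⟨v, hv⟩ := hWne
        obtain ⟨K, hK1, hK2, -⟩ := hall v hv
        have := card_le_card hK1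
        rw [hK2, card_erase_of_mem hv, hW] at this
        exact ⟨n - 1, by omega⟩
      have h1 : ∀ v ∈ W, ((m : ℝ) + 2) * RR j a (lk B v) (m + 1) (W.erase v) =
          ∑ u ∈ W.erase v, RR j a (lk B v) m ((W.erase v).erase u) := fun v hv =>
        RR_pos (hall v hv)
      have h2 := sum_congr rfl h1
      rw [← mul_sum] at h2
      have h3 : ∑ v ∈ W, ∑ u ∈ W.erase v, RR j a (lk B v) m ((W.erase v).erase u) =
          ∑ u ∈ W, ∑ v ∈ W.erase u, RR j a (lk B v) m ((W.erase u).erase v) := by
        rw [sum_comm' (t' := W) (s' := fun u => W.erase u)]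
        · apply sum_congr rfl
          intro u _
          apply sum_congr rfl
          intro v _
          rw [erase_right_comm]
        · intro x y
          simp only [mem_erase]
          constructor
          · rintro ⟨h1, h2, h3⟩; exact ⟨⟨fun h => h2 h.symm, h1⟩, h3⟩
          · rintro ⟨⟨h1, h2⟩, h3⟩; exact ⟨h2, fun h => h1 h.symm, h3⟩
      rw [h3] at h2
      have h4 : ∃ u ∈ W, ∑ v ∈ W, RR j a (lk B v) (m + 1) (W.erase v) ≤
          ∑ v ∈ W.erase u, RR j a (lk B v) m ((W.erase u).erase v) := by
        apply exists_le_of_sum_le hWne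
        rw [← h2, sum_const, hW, nsmul_eq_mul]
        push_cast
        apply le_of_eq
        ring
      obtain ⟨u, hu, h5⟩ := h4
      obtain ⟨I, hI1, hI2, hI3⟩ := ih (W.erase u) (by rw [card_erase_of_mem hu, hW]; rfl)
      rw [Nat.add_sub_cancel] at hI3
      exact ⟨I, hI1.trans (erase_subset _ _), hI2, h5.trans hI3⟩
    · push Not at hall
      obtain ⟨v, hv, hvK⟩ := hall
      obtain ⟨I, hI1, hI2, hI3⟩ := ih (W.erase v) (by rw [card_erase_of_mem hv, hW]; rfl)
      have hvI : v ∉ I := fun h => absurd (hI1 h) (notMem_erase _ _)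
      refine ⟨insert v I, ?_, ?_, ?_⟩
      · exact insert_subset hv (hI1.trans (erase_subset _ _))
      · intro A hA hAc hAK
        by_cases hvA : v ∈ A
        · apply hvK
          refine ⟨A.erase v, ?_, by rw [card_erase_of_mem hvA, hAc]; rfl, ?_⟩
          · intro x hx
            rw [mem_erase] at hx
            have := hA hx.2
            rw [mem_insert] at this
            exact hI1 (this.resolve_left hx.1)
          · intro R hR hRc
            rw [mem_lk]
            have hvR : v ∉ R := fun h => absurd (hR h) (notMem_erase _ _)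
            refine ⟨hvR, hAK _ (insert_subset hvA (hR.trans (erase_subset _ _))) ?_⟩
            rw [card_insert_of_notMem hvR, hRc]
        · refine hI2 A ?_ hAc hAK
          intro x hx
          have := hA hx
          rw [mem_insert] at this
          rcases this with h | h
          · exact absurd (h ▸ hx) hvA
          · exact h
      · rw [card_insert_of_notMem hvI, ← add_sum_erase W _ hv]
        have h1 : RR j a (lk B v) n (W.erase v) = 1 := RR_neg hvK
        rw [h1]
        have h2 : ∑ x ∈ W.erase v, RR j a (lk B x) n (W.erase x) ≤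
            ∑ x ∈ W.erase v, RR j a (lk B x) (n - 1) ((W.erase v).erase x) := by
          apply sum_le_sum
          intro x hx
          rw [mem_erase] at hx
          obtain ⟨m, rfl⟩ : ∃ m, n = m + 1 := by
            have h3 : 1 < W.card := one_lt_card.mpr ⟨x, hx.2, v, hv, hx.1⟩
            exact ⟨n - 1, by omega⟩
          rw [Nat.add_sub_cancel, erase_right_comm]
          exact RR_erase m (W.erase x) (by rw [card_erase_of_mem hx.2, hW]; rfl) v
            (mem_erase.mpr ⟨hx.1.symm, hv⟩)
        push_cast
        linarith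

end Pool.Agent.Lib.MP_455133_co.LR
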