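import Mathlib
import Pool.Agent.Lib.MP_455133_co.LR.Proc

/-!
Pruned families and counting lemmas.
-/

namespace Pool.Agent.Lib.MP_455133_co.LR

open Finset

variable {V : Type*} [Fintype V] [DecidableEq V]

/-- every set of the shadow has at least `a - (p+2) + 1` extensions -/
def Pruned (p a : ℕ) (C : Finset (Finset V)) : Prop :=
  ∀ S ∈ sh (p + 1) C, a + 1 ≤ (nb C S).card + (p + 2)

theorem card_nb {B : Finset (Finset V)} {k : ℕ} (hB : ∀ e ∈ B, e.card = k + 2)
    {S : Finset V} (hSc : S.card = k + 1) : (nb B S).card = (B.filter fun e => S ⊆ e).card := by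
  apply card_bij (fun x _ => insert x S)
  · intro x hx
    rw [nb_iff hB hSc] at hx
    exact mem_filter.mpr ⟨hx.2, subset_insert _ _⟩
  · intro x hx y hy h
    rw [nb_iff hB hSc] at hx hy
    have : x ∈ insert y S := by rw [← h]; exact mem_insert_self _ _
    rw [mem_insert] at this
    exact this.resolve_right hx.1
  · intro e he
    rw [mem_filter] at he
    have h2 : (e \ S).card = 1 := by
      rw [card_sdiff_of_subset he.2, hB e he.1, hSc]; omega
    obtain ⟨x, hx⟩ := card_eq_one.mp h2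
    have hx' : x ∈ e \ S := by rw [hx]; exact mem_singleton_self x
    rw [mem_sdiff] at hx'
    have h3 : insert x S = e := by
      apply eq_of_subset_of_card_le (insert_subset hx'.1 he.2)
      rw [hB e he.1, card_insert_of_notMem hx'.2, hSc]
    refine ⟨x, ?_, h3⟩
    rw [nb_iff hB hSc, h3]
    exact ⟨hx'.2, he.1⟩

/-- double counting of pairs -/
theorem sum_filter_comm (𝒮 B : Finset (Finset V)) :
    ∑ S ∈ 𝒮, (B.filter fun e => S ⊆ e).card = ∑ e ∈ B, (𝒮.filter fun S => S ⊆ e).card := by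
  simp only [card_filter]
  exact sum_comm

theorem sum_deg {𝓕 : Finset (Finset V)} {U : Finset V} (h : ∀ e ∈ 𝓕, e ⊆ U) :
    ∑ u ∈ U, (𝓕.filter fun e => u ∈ e).card = ∑ e ∈ 𝓕, e.card := by
  simp only [card_filter]
  rw [sum_comm]
  apply sum_congr rfl
  intro e he
  rw [← card_filter]
  congr 1
  ext x
  rw [mem_filter]
  exact ⟨fun hx => hx.2, fun hx => ⟨h e he hx, hx⟩⟩

theorem card_lk (B : Finset (Finset V)) (v : V) :
    (lk B v).card = (B.filter fun e => v ∈ e).card := by
  rw [lk, card_image_of_injOn]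
  intro e he e' he' h
  simp only [coe_filter, Set.mem_setOf_eq] at he he'
  have h' : e.erase v = e'.erase v := h
  rw [← insert_erase he.2, ← insert_erase he'.2, h']

theorem sub_su {B : Finset (Finset V)} {e : Finset V} (he : e ∈ B) : e ⊆ su B := by
  intro x hx
  exact mem_su.mpr ⟨e, he, hx⟩

theorem sh_sub_su {B : Finset (Finset V)} {i : ℕ} {S : Finset V} (hS : S ∈ sh i B) :
    S ⊆ su B := by
  obtain ⟨-, e, he, h⟩ := mem_sh.mp hS
  exact h.trans (sub_su he)

theorem sum_d {p : ℕ} {C : Finset (Finset V)} (hC : ∀ e ∈ C, e.card = p + 2) :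
    ∑ u ∈ su C, (C.filter fun e => u ∈ e).card = (p + 2) * C.card := by
  rw [sum_deg fun e he => sub_su he, sum_congr rfl hC, sum_const, smul_eq_mul, mul_comm]

theorem sum_m {p : ℕ} {C : Finset (Finset V)} :
    ∑ u ∈ su C, ((sh (p + 1) C).filter fun S => u ∈ S).card =
      (p + 1) * (sh (p + 1) C).card := by
  rw [sum_deg fun e he => sh_sub_su he, sum_congr rfl fun S hS => (mem_sh.mp hS).1, sum_const,
    smul_eq_mul, mul_comm]

/-- number of subsets of size `p+1` in an edge -/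
theorem card_sub_le {p : ℕ} {𝒮 : Finset (Finset V)} (h𝒮 : ∀ S ∈ 𝒮, S.card = p + 1)
    {e : Finset V} (he : e.card = p + 2) : (𝒮.filter fun S => S ⊆ e).card ≤ p + 2 := by
  have h1 : 𝒮.filter (fun S => S ⊆ e) ⊆ powersetCard (p + 1) e := by
    intro S hS
    rw [mem_filter] at hS
    rw [mem_powersetCard]
    exact ⟨hS.2, h𝒮 S hS.1⟩
  have h2 := card_le_card h1
  rw [card_powersetCard, he, Nat.choose_succ_self_right] at h2
  exact h2

theorem card_sub_le' {p : ℕ} {𝒮 : Finset (Finset V)} {u : V}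
    (h𝒮 : ∀ S ∈ 𝒮, S.card = p + 1 ∧ u ∈ S)
    {e : Finset V} (he : e.card = p + 2) :
    (𝒮.filter fun S => S ⊆ e).card ≤ if u ∈ e then p + 1 else 0 := by
  split_ifs with hu
  · have h1 : 𝒮.filter (fun S => S ⊆ e) ⊆ (e.erase u).image fun x => e.erase x := by
      intro S hS
      rw [mem_filter] at hS
      obtain ⟨h2, h3⟩ := h𝒮 S hS.1
      have h4 : (e \ S).card = 1 := by rw [card_sdiff_of_subset hS.2, he, h2]; omega
      obtain ⟨x, hx⟩ := card_eq_one.mp h4
      have hx' : x ∈ e \ S := by rw [hx]; exact mem_singleton_self x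
      rw [mem_sdiff] at hx'
      rw [mem_image]
      refine ⟨x, mem_erase.mpr ⟨fun h => hx'.2 (h ▸ h3), hx'.1⟩, ?_⟩
      symm
      apply eq_of_subset_of_card_le
      · intro z hz
        exact mem_erase.mpr ⟨fun h => hx'.2 (h ▸ hz), hS.2 hz⟩
      · rw [card_erase_of_mem hx'.1, he, h2]; omega
    have h2 := (card_le_card h1).trans card_image_le
    rw [card_erase_of_mem hu, he] at h2
    exact h2
  · rw [Nat.le_zero, card_eq_zero, filter_eq_empty_iff]
    intro S hS hSe
    exact hu (hSe (h𝒮 S hS).2)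

/-- pruned: many edges -/
theorem pruned_card {p a : ℕ} {C : Finset (Finset V)} (hC : ∀ e ∈ C, e.card = p + 2)
    (hP : Pruned p a C) :
    (a + 1) * (sh (p + 1) C).card ≤ (p + 2) * C.card + (p + 2) * (sh (p + 1) C).card := by
  have h1 : ∑ S ∈ sh (p + 1) C, (a + 1) ≤ ∑ S ∈ sh (p + 1) C, ((nb C S).card + (p + 2)) :=
    sum_le_sum fun S hS => hP S hS
  rw [sum_const, smul_eq_mul, sum_add_distrib, sum_const, smul_eq_mul] at h1
  have h2 : ∑ S ∈ sh (p + 1) C, (nb C S).card ≤ (p + 2) * C.card := by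
    rw [sum_congr rfl fun S hS => card_nb hC (mem_sh.mp hS).1, sum_filter_comm]
    calc ∑ e ∈ C, ((sh (p + 1) C).filter fun S => S ⊆ e).card ≤ ∑ e ∈ C, (p + 2) :=
          sum_le_sum fun e he => card_sub_le (fun S hS => (mem_sh.mp hS).1) (hC e he)
      _ = (p + 2) * C.card := by rw [sum_const, smul_eq_mul, mul_comm]
  rw [mul_comm (a + 1), mul_comm (p + 2) (sh (p + 1) C).card]
  omega

/-- pruned: large degrees -/
theorem pruned_deg {p a : ℕ} {C : Finset (Finset V)} (hC : ∀ e ∈ C, e.card = p + 2)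
    (hP : Pruned p a C) (u : V) :
    (a + 1) * ((sh (p + 1) C).filter fun S => u ∈ S).card ≤
      (p + 1) * (C.filter fun e => u ∈ e).card +
        (p + 2) * ((sh (p + 1) C).filter fun S => u ∈ S).card := by
  set 𝒮 := (sh (p + 1) C).filter fun S => u ∈ S with h𝒮
  have hmem : ∀ S ∈ 𝒮, S ∈ sh (p + 1) C ∧ u ∈ S := fun S hS => mem_filter.mp hS
  have h1 : ∑ S ∈ 𝒮, (a + 1) ≤ ∑ S ∈ 𝒮, ((nb C S).card + (p + 2)) :=
    sum_le_sum fun S hS => hP S (hmem S hS).1
  rw [sum_const, smul_eq_mul, sum_add_distrib, sum_const, smul_eq_mul] at h1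
  have h2 : ∑ S ∈ 𝒮, (nb C S).card ≤ (p + 1) * (C.filter fun e => u ∈ e).card := by
    rw [sum_congr rfl fun S hS => card_nb hC (mem_sh.mp (hmem S hS).1).1, sum_filter_comm]
    calc ∑ e ∈ C, (𝒮.filter fun S => S ⊆ e).card ≤ ∑ e ∈ C, if u ∈ e then p + 1 else 0 :=
          sum_le_sum fun e he => card_sub_le' (u := u)
            (fun S hS => ⟨(mem_sh.mp (hmem S hS).1).1, (hmem S hS).2⟩) (hC e he)
      _ = (p + 1) * (C.filter fun e => u ∈ e).card := by
          rw [← sum_filter, sum_const, smul_eq_mul, mul_comm]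
  rw [mul_comm (a + 1), mul_comm (p + 2) 𝒮.card]
  omega

theorem del_card {C : Finset (Finset V)} (u : V) :
    (del C u).card + (C.filter fun e => u ∈ e).card = C.card := by
  rw [del, add_comm]
  exact card_filter_add_card_filter_not (s := C) (fun e => u ∈ e)

/-- the shadow after the deletion of a vertex -/
theorem sh_del {p a : ℕ} (ha : p + 3 ≤ a) {C : Finset (Finset V)}
    (hC : ∀ e ∈ C, e.card = p + 2) (hP : Pruned p a C) (u : V) :
    sh (p + 1) (del C u) = (sh (p + 1) C).filter fun S => u ∉ S := by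
  ext S
  rw [mem_filter]
  constructor
  · intro hS
    obtain ⟨hSc, e, he, hSe⟩ := mem_sh.mp hS
    rw [del, mem_filter] at he
    exact ⟨mem_sh.mpr ⟨hSc, e, he.1, hSe⟩, fun h => he.2 (hSe h)⟩
  · rintro ⟨hS, hu⟩
    have h1 := hP S hS
    have hSc := (mem_sh.mp hS).1
    have h2 : ((nb C S).erase u).Nonempty := by
      rw [← card_pos]
      have := pred_card_le_card_erase (s := nb C S) (a := u)
      omega
    obtain ⟨x, hx⟩ := h2
    rw [mem_erase, nb_iff hC hSc] at hx
    refine mem_sh.mpr ⟨hSc, insert x S, ?_, subset_insert _ _⟩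
    rw [del, mem_filter, mem_insert, not_or]
    exact ⟨hx.2.2, fun h => hx.1 h.symm, hu⟩

theorem sh_del_card {p a : ℕ} (ha : p + 3 ≤ a) {C : Finset (Finset V)}
    (hC : ∀ e ∈ C, e.card = p + 2) (hP : Pruned p a C) (u : V) :
    (sh (p + 1) (del C u)).card + ((sh (p + 1) C).filter fun S => u ∈ S).card =
      (sh (p + 1) C).card := by
  rw [sh_del ha hC hP, add_comm]
  exact card_filter_add_card_filter_not (s := sh (p + 1) C) (fun e => u ∈ e)

theorem nb_del_ge {p a : ℕ} {C : Finset (Finset V)}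
    (hC : ∀ e ∈ C, e.card = p + 2) (hP : Pruned p a C) (u : V) :
    ∀ S ∈ sh (p + 1) (del C u), a ≤ (nb (del C u) S).card + (p + 2) := by
  intro S hS
  obtain ⟨hSc, e, he, hSe⟩ := mem_sh.mp hS
  rw [del, mem_filter] at he
  have hu : u ∉ S := fun h => he.2 (hSe h)
  have h1 := hP S (mem_sh.mpr ⟨hSc, e, he.1, hSe⟩)
  rw [nb_del_notMem hC hSc hu]
  have := pred_card_le_card_erase (s := nb C S) (a := u)
  omega

/-- a subfamily loses many edges -/
theorem loss {p a : ℕ} {C D : Finset (Finset V)} (hCD : C ⊆ D)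
    (hD : ∀ e ∈ D, e.card = p + 2)
    (hdeg : ∀ S ∈ sh (p + 1) D, a ≤ (nb D S).card + (p + 2)) :
    a * (sh (p + 1) D).card + (p + 2) * C.card + (p + 2) * (sh (p + 1) C).card ≤
      a * (sh (p + 1) C).card + (p + 2) * D.card + (p + 2) * (sh (p + 1) D).card := by
  set 𝒮 := sh (p + 1) D \ sh (p + 1) C with h𝒮
  have hsub : sh (p + 1) C ⊆ sh (p + 1) D := by
    intro S hS
    obtain ⟨hSc, e, he, hSe⟩ := mem_sh.mp hS
    exact mem_sh.mpr ⟨hSc, e, hCD he, hSe⟩
  have hc : 𝒮.card + (sh (p + 1) C).card = (sh (p + 1) D).card :=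
    card_sdiff_add_card_eq_card hsub
  have hc' : (D \ C).card + C.card = D.card := card_sdiff_add_card_eq_card hCD
  have hmem : ∀ S ∈ 𝒮, S ∈ sh (p + 1) D ∧ S ∉ sh (p + 1) C := fun S hS => mem_sdiff.mp hS
  have h1 : ∑ S ∈ 𝒮, a ≤ ∑ S ∈ 𝒮, ((nb D S).card + (p + 2)) :=
    sum_le_sum fun S hS => hdeg S (hmem S hS).1
  rw [sum_const, smul_eq_mul, sum_add_distrib, sum_const, smul_eq_mul] at h1
  have h2 : ∑ S ∈ 𝒮, (nb D S).card ≤ (p + 2) * (D \ C).card := by
    rw [sum_congr rfl fun S hS => card_nb hD (mem_sh.mp (hmem S hS).1).1]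
    have h3 : ∀ S ∈ 𝒮, (D.filter fun e => S ⊆ e).card =
        ((D \ C).filter fun e => S ⊆ e).card := by
      intro S hS
      congr 1
      ext e
      rw [mem_filter, mem_filter, mem_sdiff]
      constructor
      · rintro ⟨h4, h5⟩
        refine ⟨⟨h4, fun h6 => (hmem S hS).2 ?_⟩, h5⟩
        exact mem_sh.mpr ⟨(mem_sh.mp (hmem S hS).1).1, e, h6, h5⟩
      · rintro ⟨⟨h4, -⟩, h5⟩
        exact ⟨h4, h5⟩
    rw [sum_congr rfl h3, sum_filter_comm]
    calc ∑ e ∈ D \ C, (𝒮.filter fun S => S ⊆ e).card ≤ ∑ e ∈ D \ C, (p + 2) :=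
          sum_le_sum fun e he => card_sub_le (fun S hS => (mem_sh.mp (hmem S hS).1).1)
            (hD e (mem_sdiff.mp he).1)
      _ = (p + 2) * (D \ C).card := by rw [sum_const, smul_eq_mul, mul_comm]
  rw [← hc, ← hc']
  have h3 : 𝒮.card * a ≤ (p + 2) * (D \ C).card + 𝒮.card * (p + 2) := h1.trans (by omega)
  nlinarith

/-- pruning -/
theorem exists_pruned {p a : ℕ} (ha : p + 3 ≤ a) : ∀ (N : ℕ) (D : Finset (Finset V)),
    D.card = N → (∀ e ∈ D, e.card = p + 2) →
    ∃ C : Finset (Finset V), C ⊆ D ∧ Pruned p a C ∧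
      ∀ K : Finset V, K.card = a → isK (p + 2) D K → isK (p + 2) C K := by
  intro N
  induction N using Nat.strong_induction_on with
  | _ N ih =>
    intro D hN hD
    by_cases hP : Pruned p a D
    · exact ⟨D, Subset.refl _, hP, fun K _ h => h⟩
    · unfold Pruned at hP
      push Not at hP
      obtain ⟨S, hS, hSd⟩ := hP
      have hlt : (D.filter fun e => ¬ S ⊆ e).card < N := by
        rw [← hN]
        apply card_lt_card
        rw [filter_ssubset]
        obtain ⟨-, e, he, hSe⟩ := mem_sh.mp hS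
        exact ⟨e, he, fun h => h hSe⟩
      obtain ⟨C, h1, h2, h3⟩ := ih _ hlt (D.filter fun e => ¬ S ⊆ e) rfl
        (fun e he => hD e (mem_filter.mp he).1)
      refine ⟨C, h1.trans (filter_subset _ _), h2, ?_⟩
      intro K hK hKD
      refine h3 K hK ?_
      intro R hR hRc
      rw [mem_filter]
      refine ⟨hKD R hR hRc, ?_⟩
      intro hSR
      have hSc := (mem_sh.mp hS).1
      have hSK : S ⊆ K := hSR.trans hR
      have h4 : K \ S ⊆ nb D S := by
        intro x hx
        rw [mem_sdiff] at hx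
        rw [nb_iff hD hSc]
        refine ⟨hx.2, hKD _ (insert_subset hx.1 hSK) ?_⟩
        rw [card_insert_of_notMem hx.2, hSc]
      have h5 := card_le_card h4
      rw [card_sdiff_of_subset hSK, hK, hSc] at h5
      omega

theorem RR_congr {j a : ℕ} {L C : Finset (Finset V)} : ∀ (n : ℕ) (W : Finset V),
    (∀ K ⊆ W, K.card = a → (isK j L K ↔ isK j C K)) → RR j a L n W = RR j a C n W := by
  intro n
  induction n with
  | zero => intro W _; simp [RR]
  | succ n ih =>
    intro W hW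
    have h1 : HasK j a L W ↔ HasK j a C W := by
      constructor
      · rintro ⟨K, h1, h2, h3⟩
        exact ⟨K, h1, h2, (hW K h1 h2).mp h3⟩
      · rintro ⟨K, h1, h2, h3⟩
        exact ⟨K, h1, h2, (hW K h1 h2).mpr h3⟩
    by_cases h : HasK j a L W
    · have e1 := RR_pos (n := n) h
      have e2 := RR_pos (n := n) (h1.mp h)
      have e3 : ∑ u ∈ W, RR j a L n (W.erase u) = ∑ u ∈ W, RR j a C n (W.erase u) :=
        sum_congr rfl fun u _ => ih (W.erase u) fun K hK hKc =>
          hW K (hK.trans (erase_subset _ _)) hKc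
      rw [e3, ← e2] at e1
      have hn : (n : ℝ) + 2 ≠ 0 := by positivity
      exact mul_left_cancel₀ hn e1
    · rw [RR_neg h, RR_neg (fun h2 => h (h1.mpr h2))]

/-- the recursion over the support -/
theorem RR_supp {j a : ℕ} {C : Finset (Finset V)} {n : ℕ} {W U : Finset V}
    (hW : W.card = n + 1) (hU : U ⊆ W) (h : HasK j a C W) :
    ∑ u ∈ U, RR j a C n (W.erase u) ≤ ((U.card : ℝ) + 1) * RR j a C (n + 1) W := by
  have h1 := RR_pos (n := n) h
  rw [← sum_sdiff hU] at h1
  have h2 : ∑ u ∈ W \ U, RR j a C (n + 1) W ≤ ∑ u ∈ W \ U, RR j a C n (W.erase u) :=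
    sum_le_sum fun u hu => RR_erase n W hW u (mem_sdiff.mp hu).1
  rw [sum_const, nsmul_eq_mul] at h2
  have h3 : ((W \ U).card : ℝ) + U.card = n + 1 := by
    have := card_sdiff_add_card_eq_card hU
    rw [hW] at this
    exact_mod_cast this
  have h4 : ((W \ U).card : ℝ) = n + 1 - U.card := by linarith
  rw [h4] at h2
  linarith

end Pool.Agent.Lib.MP_455133_co.LR
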