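import Mathlib
import Pool.Agent.Lib.MP_455133_co.LR.CoreA
import Pool.Agent.Lib.MP_455133_co.LR.KKR
import Pool.Agent.Lib.MP_455133_co.LR.Step

/-!
The mean completion time of a pruned family.
-/

set_option linter.unusedSectionVars false

namespace Pool.Agent.Lib.MP_455133_co.LR

open Finset

variable {V : Type*} [Fintype V] [DecidableEq V]

/-- a subfamily of the shadow below -/
theorem kk_shadow {p : ℕ} {C : Finset (Finset V)} (hC : ∀ e ∈ C, e.card = p + 2) {x : ℝ}
    (hx : (p : ℝ) + 1 ≤ x)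
    (h : ((p + 1).factorial : ℝ) * ((sh (p + 1) C).card : ℝ) ≤ P0 (p + 1) x) :
    ((p : ℝ) + 2) * C.card ≤ (x - (p + 1)) * (sh (p + 1) C).card := by
  refine KKR_of_subset p C (sh (p + 1) C) (fun e he => (mem_sh.mp he).1) hC ?_ x hx h
  intro e he v hv
  refine mem_sh.mpr ⟨?_, e, he, erase_subset _ _⟩
  rw [card_erase_of_mem hv, hC e he]; rfl

/-- the degrees -/
theorem kk_deg {p : ℕ} {C : Finset (Finset V)} (hC : ∀ e ∈ C, e.card = p + 2) {u : V}
    (hu : u ∈ su C) :
    0 < (((sh (p + 1) C).filter fun S => u ∈ S).card : ℝ) ∧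
    P0 p (((p : ℝ) + 1) * (((C.filter fun e => u ∈ e).card : ℝ) /
      (((sh (p + 1) C).filter fun S => u ∈ S).card : ℝ)) + p) ≤
      (p.factorial : ℝ) * (((sh (p + 1) C).filter fun S => u ∈ S).card : ℝ) := by
  obtain ⟨e, he, hue⟩ := mem_su.mp hu
  have hm : 0 < ((sh (p + 1) C).filter fun S => u ∈ S).card := by
    obtain ⟨S, hS1, hS2, hS3⟩ := exists_subsuperset_card_eq (singleton_subset_iff.mpr hue)
      (n := p + 1) (by rw [card_singleton]; omega) (by rw [hC e he]; omega)
    exact card_pos.mpr ⟨S, mem_filter.mpr ⟨mem_sh.mpr ⟨hS3, e, he, hS2⟩,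
      singleton_subset_iff.mp hS1⟩⟩
  have hd : 0 < (C.filter fun e => u ∈ e).card :=
    card_pos.mpr ⟨e, mem_filter.mpr ⟨he, hue⟩⟩
  have hm' : (0 : ℝ) < (((sh (p + 1) C).filter fun S => u ∈ S).card : ℝ) := by
    exact_mod_cast hm
  have hd' : (0 : ℝ) < ((C.filter fun e => u ∈ e).card : ℝ) := by exact_mod_cast hd
  refine ⟨hm', ?_⟩
  cases p with
  | zero =>
    simp only [P0, Nat.factorial_zero, Nat.cast_one, one_mul]
    exact_mod_cast hm
  | succ q =>
    set d : ℝ := ((C.filter fun e => u ∈ e).card : ℝ) with hdd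
    set m : ℝ := (((sh (q + 1 + 1) C).filter fun S => u ∈ S).card : ℝ) with hmm
    set x : ℝ := (((q + 1 : ℕ) : ℝ) + 1) * (d / m) + ((q + 1 : ℕ) : ℝ) with hxx
    by_contra hlt
    push Not at hlt
    have hxq : ((q + 1 : ℕ) : ℝ) < x := by
      have h0 : 0 < (((q + 1 : ℕ) : ℝ) + 1) * (d / m) := by positivity
      rw [hxx]
      linarith
    -- a smaller value
    have hcont : ∀ᶠ t in nhds x, ((q + 1).factorial : ℝ) * m < P0 (q + 1) t :=
      (continuous_P0 (q + 1)).continuousAt.eventually (lt_mem_nhds hlt)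
    have hgt : ∀ᶠ t in nhds x, ((q + 1 : ℕ) : ℝ) < t := lt_mem_nhds hxq
    obtain ⟨t, ht1, ht2, ht3⟩ : ∃ t, ((q + 1).factorial : ℝ) * m < P0 (q + 1) t ∧
        ((q + 1 : ℕ) : ℝ) < t ∧ t < x := by
      obtain ⟨ε, hε, hball⟩ := Metric.eventually_nhds_iff.mp (hcont.and hgt)
      have h1 := hball (y := x - ε / 2) (by
        rw [Real.dist_eq, show x - ε / 2 - x = -(ε / 2) by ring, abs_neg, abs_of_pos (by
          linarith)]
        linarith)
      exact ⟨x - ε / 2, h1.1, h1.2, by linarith⟩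
    have hlk1 : ∀ e ∈ lk (sh (q + 1 + 1) C) u, e.card = q + 1 := by
      intro S hS
      obtain ⟨h1, h2⟩ := mem_lk.mp hS
      have h3 := (mem_sh.mp h2).1
      rw [card_insert_of_notMem h1] at h3
      omega
    have hlk2 : ∀ e ∈ lk C u, e.card = q + 2 := by
      intro S hS
      obtain ⟨h1, h2⟩ := mem_lk.mp hS
      have h3 := hC _ h2
      rw [card_insert_of_notMem h1] at h3
      omega
    have hkk := KKR_of_subset q (lk C u) (lk (sh (q + 1 + 1) C) u) hlk1 hlk2 (by
      intro S hS v hv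
      obtain ⟨h1, h2⟩ := mem_lk.mp hS
      refine mem_lk.mpr ⟨fun h => h1 (mem_of_mem_erase h), ?_⟩
      refine mem_sh.mpr ⟨?_, insert u S, h2, insert_subset_insert _ (erase_subset _ _)⟩
      rw [card_insert_of_notMem (fun h => h1 (mem_of_mem_erase h)), card_erase_of_mem hv,
        hlk2 S hS]
      rfl) t (by push_cast at ht2; linarith) (by rw [card_lk]; exact ht1.le)
    rw [card_lk, card_lk] at hkk
    change ((q : ℝ) + 2) * d ≤ (t - (q + 1)) * m at hkk
    have h5 : ((q : ℝ) + 2) * d = (x - (q + 1)) * m := by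
      rw [hxx]
      push_cast
      field_simp
      ring
    rw [h5] at hkk
    have h6 : (t - (q + 1)) * m < (x - (q + 1)) * m := mul_lt_mul_of_pos_right (by linarith) hm'
    linarith

section claim

variable {p a : ℕ} {θ ρ : ℝ}

theorem FF_zero : FF (p + 1) ((a : ℝ) - 1) ((a : ℝ) - 1) = 0 := by simp [FF]

theorem continuous_FF (q : ℕ) (ρ : ℝ) : Continuous (FF q ρ) := by
  rw [continuous_iff_continuousAt]
  intro x
  exact (hasDerivAt_FF q ρ x).continuousAt

/-- a value between -/
theorem exists_val {y v : ℝ} (hy : (a : ℝ) - 1 ≤ y) (h0 : 0 ≤ v)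
    (h1 : v ≤ FF (p + 1) ((a : ℝ) - 1) y) :
    ∃ z : ℝ, (a : ℝ) - 1 ≤ z ∧ z ≤ y ∧ FF (p + 1) ((a : ℝ) - 1) z = v := by
  have h := intermediate_value_Icc hy (continuous_FF (p + 1) ((a : ℝ) - 1)).continuousOn
  rw [FF_zero] at h
  obtain ⟨z, hz, hz2⟩ := h ⟨h0, h1⟩
  exact ⟨z, hz.1, hz.2, hz2⟩

/-- pruned families have a nonnegative parameter -/
theorem pruned_pos (hθ : ((p : ℝ) + 2) * θ = a - (p + 2)) {C : Finset (Finset V)}
    (hC : ∀ e ∈ C, e.card = p + 2) (hP : Pruned p a C) :
    ((sh (p + 1) C).card : ℝ) ≤ ((p : ℝ) + 2) * (C.card - θ * (sh (p + 1) C).card) := by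
  have h1 := pruned_card hC hP
  have h2 : ((a : ℝ) + 1) * (sh (p + 1) C).card ≤
      ((p : ℝ) + 2) * C.card + ((p : ℝ) + 2) * (sh (p + 1) C).card := by exact_mod_cast h1
  have h3 : ((p : ℝ) + 2) * (C.card - θ * (sh (p + 1) C).card) =
      ((p : ℝ) + 2) * C.card - (a - (p + 2)) * (sh (p + 1) C).card := by
    rw [← hθ]; ring
  rw [h3]
  linarith

/-- if there is a complete set then the parameter is at least `a` -/
theorem param_ge (ha : p + 3 ≤ a) (hθ : ((p : ℝ) + 2) * θ = a - (p + 2))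
    {C : Finset (Finset V)} (hC : ∀ e ∈ C, e.card = p + 2) (hP : Pruned p a C) {K : Finset V}
    (hK : K.card = a) (hKC : isK (p + 2) C K) {y : ℝ} (hy : (a : ℝ) - 1 ≤ y)
    (hF : FF (p + 1) ((a : ℝ) - 1) y =
      ((p + 2).factorial : ℝ) * (C.card - θ * (sh (p + 1) C).card)) : (a : ℝ) ≤ y := by
  have h1 := pruned_pos hθ hC hP
  have h2 : a.choose (p + 1) ≤ (sh (p + 1) C).card := by
    rw [← hK, ← card_powersetCard]
    apply card_le_card
    intro S hS
    rw [mem_powersetCard] at hS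
    obtain ⟨R, hR1, hR2, hR3⟩ := exists_subsuperset_card_eq hS.1
      (n := p + 2) (by rw [hS.2]; omega) (by rw [hK]; omega)
    exact mem_sh.mpr ⟨hS.2, R, hKC R hR2 hR3, hR1⟩
  have h3 : P0 (p + 1) (a : ℝ) ≤ FF (p + 1) ((a : ℝ) - 1) y := by
    rw [P0_nat, hF]
    have f2 : ((p + 2).factorial : ℝ) = (p + 2) * ((p + 1).factorial : ℝ) := by
      rw [Nat.factorial_succ (p + 1)]; push_cast; ring
    have h4 : ((a.choose (p + 1) : ℕ) : ℝ) ≤ ((sh (p + 1) C).card : ℝ) := by exact_mod_cast h2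
    have hf : (0 : ℝ) < ((p + 1).factorial : ℝ) := by exact_mod_cast Nat.factorial_pos _
    rw [f2]
    calc ((p + 1).factorial : ℝ) * (a.choose (p + 1) : ℝ)
        ≤ ((p + 1).factorial : ℝ) * (((p : ℝ) + 2) * (C.card - θ * (sh (p + 1) C).card)) :=
          mul_le_mul_of_nonneg_left (h4.trans h1) hf.le
      _ = _ := by ring
  by_contra hlt
  push Not at hlt
  have ha' : (p : ℝ) + 3 ≤ a := by exact_mod_cast ha
  have h4 : P0 (p + 1) y ≤ P0 (p + 1) (a : ℝ) := P0_mono (by push_cast; linarith) hlt.le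
  have h5 : 0 < P0 (p + 1) (a : ℝ) := P0_pos (by push_cast; linarith)
  have h6 : 0 ≤ P0 (p + 1) y := (P_nonneg (by push_cast; linarith)).1
  have h7 : FF (p + 1) ((a : ℝ) - 1) y < P0 (p + 1) (a : ℝ) := by
    unfold FF
    have h8 : y - ((a : ℝ) - 1) < 1 := by linarith
    have h9 : 0 ≤ y - ((a : ℝ) - 1) := by linarith
    calc P0 (p + 1) y * (y - ((a : ℝ) - 1)) ≤ P0 (p + 1) (a : ℝ) * (y - ((a : ℝ) - 1)) :=
          mul_le_mul_of_nonneg_right h4 h9
      _ < P0 (p + 1) (a : ℝ) * 1 := mul_lt_mul_of_pos_left h8 h5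
      _ = P0 (p + 1) (a : ℝ) := mul_one _
  linarith

/-- the shadow is at least as large as that of a block -/
theorem shadow_ge (ha : p + 3 ≤ a) (hθ : ((p : ℝ) + 2) * θ = a - (p + 2))
    {C : Finset (Finset V)} (hC : ∀ e ∈ C, e.card = p + 2) {y : ℝ} (hy : (a : ℝ) ≤ y)
    (hF : FF (p + 1) ((a : ℝ) - 1) y =
      ((p + 2).factorial : ℝ) * (C.card - θ * (sh (p + 1) C).card)) :
    P0 (p + 1) y ≤ ((p + 1).factorial : ℝ) * (sh (p + 1) C).card := by
  by_contra hlt
  push Not at hlt
  have ha' : (p : ℝ) + 3 ≤ a := by exact_mod_cast ha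
  have h1 := kk_shadow hC (x := y) (by linarith) hlt.le
  have hf : (0 : ℝ) < ((p + 1).factorial : ℝ) := by exact_mod_cast Nat.factorial_pos _
  have f2 : ((p + 2).factorial : ℝ) = (p + 2) * ((p + 1).factorial : ℝ) := by
    rw [Nat.factorial_succ (p + 1)]; push_cast; ring
  have h2 : FF (p + 1) ((a : ℝ) - 1) y ≤
      ((p + 1).factorial : ℝ) * (sh (p + 1) C).card * (y - (a - 1)) := by
    rw [hF, f2]
    have h3 : ((p : ℝ) + 2) * ((p + 1).factorial : ℝ) * (C.card - θ * (sh (p + 1) C).card) =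
        ((p + 1).factorial : ℝ) * (((p : ℝ) + 2) * C.card -
          (((p : ℝ) + 2) * θ) * (sh (p + 1) C).card) := by ring
    rw [h3, hθ]
    have h4 := mul_le_mul_of_nonneg_left h1 hf.le
    nlinarith
  have h3 : ((p + 1).factorial : ℝ) * (sh (p + 1) C).card * (y - (a - 1)) <
      P0 (p + 1) y * (y - (a - 1)) := mul_lt_mul_of_pos_right hlt (by linarith)
  unfold FF at h2
  linarith

/-- The mean completion time of a pruned family. -/
theorem core_claim (ha : p + 3 ≤ a) (hθ : ((p : ℝ) + 2) * θ = a - (p + 2))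
    (hθ2 : ((p : ℝ) + 3) / 2 * (p + 1) ≤ θ) : ∀ (N : ℕ) (C : Finset (Finset V)), C.card = N →
    (∀ e ∈ C, e.card = p + 2) → Pruned p a C → ∀ y : ℝ, (a : ℝ) - 1 ≤ y →
    FF (p + 1) ((a : ℝ) - 1) y =
      ((p + 2).factorial : ℝ) * (C.card - θ * (sh (p + 1) C).card) →
    ∀ W : Finset V, su C ⊆ W → (a : ℝ) / (y + 1) ≤ RR (p + 2) a C W.card W := by
  have ha' : (p : ℝ) + 3 ≤ a := by exact_mod_cast ha
  have hp0 : (0 : ℝ) ≤ p := Nat.cast_nonneg _
  intro N
  induction N using Nat.strong_induction_on with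
  | _ N ih =>
    intro C hN hC hP y hy hF W hW
    by_cases hK : HasK (p + 2) a C W
    swap
    · rw [RR_neg hK, div_le_one (by linarith)]
      linarith
    obtain ⟨K, hKW, hKc, hKC⟩ := hK
    have hK : HasK (p + 2) a C W := ⟨K, hKW, hKc, hKC⟩
    have hya : (a : ℝ) ≤ y := param_ge ha hθ hC hP hKc hKC hy hF
    obtain ⟨n, hn⟩ : ∃ n, W.card = n + 1 := by
      have := card_le_card hKW
      exact ⟨W.card - 1, by omega⟩
    have hapos : (0 : ℝ) < a := by linarith
    set d : V → ℝ := fun u => ((C.filter fun e => u ∈ e).card : ℝ) with hd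
    set m : V → ℝ := fun u => (((sh (p + 1) C).filter fun S => u ∈ S).card : ℝ) with hm
    have hdpos : ∀ u ∈ su C, θ * m u < d u := by
      intro u hu
      have h1 := pruned_deg hC hP u
      have h2 : ((a : ℝ) + 1) * m u ≤ ((p : ℝ) + 1) * d u + ((p : ℝ) + 2) * m u := by
        simp only [hm, hd]
        exact_mod_cast h1
      have h3 : 0 < m u := (kk_deg hC hu).1
      have h4 : (a : ℝ) = ((p : ℝ) + 2) * θ + (p + 2) := by linarith
      have h5 : ((p : ℝ) + 1) * (θ * m u) < ((p : ℝ) + 1) * d u := by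
        have h6 : 0 ≤ θ := (theta_nonneg ha' hθ).le
        nlinarith
      exact lt_of_mul_lt_mul_left h5 (by positivity)
    -- each deletion
    have hstep : ∀ u ∈ su C, ∃ z : ℝ, (a : ℝ) - 1 ≤ z ∧ z ≤ y ∧
        FF (p + 1) ((a : ℝ) - 1) y - FF (p + 1) ((a : ℝ) - 1) z =
          ((p + 2).factorial : ℝ) * (d u - θ * m u) ∧
        (a : ℝ) / (z + 1) ≤ RR (p + 2) a C n (W.erase u) := by
      intro u hu
      have huW : u ∈ W := hW hu
      obtain ⟨C', h1, h2, h3⟩ := exists_pruned ha _ (del C u) rfl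
        (fun e he => hC e (mem_filter.mp he).1)
      have hC' : ∀ e ∈ C', e.card = p + 2 := fun e he => hC e (mem_filter.mp (h1 he)).1
      have hlt : C'.card < N := by
        refine lt_of_le_of_lt (card_le_card h1) ?_
        rw [← hN]
        apply card_lt_card
        rw [del, filter_ssubset]
        obtain ⟨e, he, hue⟩ := mem_su.mp hu
        exact ⟨e, he, fun h => h hue⟩
      -- the parameters
      have hf : (0 : ℝ) < ((p + 2).factorial : ℝ) := by exact_mod_cast Nat.factorial_pos _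
      have q1 : (0 : ℝ) ≤ C'.card - θ * (sh (p + 1) C').card := by
        have h4 := pruned_pos hθ hC' h2
        have h5 : (0 : ℝ) ≤ ((sh (p + 1) C').card : ℝ) := Nat.cast_nonneg _
        by_contra h6
        push Not at h6
        nlinarith
      have q2 : (C'.card : ℝ) - θ * (sh (p + 1) C').card ≤
          (C.card - θ * (sh (p + 1) C).card) - (d u - θ * m u) := by
        have h4 := loss h1 (fun e he => hC e (mem_filter.mp he).1) (nb_del_ge hC hP u)
        have h5 := del_card (C := C) u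
        have h6 := sh_del_card ha hC hP u
        have h4' : (a : ℝ) * (sh (p + 1) (del C u)).card + ((p : ℝ) + 2) * C'.card +
            ((p : ℝ) + 2) * (sh (p + 1) C').card ≤ (a : ℝ) * (sh (p + 1) C').card +
            ((p : ℝ) + 2) * (del C u).card + ((p : ℝ) + 2) * (sh (p + 1) (del C u)).card := by
          exact_mod_cast h4
        have h5' : ((del C u).card : ℝ) + d u = C.card := by
          simp only [hd]
          exact_mod_cast h5
        have h6' : ((sh (p + 1) (del C u)).card : ℝ) + m u = (sh (p + 1) C).card := by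
          simp only [hm]
          exact_mod_cast h6
        have h7 : ((del C u).card : ℝ) = C.card - d u := by linarith
        have h8 : ((sh (p + 1) (del C u)).card : ℝ) = (sh (p + 1) C).card - m u := by linarith
        rw [h7, h8] at h4'
        have h9 : (a : ℝ) = ((p : ℝ) + 2) * θ + (p + 2) := by linarith
        rw [h9] at h4'
        have h10 : ((p : ℝ) + 2) * ((C'.card : ℝ) - θ * (sh (p + 1) C').card) ≤
            ((p : ℝ) + 2) * ((C.card - θ * (sh (p + 1) C).card) - (d u - θ * m u)) := by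
          linarith
        exact le_of_mul_le_mul_left h10 (by positivity)
      have q3 := hdpos u hu
      obtain ⟨z, hz1, hz2, hz3⟩ := exists_val (p := p) (a := a) (y := y)
        (v := ((p + 2).factorial : ℝ) *
          ((C.card - θ * (sh (p + 1) C).card) - (d u - θ * m u))) hy
        (mul_nonneg hf.le (q1.trans q2)) (by
          rw [hF]
          apply mul_le_mul_of_nonneg_left _ hf.le
          linarith)
      obtain ⟨z', hz1', hz2', hz3'⟩ := exists_val (p := p) (a := a) (y := z)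
        (v := ((p + 2).factorial : ℝ) * (C'.card - θ * (sh (p + 1) C').card)) hz1
        (mul_nonneg hf.le q1) (by
          rw [hz3]
          exact mul_le_mul_of_nonneg_left q2 hf.le)
      refine ⟨z, hz1, hz2, ?_, ?_⟩
      · rw [hz3, hF]; ring
      · have hsuC' : su C' ⊆ W.erase u := by
          intro x hx
          obtain ⟨e, he, hxe⟩ := mem_su.mp hx
          have h4 := mem_filter.mp (h1 he)
          rw [mem_erase]
          exact ⟨fun h => h4.2 (h ▸ hxe), hW (mem_su.mpr ⟨e, h4.1, hxe⟩)⟩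
        have h4 := ih _ hlt C' rfl hC' h2 z' hz1' hz3' (W.erase u) hsuC'
        have h5 : (W.erase u).card = n := by rw [card_erase_of_mem huW, hn]; rfl
        rw [h5] at h4
        have h6 : RR (p + 2) a C' n (W.erase u) = RR (p + 2) a C n (W.erase u) := by
          apply RR_congr
          intro K' hK' hK'c
          constructor
          · intro h7 R hR hRc
            exact (mem_filter.mp (h1 (h7 R hR hRc))).1
          · intro h7
            refine h3 K' hK'c ?_
            intro R hR hRc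
            rw [del, mem_filter]
            exact ⟨h7 R hR hRc, fun h8 => notMem_erase u W (hK' (hR h8))⟩
        rw [h6] at h4
        refine le_trans ?_ h4
        apply div_le_div_of_nonneg_left hapos.le (by linarith) (by linarith)
    choose! z hz1 hz2 hz3 hz4 using hstep
    -- the numerical inequality
    set K' : ℝ := FF (p + 1) ((a : ℝ) - 1) y - FF (p + 1) ((a : ℝ) - 1) (y - 1) with hK'
    set c' : ℝ := (y + 1) / y * (K' / FF1 (p + 1) ((a : ℝ) - 1) (y - 1)) - 1 with hc'
    have hnum := step_num (p := p) (a := (a : ℝ)) (θ := θ) (ρ := p + (p + 1) * θ) (y := y)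
      (K := K') (c' := c') (su C) d m (e := (C.card : ℝ)) (M := ((sh (p + 1) C).card : ℝ))
      ha' hθ rfl hθ2 hya (fun u hu => (kk_deg hC hu).1) hdpos (fun u hu => (kk_deg hC hu).2)
      (by
        have := sum_d hC
        simp only [hd]
        exact_mod_cast this)
      (by
        have := sum_m (p := p) (C := C)
        simp only [hm]
        exact_mod_cast this) hF (shadow_ge ha hθ hC hya hF) rfl rfl
    have hq : ((p + 1 : ℕ) : ℝ) < (a : ℝ) - 1 + 1 := by push_cast; linarith
    have hherm : ∀ u ∈ su C, (((p + 2).factorial : ℝ) * (d u - θ * m u)) *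
        (1 - c' + c' * ((((p + 2).factorial : ℝ) * (d u - θ * m u)) / K')) / (y * (y + 1) * K') ≤
        1 / (z u + 1) - 1 / (y + 1) := by
      intro u hu
      have h1 := herm (f := FF (p + 1) ((a : ℝ) - 1)) (f1 := FF1 (p + 1) ((a : ℝ) - 1))
        (f2 := FF2 (p + 1) ((a : ℝ) - 1)) (f3 := FF3 (p + 1) ((a : ℝ) - 1))
        (c := (a : ℝ) - 1) (y := y) (by linarith) (by linarith)
        (fun x => hasDerivAt_FF _ _ x) (fun x => hasDerivAt_FF1 _ _ x)
        (fun x => hasDerivAt_FF2 _ _ x) (fun x hx => FF1_pos hq hx)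
        (fun x hx => FF2_nonneg hq hx) (fun x hx => FF_ineq hq hx) hK' hc' (hz1 u hu) (hz2 u hu)
      rw [hz3 u hu] at h1
      refine le_trans (le_of_eq ?_) h1
      ring
    have hKpos : 0 < K' := (K_pos ha' hθ rfl hya hK').2.2
    have hypos : 0 < y := by linarith
    have hsum := sum_le_sum hherm
    rw [← sum_div] at hsum
    have hsum2 : 1 / (y + 1) ≤ ∑ u ∈ su C, (1 / (z u + 1) - 1 / (y + 1)) := by
      refine le_trans ?_ hsum
      rw [div_le_div_iff₀ (by linarith) (by positivity)]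
      nlinarith
    have hRR := RR_supp hn hW hK
    have h1 : ∑ u ∈ su C, (a : ℝ) / (z u + 1) ≤ ∑ u ∈ su C, RR (p + 2) a C n (W.erase u) :=
      sum_le_sum fun u hu => hz4 u hu
    have h2 : ∑ u ∈ su C, (a : ℝ) / (z u + 1) =
        a * ∑ u ∈ su C, (1 / (z u + 1) - 1 / (y + 1)) + (su C).card * (a / (y + 1)) := by
      rw [sum_sub_distrib, mul_sub, mul_sum, sum_const, nsmul_eq_mul]
      have h3 : ∀ u ∈ su C, (a : ℝ) * (1 / (z u + 1)) = a / (z u + 1) := by
        intro u _; ring
      rw [sum_congr rfl h3]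
      ring
    have h3 : (a : ℝ) * (1 / (y + 1)) ≤ a * ∑ u ∈ su C, (1 / (z u + 1) - 1 / (y + 1)) :=
      mul_le_mul_of_nonneg_left hsum2 hapos.le
    rw [hn]
    have h4 : (((su C).card : ℝ) + 1) * (a / (y + 1)) ≤
        (((su C).card : ℝ) + 1) * RR (p + 2) a C (n + 1) W := by
      have h5 : (a : ℝ) * (1 / (y + 1)) = a / (y + 1) := by ring
      rw [h5] at h3
      linarith
    exact le_of_mul_le_mul_left h4 (by positivity)

end claim

end Pool.Agent.Lib.MP_455133_co.LR
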