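import Mathlib
import Pool.Agent.Lib.MP_455133_co.LR.Pot

/-!
The case of equality: the hypergraph is a union of disjoint complete blocks.
-/

namespace Pool.Agent.Lib.MP_455133_co.LR

open Finset

variable {V : Type*} [Fintype V] [DecidableEq V]

theorem eq_TT {B : Finset (Finset V)} {a k c : ℕ} (hB : ∀ e ∈ B, e.card = k + 2)
    {γ : ℝ} (hγ : 0 < γ)
    (h : ∀ m : ℕ, 1 ≤ m → γ * m ≤ ((m + (k + 1 + a)).choose (k + 2) : ℝ))
    (hdeg : ∀ S ∈ sh (k + 1) B, a < (nb B S).card)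
    (hc : ∀ D : Finset V, D.card < c → ∃ A : Finset V, A.card = k + 2 + a ∧
      isK (k + 2) B A ∧ Disjoint A D)
    (hle : (B.card : ℝ) ≤ γ * c) {v : V} (hv : v ∈ su B) : TT B {v} k 0 ≤ 1 := by
  have hf : (0 : ℝ) < ((k + 1).factorial : ℝ) := by exact_mod_cast Nat.factorial_pos _
  have hP : ((k + 1).factorial : ℝ) * Ph a k B ≤ c := by
    have h1 := (Ph_le hB hγ.le h).trans hle
    exact le_of_mul_le_mul_left h1 hγ
  have hdel : ∀ u : V, (c : ℝ) - 1 ≤ ((k + 1).factorial : ℝ) * Ph a k (del B u) := by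
    intro u
    obtain ⟨D, hD1, hD2⟩ := exists_hit a k _ (del B u) rfl
      (fun e he => hB e (mem_filter.mp he).1)
    have h1 : c ≤ (insert u D).card := by
      by_contra hlt
      push Not at hlt
      obtain ⟨A, hA, hAK, hdis⟩ := hc _ hlt
      rw [disjoint_insert_right] at hdis
      refine hD2 A hA ?_ hdis.2
      intro R hR hRc
      rw [del, mem_filter]
      exact ⟨hAK R hR hRc, fun h => hdis.1 (hR h)⟩
    have h2 := h1.trans (card_insert_le u D)
    have h3 : (c : ℝ) ≤ D.card + 1 := by exact_mod_cast h2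
    linarith
  have h1 : ∑ v ∈ su B, TT B {v} k 0 ≤ ∑ v ∈ su B, (1 : ℝ) := by
    rw [sum_TT]
    refine (mul_le_mul_of_nonneg_left (sum_drop hB hdeg) hf.le).trans ?_
    rw [mul_sum]
    apply sum_le_sum
    intro u _
    have := hdel u
    have h3 : ((k + 1).factorial : ℝ) * (Ph a k B - Ph a k (del B u)) =
      ((k + 1).factorial : ℝ) * Ph a k B - ((k + 1).factorial : ℝ) * Ph a k (del B u) := by
      ring
    linarith
  by_contra hlt
  push Not at hlt
  have h2 : ∀ v ∈ su B, (1 : ℝ) ≤ TT B {v} k 0 := by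
    intro v hv
    obtain ⟨e, he, hve⟩ := mem_su.mp hv
    have := TT_ge hB k 0 {v} (by rw [card_singleton]; omega)
      ⟨e, he, singleton_subset_iff.mpr hve⟩
    rwa [wt_zero] at this
  have h3 := sum_lt_sum h2 ⟨v, hv, hlt⟩
  linarith

theorem eq_nb {B : Finset (Finset V)} {k : ℕ} (hB : ∀ e ∈ B, e.card = k + 2)
    {v : V} (hv : v ∈ su B) (hTT : TT B {v} k 0 ≤ 1) :
    ∀ (i : ℕ) (P : Finset V), i ≤ k → P.card = i + 1 → v ∈ P → P ⊆ insert v (nb B {v}) →
      (∃ e ∈ B, P ⊆ e) ∧ nb B P = nb B {v} \ P ∧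
        TT B P (k - i) i ≤ wt i (nb B P).card := by
  intro i
  induction i with
  | zero =>
    intro P _ hP hvP _
    have hP' : P = {v} := by
      obtain ⟨w, hw⟩ := card_eq_one.mp hP
      rw [hw] at hvP ⊢
      rw [mem_singleton.mp hvP]
    subst hP'
    obtain ⟨e, he, hve⟩ := mem_su.mp hv
    refine ⟨⟨e, he, singleton_subset_iff.mpr hve⟩, ?_, ?_⟩
    · symm
      rw [Finset.sdiff_eq_self_iff_disjoint, disjoint_singleton_right]
      intro h
      exact (mem_nb.mp h).1 (mem_singleton_self v)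
    · rw [wt_zero]; exact hTT
  | succ i ih =>
    intro P hik hP hvP hPQ
    have h1 : (P.erase v).Nonempty := by
      rw [← card_pos, card_erase_of_mem hvP, hP]; omega
    obtain ⟨x, hx⟩ := h1
    rw [mem_erase] at hx
    have hxc : (P.erase x).card = i + 1 := by rw [card_erase_of_mem hx.2, hP]; omega
    obtain ⟨h2, h3, h4⟩ := ih (P.erase x) (by omega) hxc
      (mem_erase.mpr ⟨hx.1.symm, hvP⟩) ((erase_subset _ _).trans hPQ)
    have hxnb : x ∈ nb B {v} := by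
      have := hPQ hx.2
      rw [mem_insert] at this
      exact this.resolve_left hx.1
    have hxP : x ∈ nb B (P.erase x) := by
      rw [h3, mem_sdiff]
      exact ⟨hxnb, notMem_erase _ _⟩
    obtain ⟨j, hj⟩ : ∃ j, k - i = j + 1 := ⟨k - i - 1, by omega⟩
    rw [hj] at h4
    obtain ⟨h5, h6⟩ := TT_eq hB j i (P.erase x) (by rw [hxc]; omega) h2 h4 hxP
    rw [insert_erase hx.2] at h5 h6
    refine ⟨?_, ?_, ?_⟩
    · have := (mem_nb.mp hxP).2
      rwa [insert_erase hx.2] at this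
    · rw [h5, h3]
      ext y
      simp only [mem_erase, mem_sdiff, ne_eq, not_and]
      constructor
      · rintro ⟨h7, h8, h9⟩
        exact ⟨h8, fun h => h9 h7 h⟩
      · rintro ⟨h7, h8⟩
        exact ⟨fun h => h8 (h ▸ hx.2), h7, fun _ => h8⟩
    · rw [show k - (i + 1) = j by omega]
      exact h6

/-- the block of `v` -/
def QQ (B : Finset (Finset V)) (v : V) : Finset V := insert v (nb B {v})

theorem eq_mem {B : Finset (Finset V)} {k : ℕ} (hB : ∀ e ∈ B, e.card = k + 2)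
    {v : V} (hv : v ∈ su B) (hTT : TT B {v} k 0 ≤ 1) {R : Finset V} (hR : R.card = k + 2)
    (hvR : v ∈ R) (hRQ : R ⊆ QQ B v) : R ∈ B := by
  have h1 : (R.erase v).Nonempty := by
    rw [← card_pos, card_erase_of_mem hvR, hR]; omega
  obtain ⟨x, hx⟩ := h1
  rw [mem_erase] at hx
  have hxc : (R.erase x).card = k + 1 := by rw [card_erase_of_mem hx.2, hR]; omega
  obtain ⟨-, h3, -⟩ := eq_nb hB hv hTT k (R.erase x) le_rfl hxc
    (mem_erase.mpr ⟨hx.1.symm, hvR⟩) ((erase_subset _ _).trans hRQ)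
  have hxnb : x ∈ nb B {v} := by
    have := hRQ hx.2
    rw [QQ, mem_insert] at this
    exact this.resolve_left hx.1
  have hxP : x ∈ nb B (R.erase x) := by
    rw [h3, mem_sdiff]
    exact ⟨hxnb, notMem_erase _ _⟩
  rw [nb_iff hB hxc, insert_erase hx.2] at hxP
  exact hxP.2

theorem edge_subset_QQ {B : Finset (Finset V)} {e : Finset V} (he : e ∈ B) {v : V}
    (hv : v ∈ e) : e ⊆ QQ B v := by
  intro y hy
  rw [QQ, mem_insert]
  by_cases h : y = v
  · exact Or.inl h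
  · right
    rw [mem_nb]
    refine ⟨by rwa [mem_singleton], e, he, ?_⟩
    exact insert_subset hy (singleton_subset_iff.mpr hv)

theorem mem_su_of_nb {B : Finset (Finset V)} {S : Finset V} {x : V} (hx : x ∈ nb B S) :
    x ∈ su B := by
  obtain ⟨-, e, he, h⟩ := mem_nb.mp hx
  exact mem_su.mpr ⟨e, he, h (mem_insert_self _ _)⟩

theorem card_QQ {B : Finset (Finset V)} {a k : ℕ} (hB : ∀ e ∈ B, e.card = k + 2)
    (hdeg : ∀ S ∈ sh (k + 1) B, a < (nb B S).card)
    {v : V} (hv : v ∈ su B) (hTT : TT B {v} k 0 ≤ 1) : k + 2 + a ≤ (QQ B v).card := by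
  obtain ⟨e, he, hve⟩ := mem_su.mp hv
  obtain ⟨S, hS1, hS2, hS3⟩ := exists_subsuperset_card_eq (singleton_subset_iff.mpr hve)
    (n := k + 1) (by rw [card_singleton]; omega) (by rw [hB e he]; omega)
  have hSQ : S ⊆ QQ B v := hS2.trans (edge_subset_QQ he hve)
  obtain ⟨-, h3, -⟩ := eq_nb hB hv hTT k S le_rfl hS3 (singleton_subset_iff.mp hS1) hSQ
  have h4 := hdeg S (mem_sh.mpr ⟨hS3, e, he, hS2⟩)
  have h5 : S ∪ nb B S ⊆ QQ B v := by
    apply union_subset hSQ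
    rw [h3]
    exact sdiff_subset.trans (subset_insert _ _)
  have h6 : Disjoint S (nb B S) := by
    rw [disjoint_left]
    intro x hx hx'
    exact (mem_nb.mp hx').1 hx
  have h7 := card_le_card h5
  rw [card_union_of_disjoint h6, hS3] at h7
  omega

theorem QQ_sub {B : Finset (Finset V)} {a k : ℕ} (hk : 1 ≤ k) (hB : ∀ e ∈ B, e.card = k + 2)
    (hdeg : ∀ S ∈ sh (k + 1) B, a < (nb B S).card)
    {v : V} (hv : v ∈ su B) (hTT : TT B {v} k 0 ≤ 1) {x : V} (hx : x ∈ QQ B v) :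
    QQ B v ⊆ QQ B x := by
  intro y hy
  by_cases hyx : y = x
  · rw [hyx, QQ]; exact mem_insert_self _ _
  have h1 : ({v, x, y} : Finset V) ⊆ QQ B v := by
    intro z hz
    simp only [mem_insert, mem_singleton] at hz
    rcases hz with rfl | rfl | rfl
    · rw [QQ]; exact mem_insert_self _ _
    · exact hx
    · exact hy
  obtain ⟨R, hR1, hR2, hR3⟩ := exists_subsuperset_card_eq h1 (n := k + 2)
    ((card_le_three).trans (by omega)) (by have := card_QQ hB hdeg hv hTT; omega)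
  have hRB := eq_mem hB hv hTT hR3 (hR1 (by simp)) hR2
  rw [QQ, mem_insert]
  right
  rw [mem_nb]
  refine ⟨by rwa [mem_singleton], R, hRB, ?_⟩
  exact insert_subset (hR1 (by simp)) (singleton_subset_iff.mpr (hR1 (by simp)))

theorem mem_QQ_symm {B : Finset (Finset V)} {v x : V} (hx : x ∈ QQ B v) : v ∈ QQ B x := by
  rw [QQ, mem_insert] at hx ⊢
  rcases hx with rfl | hx
  · exact Or.inl rfl
  · by_cases h : v = x
    · exact Or.inl h
    · right
      rw [mem_nb] at hx ⊢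
      obtain ⟨-, e, he, h2⟩ := hx
      refine ⟨by rwa [mem_singleton], e, he, ?_⟩
      intro z hz
      apply h2
      simp only [mem_insert, mem_singleton] at hz ⊢
      tauto

theorem structure_eq {B : Finset (Finset V)} {a k c : ℕ} (hk : 1 ≤ k)
    (hB : ∀ e ∈ B, e.card = k + 2) {γ : ℝ} (hγ : 0 < γ)
    (h : ∀ m : ℕ, 1 ≤ m → γ * m ≤ ((m + (k + 1 + a)).choose (k + 2) : ℝ))
    (hdeg : ∀ S ∈ sh (k + 1) B, a < (nb B S).card)
    (hc : ∀ D : Finset V, D.card < c → ∃ A : Finset V, A.card = k + 2 + a ∧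
      isK (k + 2) B A ∧ Disjoint A D)
    (hle : (B.card : ℝ) ≤ γ * c) :
    ∃ 𝒬 : Finset (Finset V), (∀ Q ∈ 𝒬, k + 2 + a ≤ Q.card ∧
        γ * ((Q.card - (k + 1 + a) : ℕ) : ℝ) = (Q.card.choose (k + 2) : ℝ)) ∧
      ∑ Q ∈ 𝒬, Q.card ≤ Fintype.card V ∧ ∑ Q ∈ 𝒬, (Q.card - (k + 1 + a)) = c := by
  have hTT : ∀ v ∈ su B, TT B {v} k 0 ≤ 1 := fun v hv => eq_TT hB hγ h hdeg hc hle hv
  have hsuQ : ∀ v ∈ su B, ∀ x ∈ QQ B v, x ∈ su B := by
    intro v hv x hx
    rw [QQ, mem_insert] at hx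
    rcases hx with rfl | hx
    · exact hv
    · exact mem_su_of_nb hx
  have hQeq : ∀ v ∈ su B, ∀ x ∈ QQ B v, QQ B x = QQ B v := by
    intro v hv x hx
    apply Subset.antisymm
    · exact QQ_sub hk hB hdeg (hsuQ v hv x hx) (hTT x (hsuQ v hv x hx)) (mem_QQ_symm hx)
    · exact QQ_sub hk hB hdeg hv (hTT v hv) hx
  set 𝒬 : Finset (Finset V) := (su B).image (QQ B) with h𝒬
  have hdisj : ∀ Q ∈ 𝒬, ∀ Q' ∈ 𝒬, Q ≠ Q' → Disjoint Q Q' := by
    intro Q hQ Q' hQ' hne
    rw [h𝒬, mem_image] at hQ hQ'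
    obtain ⟨v, hv, rfl⟩ := hQ
    obtain ⟨v', hv', rfl⟩ := hQ'
    rw [disjoint_left]
    intro x hx hx'
    exact hne ((hQeq v hv x hx).symm.trans (hQeq v' hv' x hx'))
  have hcard : ∀ Q ∈ 𝒬, k + 2 + a ≤ Q.card := by
    intro Q hQ
    rw [h𝒬, mem_image] at hQ
    obtain ⟨v, hv, rfl⟩ := hQ
    exact card_QQ hB hdeg hv (hTT v hv)
  -- the edges
  have hE : 𝒬.biUnion (fun Q => powersetCard (k + 2) Q) ⊆ B := by
    intro R hR
    rw [mem_biUnion] at hR
    obtain ⟨Q, hQ, hR⟩ := hR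
    rw [h𝒬, mem_image] at hQ
    obtain ⟨v, hv, rfl⟩ := hQ
    rw [mem_powersetCard] at hR
    obtain ⟨x, hx⟩ : R.Nonempty := by rw [← card_pos, hR.2]; omega
    have hxQ := hR.1 hx
    have hxs := hsuQ v hv x hxQ
    exact eq_mem hB hxs (hTT x hxs) hR.2 hx (by rw [hQeq v hv x hxQ]; exact hR.1)
  have hEc : ∑ Q ∈ 𝒬, (Q.card.choose (k + 2) : ℝ) ≤ B.card := by
    have h1 := card_le_card hE
    rw [card_biUnion] at h1
    · simp only [card_powersetCard] at h1
      exact_mod_cast h1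
    · intro Q hQ Q' hQ' hne
      change Disjoint (powersetCard (k + 2) Q) (powersetCard (k + 2) Q')
      rw [disjoint_left]
      intro R hR hR'
      rw [mem_powersetCard] at hR hR'
      obtain ⟨x, hx⟩ : R.Nonempty := by rw [← card_pos, hR.2]; omega
      exact disjoint_left.mp (hdisj Q hQ Q' hQ' hne) (hR.1 hx) (hR'.1 hx)
  -- the hitting set
  have hD : ∀ Q ∈ 𝒬, ∃ D : Finset V, D ⊆ Q ∧ D.card = Q.card - (k + 1 + a) := by
    intro Q _
    exact exists_subset_card_eq (Nat.sub_le _ _)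
  choose! D hD1 hD2 using hD
  have hcD : c ≤ ∑ Q ∈ 𝒬, (Q.card - (k + 1 + a)) := by
    by_contra hlt
    push Not at hlt
    have h1 : (𝒬.biUnion D).card < c := by
      refine lt_of_le_of_lt (card_biUnion_le.trans ?_) hlt
      exact sum_le_sum fun Q hQ => (hD2 Q hQ).le
    obtain ⟨A, hA, hAK, hdis⟩ := hc _ h1
    obtain ⟨v, hv⟩ : A.Nonempty := by rw [← card_pos, hA]; omega
    have hAsub : ∀ y ∈ A, ∃ R ∈ B, v ∈ R ∧ y ∈ R := by
      intro y hy
      have h2 : ({v, y} : Finset V) ⊆ A := by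
        intro z hz
        simp only [mem_insert, mem_singleton] at hz
        rcases hz with rfl | rfl
        · exact hv
        · exact hy
      obtain ⟨R, hR1, hR2, hR3⟩ := exists_subsuperset_card_eq h2 (n := k + 2)
        (card_le_two.trans (by omega)) (by omega)
      exact ⟨R, hAK R hR2 hR3, hR1 (by simp), hR1 (by simp)⟩
    have hvs : v ∈ su B := by
      obtain ⟨R, hR, hvR, -⟩ := hAsub v hv
      exact mem_su.mpr ⟨R, hR, hvR⟩
    have hAQ : A ⊆ QQ B v := by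
      intro y hy
      obtain ⟨R, hR, hvR, hyR⟩ := hAsub y hy
      exact edge_subset_QQ hR hvR hyR
    have hQ𝒬 : QQ B v ∈ 𝒬 := by rw [h𝒬]; exact mem_image_of_mem _ hvs
    have h3 : A ⊆ QQ B v \ D (QQ B v) := by
      intro y hy
      rw [mem_sdiff]
      refine ⟨hAQ hy, fun hyD => ?_⟩
      exact disjoint_left.mp hdis hy (mem_biUnion.mpr ⟨_, hQ𝒬, hyD⟩)
    have h4 := card_le_card h3
    rw [card_sdiff_of_subset (hD1 _ hQ𝒬), hD2 _ hQ𝒬, hA] at h4
    have h5 := hcard _ hQ𝒬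
    omega
  have hlin : ∀ Q ∈ 𝒬, γ * ((Q.card - (k + 1 + a) : ℕ) : ℝ) ≤
      (Q.card.choose (k + 2) : ℝ) := by
    intro Q hQ
    have h1 := hcard Q hQ
    have h2 := h (Q.card - (k + 1 + a)) (by omega)
    rwa [Nat.sub_add_cancel (by omega)] at h2
  have hsum := sum_le_sum hlin
  rw [← mul_sum] at hsum
  have hcD' : (c : ℝ) ≤ ∑ Q ∈ 𝒬, ((Q.card - (k + 1 + a) : ℕ) : ℝ) := by exact_mod_cast hcD
  have h6 : γ * ∑ Q ∈ 𝒬, ((Q.card - (k + 1 + a) : ℕ) : ℝ) ≤ γ * c :=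
    (hsum.trans hEc).trans hle
  have h7 : ∑ Q ∈ 𝒬, ((Q.card - (k + 1 + a) : ℕ) : ℝ) ≤ c := le_of_mul_le_mul_left h6 hγ
  have h8 : ∑ Q ∈ 𝒬, ((Q.card - (k + 1 + a) : ℕ) : ℝ) = c := le_antisymm h7 hcD'
  refine ⟨𝒬, ?_, ?_, ?_⟩
  · intro Q hQ
    refine ⟨hcard Q hQ, ?_⟩
    have h9 : ∑ Q ∈ 𝒬, γ * ((Q.card - (k + 1 + a) : ℕ) : ℝ) =
        ∑ Q ∈ 𝒬, (Q.card.choose (k + 2) : ℝ) := by
      apply le_antisymm (sum_le_sum hlin)
      rw [← mul_sum, h8]
      exact hEc.trans hle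
    exact (sum_eq_sum_iff_of_le hlin).mp h9 Q hQ
  · rw [← card_biUnion (s := 𝒬) (t := fun Q => Q) (fun Q hQ Q' hQ' hne => hdisj Q hQ Q' hQ' hne)]
    exact card_le_univ _
  · exact_mod_cast h8

end Pool.Agent.Lib.MP_455133_co.LR
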