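import Mathlib
import Pool.Agent.Lib.MP_455133_co.Defs
import Pool.Agent.Lib.MP_455133_co.Blocks
import Pool.Agent.Lib.MP_455133_co.LR.Eq

/-!
The minimum of `C(m+s-1,r)/m` and the exact values of `f` for large `t`.
-/

namespace Pool.Agent.Lib.MP_455133_co.LR

open Finset

/-- the step identity -/
theorem choose_step (m N r : ℕ) (h : r ≤ m + N) :
    ((m : ℝ) + 1 + N - r) * ((m + 1 + N).choose r : ℝ) =
      ((m : ℝ) + 1 + N) * ((m + N).choose r : ℝ) := by
  have h1 := Nat.add_one_mul_choose_eq (m + N) r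
  -- (m+N+1) C(m+N, r) = C(m+N+1, r+1) (r+1)
  have h2 := Nat.choose_succ_right_eq (m + N + 1) r
  -- C(m+N+1, r+1) (r+1) = C(m+N+1,r) (m+N+1-r)
  have h3 : (m + N + 1) * (m + N).choose r = (m + N + 1).choose r * (m + N + 1 - r) := by
    rw [← h2]; exact h1
  have h4 : (((m + N + 1) * (m + N).choose r : ℕ) : ℝ) =
      (((m + N + 1).choose r * (m + N + 1 - r) : ℕ) : ℝ) := by rw [h3]
  push_cast [Nat.cast_sub (show r ≤ m + N + 1 by omega)] at h4
  rw [show m + 1 + N = m + N + 1 by ring]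
  linarith

/-- comparison of consecutive quotients -/
theorem choose_cmp (m N r : ℕ) (h : r ≤ m + N) :
    ((m : ℝ) + 1 + N - r) * ((m : ℝ) * ((m + 1 + N).choose r : ℝ) -
      ((m : ℝ) + 1) * ((m + N).choose r : ℝ)) =
      (((m : ℝ) + 1) * (r - 1) - N) * ((m + N).choose r : ℝ) := by
  have h1 := choose_step m N r h
  linear_combination (m : ℝ) * h1

section num

variable {N r w : ℕ} {γ : ℝ}

theorem gamma_up (hr : 2 ≤ r) (hN : r ≤ N) (hw : 1 ≤ w) (hw2 : N ≤ (w + 1) * (r - 1))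
    (hγ : γ * w = ((w + N).choose r : ℝ)) : ∀ m : ℕ, w ≤ m →
    γ * m ≤ ((m + N).choose r : ℝ) ∧
      (γ * m = ((m + N).choose r : ℝ) → m = w ∨ (m = w + 1 ∧ N = (w + 1) * (r - 1))) := by
  obtain ⟨ρ, rfl⟩ : ∃ ρ, r = ρ + 1 := ⟨r - 1, by omega⟩
  rw [Nat.add_sub_cancel] at *
  intro m hm
  induction m, hm using Nat.le_induction with
  | base => exact ⟨hγ.le, fun _ => Or.inl rfl⟩
  | succ m hm ih =>
    obtain ⟨ih1, ih2⟩ := ih
    have h1 := choose_cmp m N (ρ + 1) (by omega)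
    have hC : (0 : ℝ) < ((m + N).choose (ρ + 1) : ℝ) := by
      exact_mod_cast Nat.choose_pos (by omega)
    have hm0 : (1 : ℝ) ≤ m := by exact_mod_cast (hw.trans hm)
    have hX : (0 : ℝ) < (m : ℝ) + 1 + N - ((ρ + 1 : ℕ) : ℝ) := by
      have : ((ρ + 1 : ℕ) : ℝ) ≤ N := by exact_mod_cast hN
      linarith
    have hs : (0 : ℝ) ≤ ((m : ℝ) + 1) * ((ρ + 1 : ℕ) - 1) - N := by
      have : (N : ℝ) ≤ ((w : ℝ) + 1) * ρ := by exact_mod_cast hw2
      have h2 : (w : ℝ) ≤ m := by exact_mod_cast hm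
      have h3 : (0 : ℝ) ≤ ρ := Nat.cast_nonneg _
      push_cast
      nlinarith
    have h4 : (0 : ℝ) ≤ (m : ℝ) * ((m + 1 + N).choose (ρ + 1) : ℝ) -
      ((m : ℝ) + 1) * ((m + N).choose (ρ + 1) : ℝ) := by
      by_contra hneg
      push Not at hneg
      have := mul_neg_of_pos_of_neg hX hneg
      have h5 := mul_nonneg hs hC.le
      linarith
    refine ⟨?_, ?_⟩
    · push_cast
      have h5 : (m : ℝ) * (γ * (m + 1)) ≤ m * ((m + 1 + N).choose (ρ + 1) : ℝ) := by nlinarith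
      exact le_of_mul_le_mul_left h5 (by linarith)
    · intro heq
      push_cast at heq
      have h6 : (m : ℝ) * ((m + 1 + N).choose (ρ + 1) : ℝ) =
          ((m : ℝ) + 1) * ((m + N).choose (ρ + 1) : ℝ) := by
        have : (m : ℝ) * ((m + 1 + N).choose (ρ + 1) : ℝ) = (m : ℝ) * (γ * (m + 1)) := by
          rw [heq]
        nlinarith
      have h7 : γ * m = ((m + N).choose (ρ + 1) : ℝ) := by
        have h8 : ((m : ℝ) + 1) * (γ * m) = ((m : ℝ) + 1) * ((m + N).choose (ρ + 1) : ℝ) := by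
          rw [← h6, ← heq]; ring
        exact mul_left_cancel₀ (by positivity) h8
      rw [h6, sub_self, mul_zero] at h1
      have h9 : ((m : ℝ) + 1) * ((ρ + 1 : ℕ) - 1) - N = 0 := by
        rcases mul_eq_zero.mp h1.symm with h | h
        · exact h
        · exact absurd h hC.ne'
      have h10 : (m + 1) * ρ = N := by
        push_cast at h9
        have : (((m + 1) * ρ : ℕ) : ℝ) = (N : ℝ) := by push_cast; linarith
        exact_mod_cast this
      right
      rcases ih2 h7 with h | ⟨h, h'⟩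
      · subst h; exact ⟨rfl, h10.symm⟩
      · exfalso
        subst h
        rw [h'] at h10
        have : ρ = 0 := by nlinarith
        omega

theorem gamma_down (hr : 2 ≤ r) (hN : r ≤ N) (hw3 : w * (r - 1) < N)
    (hγ : γ * w = ((w + N).choose r : ℝ)) : ∀ d m : ℕ, m + d = w → 1 ≤ m →
    γ * m ≤ ((m + N).choose r : ℝ) ∧ (γ * m = ((m + N).choose r : ℝ) → m = w) := by
  obtain ⟨ρ, rfl⟩ : ∃ ρ, r = ρ + 1 := ⟨r - 1, by omega⟩
  rw [Nat.add_sub_cancel] at *
  intro d
  induction d with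
  | zero =>
    intro m hm _
    rw [Nat.add_zero] at hm
    subst hm
    exact ⟨hγ.le, fun _ => rfl⟩
  | succ d ih =>
    intro m hm hm1
    obtain ⟨ih1, -⟩ := ih (m + 1) (by omega) (by omega)
    have h1 := choose_cmp m N (ρ + 1) (by omega)
    have hC : (0 : ℝ) < ((m + N).choose (ρ + 1) : ℝ) := by
      exact_mod_cast Nat.choose_pos (by omega)
    have hm0 : (1 : ℝ) ≤ m := by exact_mod_cast hm1
    have hX : (0 : ℝ) < (m : ℝ) + 1 + N - ((ρ + 1 : ℕ) : ℝ) := by
      have : ((ρ + 1 : ℕ) : ℝ) ≤ N := by exact_mod_cast hN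
      linarith
    have hs : ((m : ℝ) + 1) * ((ρ + 1 : ℕ) - 1) - N < 0 := by
      have : (w : ℝ) * ρ < N := by exact_mod_cast hw3
      have h2 : (m : ℝ) + 1 ≤ w := by
        have : m + 1 ≤ w := by omega
        exact_mod_cast this
      have h3 : (0 : ℝ) ≤ ρ := Nat.cast_nonneg _
      push_cast
      nlinarith
    have h4 : (m : ℝ) * ((m + 1 + N).choose (ρ + 1) : ℝ) -
      ((m : ℝ) + 1) * ((m + N).choose (ρ + 1) : ℝ) < 0 := by
      by_contra hneg
      push Not at hneg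
      have := mul_nonneg hX.le hneg
      have h5 := mul_neg_of_neg_of_pos hs hC
      linarith
    have h5 : γ * m < ((m + N).choose (ρ + 1) : ℝ) := by
      push_cast at ih1
      have h6 : ((m : ℝ) + 1) * (γ * m) < ((m : ℝ) + 1) * ((m + N).choose (ρ + 1) : ℝ) := by
        nlinarith
      exact lt_of_mul_lt_mul_left h6 (by positivity)
    exact ⟨h5.le, fun h => absurd h h5.ne⟩

end num

/-- the minimum -/
theorem gamma_spec {r s : ℕ} (hr : 2 ≤ r) (hrs : r < s) {γ : ℝ}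
    (hγ : γ * ((s - 2) / (r - 1) : ℕ) = (((s - 2) / (r - 1) + (s - 1)).choose r : ℝ)) :
    ∀ m : ℕ, 1 ≤ m → γ * m ≤ ((m + (s - 1)).choose r : ℝ) ∧
      (γ * m = ((m + (s - 1)).choose r : ℝ) →
        m = (s - 2) / (r - 1) ∨ m = (s - 1) / (r - 1)) := by
  intro m hm
  set w := (s - 2) / (r - 1) with hw
  have hr1 : 0 < r - 1 := by omega
  have h1 : w * (r - 1) ≤ s - 2 := Nat.div_mul_le_self _ _
  have h2 : s - 2 < (w + 1) * (r - 1) := by
    have := Nat.lt_mul_div_succ (s - 2) hr1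
    rw [mul_comm]; exact this
  have hw1 : 1 ≤ w := by
    rw [hw, Nat.le_div_iff_mul_le hr1]; omega
  rcases le_total w m with h | h
  · obtain ⟨h3, h4⟩ := gamma_up (N := s - 1) hr (by omega) hw1 (by omega) hγ m h
    refine ⟨h3, fun heq => ?_⟩
    rcases h4 heq with h5 | ⟨h5, h6⟩
    · exact Or.inl h5
    · right
      rw [h5, h6, Nat.mul_div_cancel _ hr1]
  · obtain ⟨h3, h4⟩ := gamma_down (N := s - 1) hr (by omega) (by omega) hγ (w - m) m
      (by omega) hm
    exact ⟨h3, fun heq => Or.inl (h4 heq)⟩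

theorem exists_parts : ∀ (l w c : ℕ), c ≤ l * w →
    ∃ m : Fin l → ℕ, (∀ i, m i ≤ w) ∧ ∑ i, m i = c := by
  intro l
  induction l with
  | zero =>
    intro w c h
    refine ⟨fun _ => 0, fun i => i.elim0, ?_⟩
    simp at h ⊢
    omega
  | succ l ih =>
    intro w c h
    rw [Nat.add_mul, one_mul] at h
    obtain ⟨m, h1, h2⟩ := ih w (c - min c w) (by omega)
    refine ⟨Fin.cons (min c w) m, ?_, ?_⟩
    · intro i
      refine Fin.cases ?_ ?_ i
      · simp
      · intro j; simpa using h1 j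
    · rw [Fin.sum_univ_succ]
      simp only [Fin.cons_zero, Fin.cons_succ]
      rw [h2]; omega

theorem shadow_card {n r : ℕ} {𝒜 : Finset (Finset (Fin n))} :
    ∀ e ∈ lowerShadow r 𝒜, e.card = r := by
  intro e he
  rw [lowerShadow, mem_filter, mem_powersetCard] at he
  exact he.1.2

theorem shadow_isK {n r : ℕ} {𝒜 : Finset (Finset (Fin n))} {A : Finset (Fin n)}
    (hA : A ∈ 𝒜) : isK r (lowerShadow r 𝒜) A := by
  intro R hR hRc
  rw [lowerShadow, mem_filter, mem_powersetCard]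
  exact ⟨⟨subset_univ _, hRc⟩, A, hA, hR⟩

theorem shadow_hit {n r s t : ℕ} (htn : t ≤ n) {𝒜 : Finset (Finset (Fin n))}
    (h : IsCovering s t 𝒜) :
    ∀ D : Finset (Fin n), D.card < n - t + 1 → ∃ A : Finset (Fin n), A.card = s ∧
      isK r (lowerShadow r 𝒜) A ∧ Disjoint A D := by
  intro X hX
  have h1 : t ≤ (Xᶜ).card := by rw [card_compl, Fintype.card_fin]; omega
  obtain ⟨C, hC, hCt⟩ := exists_subset_card_eq h1
  obtain ⟨A, hA, hAC⟩ := h.2 C hCt
  exact ⟨A, h.1 A hA, shadow_isK hA,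
    disjoint_left.mpr fun x hx hxX => (mem_compl.mp (hC (hAC hx))) hxX⟩

theorem shadow_deg {n k a : ℕ} {𝒜 : Finset (Finset (Fin n))}
    (h : ∀ A ∈ 𝒜, A.card = k + 2 + a) :
    ∀ S ∈ sh (k + 1) (lowerShadow (k + 2) 𝒜), a < (nb (lowerShadow (k + 2) 𝒜) S).card := by
  intro S hS
  obtain ⟨hSc, e, he, hSe⟩ := mem_sh.mp hS
  have he' := he
  rw [lowerShadow, mem_filter, mem_powersetCard] at he'
  obtain ⟨⟨-, -⟩, A, hA, heA⟩ := he'
  have hSA : S ⊆ A := hSe.trans heA
  have h1 : A \ S ⊆ nb (lowerShadow (k + 2) 𝒜) S := by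
    intro x hx
    rw [mem_sdiff] at hx
    rw [nb_iff (k := k) shadow_card hSc]
    refine ⟨hx.2, shadow_isK hA _ (insert_subset hx.1 hSA) ?_⟩
    rw [card_insert_of_notMem hx.2, hSc]
  have h2 := card_le_card h1
  rw [card_sdiff_of_subset hSA, h A hA, hSc] at h2
  omega

/-- Theorem I. -/
theorem exact_large (n r s t : ℕ) (hr : 2 ≤ r) (hrs : r < s) (hst : s < t) (htn : t < n) :
    (n - t + 1) * ((s - 2) / (r - 1) + (s - 1)).choose r ≤ (s - 2) / (r - 1) * f n r s t ∧
    (∀ l : ℕ, l * (s - 1) ≤ t - 1 → l * ((s - 2) / (r - 1)) ≤ n - t + 1 →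
      n - t + 1 ≤ l * ((s - 1) / (r - 1)) →
      (s - 2) / (r - 1) * f n r s t = (n - t + 1) * ((s - 2) / (r - 1) + (s - 1)).choose r) ∧
    (3 ≤ r →
      (s - 2) / (r - 1) * f n r s t = (n - t + 1) * ((s - 2) / (r - 1) + (s - 1)).choose r →
      ∃ l : ℕ, l * (s - 1) ≤ t - 1 ∧ l * ((s - 2) / (r - 1)) ≤ n - t + 1 ∧
        n - t + 1 ≤ l * ((s - 1) / (r - 1))) ∧
    (∀ l : ℕ, l * (s - 1) ≤ t - 1 → n - t + 1 ≤ l * ((s - 2) / (r - 1)) →
      f n r s t ≤ l * ((s - 2) / (r - 1) + (s - 1)).choose r) := by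
  obtain ⟨k, rfl⟩ : ∃ k, r = k + 2 := ⟨r - 2, by omega⟩
  obtain ⟨a, rfl⟩ : ∃ a, s = k + 2 + a := ⟨s - (k + 2), by omega⟩
  have hr1 : 0 < k + 2 - 1 := by omega
  set w := (k + 2 + a - 2) / (k + 2 - 1) with hw
  set W := (k + 2 + a - 1) / (k + 2 - 1) with hW
  have hw1 : 1 ≤ w := by
    rw [hw, Nat.le_div_iff_mul_le hr1]; omega
  have hwW : w ≤ W := Nat.div_le_div_right (by omega)
  have hWw : W ≤ w + 1 := by
    rw [hW, hw]
    have h1 : k + 2 + a - 1 ≤ (k + 2 + a - 2) + (k + 2 - 1) := by omega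
    calc (k + 2 + a - 1) / (k + 2 - 1) ≤ ((k + 2 + a - 2) + (k + 2 - 1)) / (k + 2 - 1) :=
          Nat.div_le_div_right h1
      _ = (k + 2 + a - 2) / (k + 2 - 1) + 1 := Nat.add_div_right _ hr1
  have hwpos : (0 : ℝ) < (w : ℝ) := by exact_mod_cast hw1
  set γ : ℝ := ((w + (k + 2 + a - 1)).choose (k + 2) : ℝ) / w with hγdef
  have hγ : γ * (w : ℝ) = ((w + (k + 2 + a - 1)).choose (k + 2) : ℝ) := by
    rw [hγdef]; field_simp
  have hspec := gamma_spec (r := k + 2) (s := k + 2 + a) hr hrs (γ := γ) hγ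
  have hγ0 : 0 < γ := by
    rw [hγdef]
    apply div_pos _ hwpos
    exact_mod_cast Nat.choose_pos (by omega)
  have hN : k + 2 + a - 1 = k + 1 + a := by omega
  have hlin : ∀ m : ℕ, 1 ≤ m → γ * m ≤ ((m + (k + 1 + a)).choose (k + 2) : ℝ) := by
    intro m hm
    have := (hspec m hm).1
    rwa [hN] at this
  obtain ⟨𝒜, h𝒜, hf⟩ := f_spec (n := n) (r := k + 2) hst.le
  have hlow : γ * ((n - t + 1 : ℕ) : ℝ) ≤ (f n (k + 2) (k + 2 + a) t : ℝ) := by
    rw [hf]
    exact edges_ge shadow_card hγ0.le hlin (shadow_hit htn.le h𝒜)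
  have hgood : ∀ l : ℕ, l * (k + 2 + a - 1) ≤ t - 1 → l * w ≤ n - t + 1 →
      n - t + 1 ≤ l * W →
      (f n (k + 2) (k + 2 + a) t : ℝ) ≤ γ * ((n - t + 1 : ℕ) : ℝ) := by
    intro l h1 h2 h3
    obtain ⟨m, hm1, hm2⟩ := exists_parts l (W - w) (n - t + 1 - l * w) (by
      rw [Nat.mul_sub]; omega)
    have hsum : ∑ i, (k + 2 + a - 1 + (w + m i)) = l * (k + 2 + a - 1) + (n - t + 1) := by
      rw [sum_add_distrib, sum_add_distrib, hm2]
      simp only [sum_const, card_univ, Fintype.card_fin, smul_eq_mul]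
      omega
    have h4 := f_le_blocks (n := n) (r := k + 2) (s := k + 2 + a) (t := t) (l := l)
      (fun i => k + 2 + a - 1 + (w + m i)) (by rw [hsum]; omega) (by rw [hsum]; omega)
      (by omega)
    have h5 : ∀ i, ((k + 2 + a - 1 + (w + m i)).choose (k + 2) : ℝ) =
        γ * ((w + m i : ℕ) : ℝ) := by
      intro i
      rcases Nat.eq_zero_or_pos (m i) with h | h
      · rw [h, show w + 0 = w from rfl, hγ, Nat.add_comm]
      · have h6 := hm1 i
        have h7 : m i = 1 := by omega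
        have h8 : W = w + 1 := by omega
        -- N = (w+1)(r-1)
        have h9 : (w + 1) * (k + 2 - 1) ≤ k + 2 + a - 1 := by
          rw [← h8]; exact Nat.div_mul_le_self _ _
        have h10 : k + 2 + a - 2 < (w + 1) * (k + 2 - 1) := by
          have := Nat.lt_mul_div_succ (k + 2 + a - 2) hr1
          rw [mul_comm]; exact this
        have h11 : (w + 1) * (k + 2 - 1) = k + 2 + a - 1 := by omega
        have h12 := choose_cmp w (k + 2 + a - 1) (k + 2) (by omega)
        have h13 : ((w : ℝ) + 1) * (((k + 2 : ℕ) : ℝ) - 1) - ((k + 2 + a - 1 : ℕ) : ℝ) = 0 := by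
          rw [← h11]
          push_cast [Nat.cast_sub (show 1 ≤ k + 2 by omega)]
          ring
        rw [h13, zero_mul] at h12
        have h14 : (w : ℝ) + 1 + ((k + 2 + a - 1 : ℕ) : ℝ) - ((k + 2 : ℕ) : ℝ) ≠ 0 := by
          have h15 : ((k + 2 : ℕ) : ℝ) ≤ ((k + 2 + a - 1 : ℕ) : ℝ) := by
            exact_mod_cast (show k + 2 ≤ k + 2 + a - 1 by omega)
          intro h16
          linarith
        have h17 := (mul_eq_zero.mp h12).resolve_left h14
        rw [h7]
        have h18 : (w : ℝ) * ((w + 1 + (k + 2 + a - 1)).choose (k + 2) : ℝ) =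
            (w : ℝ) * (γ * ((w + 1 : ℕ) : ℝ)) := by
          push_cast
          rw [show (w : ℝ) * (γ * ((w : ℝ) + 1)) = ((w : ℝ) + 1) * (γ * w) by ring, hγ]
          linarith
        have h19 := mul_left_cancel₀ hwpos.ne' h18
        rw [Nat.add_comm (k + 2 + a - 1) (w + 1)]
        exact h19
    have h6 : ((∑ i, (k + 2 + a - 1 + (w + m i)).choose (k + 2) : ℕ) : ℝ) =
        γ * ((n - t + 1 : ℕ) : ℝ) := by
      push_cast
      rw [sum_congr rfl fun i _ => h5 i, ← mul_sum]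
      congr 1
      have h7 : ∑ i, (w + m i) = n - t + 1 := by
        rw [sum_add_distrib, hm2]
        simp only [sum_const, card_univ, Fintype.card_fin, smul_eq_mul]
        omega
      exact_mod_cast h7
    rw [← h6]
    exact_mod_cast h4
  have hconv : ∀ x : ℝ, w * x = ((n - t + 1 : ℕ) : ℝ) *
      ((w + (k + 2 + a - 1)).choose (k + 2) : ℝ) ↔ x = γ * ((n - t + 1 : ℕ) : ℝ) := by
    intro x
    rw [← hγ]
    constructor
    · intro h
      have : (w : ℝ) * x = w * (γ * ((n - t + 1 : ℕ) : ℝ)) := by rw [h]; ring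
      exact mul_left_cancel₀ hwpos.ne' this
    · intro h
      rw [h]; ring
  refine ⟨?_, ?_, ?_, ?_⟩
  · have h1 : (((n - t + 1) * (w + (k + 2 + a - 1)).choose (k + 2) : ℕ) : ℝ) ≤
        ((w * f n (k + 2) (k + 2 + a) t : ℕ) : ℝ) := by
      rw [Nat.cast_mul, Nat.cast_mul, ← hγ]
      nlinarith
    exact_mod_cast h1
  · intro l h1 h2 h3
    have h4 := (hconv _).mpr (le_antisymm (hgood l h1 h2 h3) hlow)
    exact_mod_cast h4
  · intro hr3 heq
    have h1 : (f n (k + 2) (k + 2 + a) t : ℝ) = γ * ((n - t + 1 : ℕ) : ℝ) := by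
      apply (hconv _).mp
      exact_mod_cast heq
    rw [hf] at h1
    obtain ⟨𝒬, h2, h3, h4⟩ := structure_eq (by omega) shadow_card hγ0 hlin
      (shadow_deg h𝒜.1) (shadow_hit htn.le h𝒜) h1.le
    have h5 : ∀ Q ∈ 𝒬, w ≤ Q.card - (k + 1 + a) ∧ Q.card - (k + 1 + a) ≤ W := by
      intro Q hQ
      obtain ⟨h6, h7⟩ := h2 Q hQ
      have h8 := (hspec (Q.card - (k + 1 + a)) (by omega)).2 (by
        rw [h7, hN, Nat.sub_add_cancel (by omega)])
      rcases h8 with h9 | h9
      · change Q.card - (k + 1 + a) = w at h9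
        omega
      · change Q.card - (k + 1 + a) = W at h9
        omega
    refine ⟨𝒬.card, ?_, ?_, ?_⟩
    · rw [Fintype.card_fin] at h3
      have h6 : ∑ Q ∈ 𝒬, Q.card = ∑ Q ∈ 𝒬, (Q.card - (k + 1 + a)) + 𝒬.card * (k + 1 + a) := by
        rw [← smul_eq_mul, ← sum_const, ← sum_add_distrib]
        apply sum_congr rfl
        intro Q hQ
        have := (h2 Q hQ).1
        omega
      rw [h6, h4] at h3
      rw [hN]
      omega
    · rw [← h4, ← smul_eq_mul, ← sum_const]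
      exact sum_le_sum fun Q hQ => (h5 Q hQ).1
    · rw [← h4, ← smul_eq_mul, ← sum_const]
      exact sum_le_sum fun Q hQ => (h5 Q hQ).2
  · intro l h1 h2
    obtain ⟨m, hm1, hm2⟩ := exists_parts l w (n - t + 1) h2
    have hsum : ∑ i, (k + 2 + a - 1 + m i) = l * (k + 2 + a - 1) + (n - t + 1) := by
      rw [sum_add_distrib, hm2]
      simp only [sum_const, card_univ, Fintype.card_fin, smul_eq_mul]
    have h4 := f_le_blocks (n := n) (r := k + 2) (s := k + 2 + a) (t := t) (l := l)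
      (fun i => k + 2 + a - 1 + m i) (by rw [hsum]; omega) (by rw [hsum]; omega)
      (by omega)
    refine h4.trans ?_
    calc ∑ i, (k + 2 + a - 1 + m i).choose (k + 2)
        ≤ ∑ i : Fin l, (w + (k + 2 + a - 1)).choose (k + 2) := by
          apply sum_le_sum
          intro i _
          apply Nat.choose_le_choose
          have := hm1 i
          omega
      _ = l * (w + (k + 2 + a - 1)).choose (k + 2) := by
          simp only [sum_const, card_univ, Fintype.card_fin, smul_eq_mul]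

end Pool.Agent.Lib.MP_455133_co.LR
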