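import Mathlib
import Pool.Agent.Lib.MP_455133_co.Defs
import Pool.Agent.Lib.MP_455133_co.Blocks
import Pool.Agent.Lib.MP_455133_co.LR.CoreA
import Pool.Agent.Lib.MP_455133_co.LR.Opt1

/-!
Summation over the vertices and the final form of the lower bounds.
-/

set_option linter.unusedSectionVars false

namespace Pool.Agent.Lib.MP_455133_co.LR

open Finset

/-- the lower bound for the mean completion time of `(p+2)`-uniform families which is linear
in the number of edges and sharp for the complete families on `m` and `m+1` vertices -/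
def ChordAt (p a m : ℕ) : Prop :=
  ∀ (n : ℕ) (L : Finset (Finset (Fin n))), (∀ e ∈ L, e.card = p + 2) →
    ∀ W : Finset (Fin n), su L ⊆ W →
      (a : ℝ) / (m + 1) - (a : ℝ) / (((m : ℝ) + 1) * (m + 2) * (m.choose (p + 1) : ℝ)) *
        ((L.card : ℝ) - (m.choose (p + 2) : ℝ)) ≤ RR (p + 2) a L W.card W

theorem sum_card_lk {n r : ℕ} {B : Finset (Finset (Fin n))} (hB : ∀ e ∈ B, e.card = r) :
    ∑ v : Fin n, (lk B v).card = r * B.card := by
  simp only [card_lk]
  rw [sum_deg fun e _ => subset_univ e, sum_congr rfl hB, sum_const, smul_eq_mul, mul_comm]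

/-- summation -/
theorem sum_line {n p a t : ℕ} (ha : 1 ≤ a) {𝒜 : Finset (Finset (Fin n))}
    (h : IsCovering (a + 1) t 𝒜) {α β γ : ℝ}
    (hl : ∀ L : Finset (Finset (Fin n)), (∀ e ∈ L, e.card = p + 2) →
      ∀ W : Finset (Fin n), su L ⊆ W → α - β * (L.card - γ) ≤ RR (p + 2) a L W.card W) :
    n * α - β * (((p : ℝ) + 3) * (lowerShadow (p + 3) 𝒜).card - n * γ) ≤ (t : ℝ) - 1 := by
  set B := lowerShadow (p + 3) 𝒜 with hB
  have hBc : ∀ e ∈ B, e.card = p + 3 := shadow_card
  obtain ⟨I, -, hI2, hI3⟩ := exists_free (j := p + 2) ha B n (univ : Finset (Fin n)) (by simp)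
  have hIt : I.card + 1 ≤ t := by
    by_contra hlt
    push Not at hlt
    obtain ⟨C, hC, hCt⟩ := exists_subset_card_eq (s := I) (n := t) (by omega)
    obtain ⟨A, hA, hAC⟩ := h.2 C hCt
    exact hI2 A (hAC.trans hC) (h.1 A hA) (shadow_isK hA)
  have hIt' : (I.card : ℝ) ≤ (t : ℝ) - 1 := by
    have : ((I.card + 1 : ℕ) : ℝ) ≤ t := by exact_mod_cast hIt
    push_cast at this
    linarith
  have h1 : ∀ v ∈ (univ : Finset (Fin n)), α - β * ((lk B v).card - γ) ≤
      RR (p + 2) a (lk B v) (n - 1) ((univ : Finset (Fin n)).erase v) := by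
    intro v _
    have h2 : ∀ e ∈ lk B v, e.card = p + 2 := by
      intro S hS
      obtain ⟨h3, h4⟩ := mem_lk.mp hS
      have h5 := hBc _ h4
      rw [card_insert_of_notMem h3] at h5
      omega
    have h3 : su (lk B v) ⊆ (univ : Finset (Fin n)).erase v := by
      intro x hx
      obtain ⟨e, he, hxe⟩ := mem_su.mp hx
      rw [mem_erase]
      exact ⟨fun h => (mem_lk.mp he).1 (h ▸ hxe), mem_univ _⟩
    have h4 := hl (lk B v) h2 _ h3
    have h5 : ((univ : Finset (Fin n)).erase v).card = n - 1 := by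
      rw [card_erase_of_mem (mem_univ v), card_univ, Fintype.card_fin]
    rw [h5] at h4
    exact h4
  have h2 := (sum_le_sum h1).trans (hI3.trans hIt')
  refine le_trans (le_of_eq ?_) h2
  rw [sum_sub_distrib, ← mul_sum, sum_sub_distrib, sum_const, sum_const, card_univ,
    Fintype.card_fin, nsmul_eq_mul, nsmul_eq_mul, ← Nat.cast_sum, sum_card_lk hBc]
  push_cast
  ring

/-- the chord inequality for `f` -/
theorem lower_of_chord {n p a t m : ℕ} (ha : p + 3 ≤ a) (hm : p + 1 ≤ m)
    (hst : a + 1 ≤ t) (hc : ChordAt p a m) :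
    (((m : ℝ) + 2) * (t - 1) - n * a) * ((m + 1).choose (p + 3) : ℝ) +
      (n * a - ((m : ℝ) + 1) * (t - 1)) * ((m + 2).choose (p + 3) : ℝ) ≤
      a * (f n (p + 3) (a + 1) t : ℝ) := by
  obtain ⟨𝒜, h𝒜, hf⟩ := f_spec (n := n) (r := p + 3) hst
  have h1 := sum_line (p := p) (a := a) (by omega) h𝒜
    (fun L hL W hW => hc n L hL W hW)
  rw [← hf] at h1
  set F : ℝ := (f n (p + 3) (a + 1) t : ℝ) with hF
  have hapos : (0 : ℝ) < a := by
    have : 0 < a := by omega
    exact_mod_cast this
  set c1 : ℝ := (m.choose (p + 1) : ℝ) with hc1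
  set c2 : ℝ := (m.choose (p + 2) : ℝ) with hc2
  have hc1pos : 0 < c1 := by
    rw [hc1]
    exact_mod_cast Nat.choose_pos hm
  -- binomial identities
  have e1 : ((p : ℝ) + 3) * ((m + 1).choose (p + 3) : ℝ) = ((m : ℝ) + 1) * c2 := by
    have := Nat.add_one_mul_choose_eq m (p + 2)
    have h2 : (((m + 1) * m.choose (p + 2) : ℕ) : ℝ) =
        (((m + 1).choose (p + 2 + 1) * (p + 2 + 1) : ℕ) : ℝ) := by rw [this]
    push_cast at h2
    rw [hc2, h2]
    ring
  have e2 : ((p : ℝ) + 3) * ((m + 2).choose (p + 3) : ℝ) = ((m : ℝ) + 2) * (c1 + c2) := by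
    have := Nat.add_one_mul_choose_eq (m + 1) (p + 2)
    have h2 : (((m + 1 + 1) * (m + 1).choose (p + 2) : ℕ) : ℝ) =
        (((m + 1 + 1).choose (p + 2 + 1) * (p + 2 + 1) : ℕ) : ℝ) := by rw [this]
    have h3 : (m + 1).choose (p + 2) = m.choose (p + 1) + m.choose (p + 2) :=
      Nat.choose_succ_succ' m (p + 1)
    rw [h3] at h2
    push_cast at h2
    rw [hc1, hc2]
    linarith
  -- clear the denominators
  have h2 : (n : ℝ) * a * ((m : ℝ) + 2) * c1 - a * (((p : ℝ) + 3) * F - n * c2) ≤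
      ((t : ℝ) - 1) * (((m : ℝ) + 1) * (m + 2) * c1) := by
    have hX : (0 : ℝ) < ((m : ℝ) + 1) * (m + 2) * c1 := by positivity
    have h3 := mul_le_mul_of_nonneg_right h1 hX.le
    have h4 : (n * ((a : ℝ) / (m + 1)) - (a : ℝ) / (((m : ℝ) + 1) * (m + 2) * c1) *
        (((p : ℝ) + 3) * F - n * c2)) * (((m : ℝ) + 1) * (m + 2) * c1) =
        (n : ℝ) * a * ((m : ℝ) + 2) * c1 - a * (((p : ℝ) + 3) * F - n * c2) := by
      have hm1 : (m : ℝ) + 1 ≠ 0 := by positivity
      have hm2 : (m : ℝ) + 2 ≠ 0 := by positivity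
      field_simp
    rw [h4] at h3
    exact h3
  have hp3 : (0 : ℝ) < (p : ℝ) + 3 := by positivity
  have h5 : ((p : ℝ) + 3) * ((((m : ℝ) + 2) * (t - 1) - n * a) *
      ((m + 1).choose (p + 3) : ℝ) + (n * a - ((m : ℝ) + 1) * (t - 1)) *
      ((m + 2).choose (p + 3) : ℝ)) ≤ ((p : ℝ) + 3) * (a * F) := by
    have e3 : ((p : ℝ) + 3) * ((((m : ℝ) + 2) * (t - 1) - n * a) *
      ((m + 1).choose (p + 3) : ℝ) + (n * a - ((m : ℝ) + 1) * (t - 1)) *
      ((m + 2).choose (p + 3) : ℝ)) =
      (((m : ℝ) + 2) * (t - 1) - n * a) * (((p : ℝ) + 3) * ((m + 1).choose (p + 3) : ℝ)) +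
      (n * a - ((m : ℝ) + 1) * (t - 1)) * (((p : ℝ) + 3) * ((m + 2).choose (p + 3) : ℝ)) := by
      ring
    rw [e3, e1, e2]
    linarith
  exact le_of_mul_le_mul_left h5 hp3

theorem balanced_sum (k n : ℕ) (hk : 1 ≤ k) :
    ∑ i : Fin k, (n / k + if (i : ℕ) < n % k then 1 else 0) = n := by
  rw [sum_add_distrib]
  have h1 : ∑ i : Fin k, (if (i : ℕ) < n % k then 1 else 0) = n % k := by
    rw [Fin.sum_univ_eq_sum_range (fun i => if i < n % k then 1 else 0) k, ← card_filter]
    have h2 : (range k).filter (fun i => i < n % k) = range (n % k) := by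
      ext i
      rw [mem_filter, mem_range, mem_range]
      have := Nat.mod_lt n hk
      omega
    rw [h2, card_range]
  rw [h1]
  simp only [sum_const, card_univ, Fintype.card_fin, smul_eq_mul]
  exact Nat.div_add_mod n k

theorem balanced_choose (k n r : ℕ) (hk : 1 ≤ k) :
    ∑ i : Fin k, (n / k + if (i : ℕ) < n % k then 1 else 0).choose r =
      (k - n % k) * (n / k).choose r + (n % k) * (n / k + 1).choose r := by
  have h0 : ∀ i : Fin k, (n / k + if (i : ℕ) < n % k then 1 else 0).choose r =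
      if (i : ℕ) < n % k then (n / k + 1).choose r else (n / k).choose r := by
    intro i
    split_ifs <;> rfl
  rw [sum_congr rfl fun i _ => h0 i,
    Fin.sum_univ_eq_sum_range (fun i => if i < n % k then (n / k + 1).choose r
      else (n / k).choose r) k]
  rw [sum_ite, sum_const, sum_const, smul_eq_mul, smul_eq_mul]
  have hlt := Nat.mod_lt n hk
  have h2 : (range k).filter (fun i => i < n % k) = range (n % k) := by
    ext i
    rw [mem_filter, mem_range, mem_range]
    omega
  have h3 : ((range k).filter (fun i => ¬ i < n % k)).card = k - n % k := by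
    have := card_filter_add_card_filter_not (s := range k) (fun i => i < n % k)
    rw [h2, card_range, card_range] at this
    omega
  rw [h2, h3, card_range]
  ring

/-- the upper bound by balanced blocks -/
theorem upper_balanced {n r s k : ℕ} (hk : 1 ≤ k) (hs : 1 ≤ s) :
    f n r s (k * (s - 1) + 1) ≤
      (k - n % k) * (n / k).choose r + (n % k) * (n / k + 1).choose r := by
  have h := f_le_blocks (n := n) (r := r) (s := s) (t := k * (s - 1) + 1) (l := k)
    (fun i => n / k + if (i : ℕ) < n % k then 1 else 0)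
    (by rw [balanced_sum k n hk]) (by rw [balanced_sum k n hk]; omega) hs
  rwa [balanced_choose k n r hk] at h

/-- the exact value from the chord -/
theorem exact_of_chord {n p a k : ℕ} (ha : p + 3 ≤ a) (hk : 1 ≤ k)
    (hm : p + 2 ≤ n / k) (hc : ChordAt p a (n / k - 1)) :
    f n (p + 3) (a + 1) (k * a + 1) =
      (k - n % k) * (n / k).choose (p + 3) + (n % k) * (n / k + 1).choose (p + 3) := by
  apply le_antisymm
  · have h := upper_balanced (n := n) (r := p + 3) (s := a + 1) hk (by omega)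
    rwa [Nat.add_sub_cancel] at h
  · obtain ⟨m, hm'⟩ : ∃ m, n / k = m + 1 := ⟨n / k - 1, by omega⟩
    rw [hm', Nat.add_sub_cancel] at hc
    have h1 := lower_of_chord (n := n) (t := k * a + 1) ha (by omega)
      (by nlinarith) hc
    have hlt := Nat.mod_lt n hk
    have hdm := Nat.div_add_mod n k
    rw [hm'] at hdm ⊢
    have hapos : (0 : ℝ) < a := by
      have : 0 < a := by omega
      exact_mod_cast this
    have hn : (n : ℝ) = k * (m + 1) + ((n % k : ℕ) : ℝ) := by
      rw [← Nat.cast_add_one, ← Nat.cast_mul, ← Nat.cast_add]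
      exact_mod_cast hdm.symm
    have h2 : ((((k - n % k) * (m + 1).choose (p + 3) +
        (n % k) * (m + 1 + 1).choose (p + 3) : ℕ)) : ℝ) * a ≤
        (f n (p + 3) (a + 1) (k * a + 1) : ℝ) * a := by
      push_cast [Nat.cast_sub hlt.le]
      push_cast at h1
      have h3 : (((m : ℝ) + 2) * ((k : ℝ) * a + 1 - 1) - n * a) *
          ((m + 1).choose (p + 3) : ℝ) + (n * a - ((m : ℝ) + 1) * ((k : ℝ) * a + 1 - 1)) *
          ((m + 2).choose (p + 3) : ℝ) =
          (((k : ℝ) - ((n % k : ℕ) : ℝ)) * ((m + 1).choose (p + 3) : ℝ) +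
          ((n % k : ℕ) : ℝ) * ((m + 1 + 1).choose (p + 3) : ℝ)) * a := by
        rw [hn, show m + 2 = m + 1 + 1 from rfl]
        ring
      rw [h3] at h1
      linarith
    have h3 := le_of_mul_le_mul_right h2 hapos
    exact_mod_cast h3

end Pool.Agent.Lib.MP_455133_co.LR
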