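import Mathlib
import Pool.Agent.Lib.MP_455133_co.LR.CoreB
import Pool.Agent.Lib.MP_455133_co.LR.Fin

/-!
From pruned families to all families.
-/

namespace Pool.Agent.Lib.MP_455133_co.LR

open Finset

/-- the inequality for pruned families -/
def PrunedChord (p a m : ℕ) (θ : ℝ) : Prop :=
  ∀ (n : ℕ) (C : Finset (Finset (Fin n))), (∀ e ∈ C, e.card = p + 2) → Pruned p a C →
    ∀ y : ℝ, (a : ℝ) ≤ y → FF (p + 1) ((a : ℝ) - 1) y =
      ((p + 2).factorial : ℝ) * (C.card - θ * (sh (p + 1) C).card) →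
      (a : ℝ) / (m + 1) - (a : ℝ) / (((m : ℝ) + 1) * (m + 2) * (m.choose (p + 1) : ℝ)) *
        ((C.card : ℝ) - (m.choose (p + 2) : ℝ)) ≤ (a : ℝ) / (y + 1)

/-- a real parameter exists -/
theorem exists_param {p a : ℕ} (ha : p + 3 ≤ a) {v : ℝ} (hv : 0 ≤ v) :
    ∃ y : ℝ, (a : ℝ) - 1 ≤ y ∧ FF (p + 1) ((a : ℝ) - 1) y = v := by
  have ha' : (p : ℝ) + 3 ≤ a := by exact_mod_cast ha
  have hp0 : (0 : ℝ) ≤ p := Nat.cast_nonneg _
  have h1 : ∀ i : ℕ, (i : ℝ) ≤ p + 1 → 1 ≤ P0 i ((a : ℝ) + v) := by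
    intro i
    induction i with
    | zero => intro _; simp [P0]
    | succ i ih =>
      intro hi
      push_cast at hi
      simp only [P0]
      have h2 := ih (by linarith)
      have h3 : 1 ≤ (a : ℝ) + v - i := by linarith
      nlinarith
  obtain ⟨y, hy1, -, hy2⟩ := exists_val (p := p) (a := a) (y := a + v) (v := v) (by linarith) hv
    (by
      have h2 := h1 (p + 1) (by push_cast; linarith)
      unfold FF
      have h3 : (a : ℝ) + v - (a - 1) = v + 1 := by ring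
      rw [h3]
      nlinarith)
  exact ⟨y, hy1, hy2⟩

theorem line_zero {p a m : ℕ} (hm : (p + 3) * a ≤ (p + 2) * (m + 2)) (hpm : p + 1 ≤ m) :
    (a : ℝ) / (m + 1) + (a : ℝ) / (((m : ℝ) + 1) * (m + 2) * (m.choose (p + 1) : ℝ)) *
      (m.choose (p + 2) : ℝ) ≤ 1 := by
  have hc : (0 : ℝ) < (m.choose (p + 1) : ℝ) := by exact_mod_cast Nat.choose_pos hpm
  have h1 := Nat.choose_succ_right_eq m (p + 1)
  have h2 : (m.choose (p + 2) : ℝ) * ((p : ℝ) + 2) = (m.choose (p + 1) : ℝ) *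
      ((m : ℝ) - (p + 1)) := by
    have : ((m.choose (p + 1 + 1) * (p + 1 + 1) : ℕ) : ℝ) =
        ((m.choose (p + 1) * (m - (p + 1)) : ℕ) : ℝ) := by rw [h1]
    push_cast [Nat.cast_sub hpm] at this
    linarith
  have hp : (0 : ℝ) < (p : ℝ) + 2 := by positivity
  have h3 : (m.choose (p + 2) : ℝ) = (m.choose (p + 1) : ℝ) * ((m : ℝ) - (p + 1)) / (p + 2) := by
    rw [eq_div_iff hp.ne', h2]
  have hm1 : (0 : ℝ) < (m : ℝ) + 1 := by positivity
  have hm2 : (0 : ℝ) < (m : ℝ) + 2 := by positivity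
  have h4 : (a : ℝ) / (m + 1) + (a : ℝ) / (((m : ℝ) + 1) * (m + 2) * (m.choose (p + 1) : ℝ)) *
      (m.choose (p + 2) : ℝ) = (a : ℝ) * (p + 3) / ((p + 2) * (m + 2)) := by
    rw [h3]
    field_simp
    ring
  rw [h4, div_le_one (by positivity)]
  have h5 : (((p + 3) * a : ℕ) : ℝ) ≤ (((p + 2) * (m + 2) : ℕ) : ℝ) := by exact_mod_cast hm
  push_cast at h5
  linarith

/-- the chord inequality for the families which contain a complete `a`-set -/
def ChordK (p a m : ℕ) : Prop :=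
  ∀ (n : ℕ) (L : Finset (Finset (Fin n))), (∀ e ∈ L, e.card = p + 2) →
    ∀ W : Finset (Fin n), su L ⊆ W → HasK (p + 2) a L W →
      (a : ℝ) / (m + 1) - (a : ℝ) / (((m : ℝ) + 1) * (m + 2) * (m.choose (p + 1) : ℝ)) *
        ((L.card : ℝ) - (m.choose (p + 2) : ℝ)) ≤ RR (p + 2) a L W.card W

theorem chordAt_of_K {p a m : ℕ} (hm : (p + 3) * a ≤ (p + 2) * (m + 2)) (hpm : p + 1 ≤ m)
    (h : ChordK p a m) : ChordAt p a m := by
  intro n L hL W hW
  by_cases hK : HasK (p + 2) a L W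
  · exact h n L hL W hW hK
  · rw [RR_neg hK]
    have h4 := line_zero (p := p) (a := a) hm hpm
    have hc : (0 : ℝ) < (m.choose (p + 1) : ℝ) := by exact_mod_cast Nat.choose_pos hpm
    have h5 : 0 ≤ (a : ℝ) / (((m : ℝ) + 1) * (m + 2) * (m.choose (p + 1) : ℝ)) *
        (L.card : ℝ) := by positivity
    linarith

theorem chordK_of_pruned {p a m : ℕ} {θ : ℝ} (ha : p + 3 ≤ a)
    (hθ : ((p : ℝ) + 2) * θ = a - (p + 2)) (hθ2 : ((p : ℝ) + 3) / 2 * (p + 1) ≤ θ)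
    (hpm : p + 1 ≤ m) (h : PrunedChord p a m θ) : ChordK p a m := by
  intro n L hL W hW hK
  obtain ⟨C, h1, h2, h3⟩ := exists_pruned ha _ L rfl hL
  have hC : ∀ e ∈ C, e.card = p + 2 := fun e he => hL e (h1 he)
  set β : ℝ := (a : ℝ) / (((m : ℝ) + 1) * (m + 2) * (m.choose (p + 1) : ℝ)) with hβ
  have hc : (0 : ℝ) < (m.choose (p + 1) : ℝ) := by exact_mod_cast Nat.choose_pos hpm
  have hβ0 : 0 ≤ β := by rw [hβ]; positivity
  have hRR : RR (p + 2) a L W.card W = RR (p + 2) a C W.card W := by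
    apply RR_congr
    intro K _ hKc
    exact ⟨h3 K hKc, fun h4 R hR hRc => h1 (h4 R hR hRc)⟩
  rw [hRR]
  obtain ⟨K, hKW, hKc, hKL⟩ := hK
  have hKC := h3 K hKc hKL
  have q1 : (0 : ℝ) ≤ C.card - θ * (sh (p + 1) C).card := by
    have h4 := pruned_pos hθ hC h2
    have h5 : (0 : ℝ) ≤ ((sh (p + 1) C).card : ℝ) := Nat.cast_nonneg _
    by_contra h6
    push Not at h6
    have hp : (0 : ℝ) < (p : ℝ) + 2 := by positivity
    nlinarith
  have hf : (0 : ℝ) < ((p + 2).factorial : ℝ) := by exact_mod_cast Nat.factorial_pos _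
  obtain ⟨y, hy1, hy2⟩ := exists_param (p := p) (a := a) ha (mul_nonneg hf.le q1)
  have hya := param_ge ha hθ hC h2 hKc hKC hy1 hy2
  have h4 := h n C hC h2 y hya hy2
  have h5 := core_claim ha hθ hθ2 _ C rfl hC h2 y hy1 hy2 W ((by
    intro x hx
    obtain ⟨e, he, hxe⟩ := mem_su.mp hx
    exact hW (mem_su.mpr ⟨e, h1 he, hxe⟩)))
  have h6 : (C.card : ℝ) ≤ L.card := by exact_mod_cast card_le_card h1
  have h7 := mul_le_mul_of_nonneg_left h6 hβ0
  rw [← hβ] at h4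
  linarith

end Pool.Agent.Lib.MP_455133_co.LR
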