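import Mathlib
import Pool.Agent.Lib.MP_455133_co.LR.Link
import Pool.Agent.Lib.MP_455133_co.LR.ChordF
import Pool.Agent.Lib.MP_455133_co.TR.Three

/-!
The lower bound for small `t` and the Turan type theorem.
-/

namespace Pool.Agent.Lib.MP_455133_co.LR

open Finset

theorem prunedChord {p a m : ℕ} {θ : ℝ} (ha : p + 3 ≤ a)
    (hθ : ((p : ℝ) + 2) * θ = a - (p + 2)) (hθ2 : (p : ℝ) + 2 ≤ θ)
    (ham : a ≤ m + 1) : PrunedChord p a m θ := by
  intro n C hC hP y hy hF
  have ha' : (p : ℝ) + 3 ≤ a := by exact_mod_cast ha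
  have hne : C.Nonempty := by
    by_contra hC0
    rw [not_nonempty_iff_eq_empty] at hC0
    subst hC0
    have h1 : (sh (p + 1) (∅ : Finset (Finset (Fin n)))).card = 0 := by
      rw [card_eq_zero, eq_empty_iff_forall_notMem]
      intro S hS
      obtain ⟨-, e, he, -⟩ := mem_sh.mp hS
      exact notMem_empty e he
    rw [h1] at hF
    simp only [card_empty, Nat.cast_zero, mul_zero, sub_zero] at hF
    have h2 : 0 < FF (p + 1) ((a : ℝ) - 1) y := by
      unfold FF
      exact mul_pos (P0_pos (by push_cast; linarith)) (by linarith)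
    linarith
  exact chord_line C hC hne hP ha hθ hθ2 ham (by linarith) hF

/-- the chord inequality for the families with a complete `a`-set -/
theorem chordK {p a m : ℕ} (ha : (p + 2) * ((p + 2) ^ 2 + 1) ≤ 2 * a)
    (ha2 : (p + 2) * (p + 3) ≤ a) (ham : a ≤ m + 1) : ChordK p a m := by
  have hpa : p + 3 ≤ a := by nlinarith
  have haR : ((p : ℝ) + 2) * (((p : ℝ) + 2) ^ 2 + 1) ≤ 2 * a := by exact_mod_cast ha
  have ha2R : ((p : ℝ) + 2) * ((p : ℝ) + 3) ≤ a := by exact_mod_cast ha2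
  have hp2 : (0 : ℝ) < (p : ℝ) + 2 := by positivity
  set θ : ℝ := ((a : ℝ) - (p + 2)) / (p + 2) with hθd
  have hθ : ((p : ℝ) + 2) * θ = a - (p + 2) := by rw [hθd]; field_simp
  have hθ2 : ((p : ℝ) + 3) / 2 * (p + 1) ≤ θ := by
    rw [hθd, le_div_iff₀ hp2]
    nlinarith
  have hθ3 : (p : ℝ) + 2 ≤ θ := by
    rw [hθd, le_div_iff₀ hp2]
    nlinarith
  exact chordK_of_pruned hpa hθ hθ2 (by omega) (prunedChord hpa hθ hθ3 ham)

/-- the chord inequality for all families -/
theorem chordAt {p a m : ℕ} (hp : 1 ≤ p) (ha : (p + 2) * ((p + 2) ^ 2 + 1) ≤ 2 * a)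
    (hm : (p + 3) * a ≤ (p + 2) * (m + 2)) : ChordAt p a m := by
  have hpa : p + 3 ≤ a := by nlinarith
  have ham : a ≤ m + 1 := by
    by_contra hc
    push Not at hc
    have h1 : (p + 3) * (m + 2) ≤ (p + 3) * a := Nat.mul_le_mul_left _ (by omega)
    nlinarith
  exact chordAt_of_K hm (by omega) (chordK ha (by nlinarith) ham)

/-- The lower bound in the range of small `t`. -/
theorem turan_lower {n r s t q : ℕ} (hr : 3 ≤ r)
    (hs : (r - 1) * ((r - 1) ^ 2 + 1) ≤ 2 * (s - 1)) (hst : s ≤ t)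
    (hq : r * (s - 1) ≤ (r - 1) * (q + 1)) :
    n * (s - 1) * q.choose (r - 1) ≤
      (s - 1) * f n r s t + (r - 1) * (t - 1) * (q + 1).choose r := by
  obtain ⟨p, rfl⟩ : ∃ p, r = p + 3 := ⟨r - 3, by omega⟩
  have hp1 : p + 3 - 1 = p + 2 := by omega
  rw [hp1] at hs hq ⊢
  have hs1 : p + 3 ≤ s - 1 := by nlinarith
  obtain ⟨a, rfl⟩ : ∃ a, s = a + 1 := ⟨s - 1, by omega⟩
  rw [Nat.add_sub_cancel] at *
  have hqa : a ≤ q := by
    by_contra hlt
    push Not at hlt
    have h2 : (p + 2) * (q + 1) ≤ (p + 2) * a := Nat.mul_le_mul_left _ hlt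
    nlinarith
  have hapos : (0 : ℝ) < a := by
    have : 0 < a := by omega
    exact_mod_cast this
  have ht1 : (((t - 1 : ℕ)) : ℝ) = (t : ℝ) - 1 := by
    push_cast [Nat.cast_sub (show 1 ≤ t by omega)]; ring
  have hgoal : (n : ℝ) * a * (q.choose (p + 2) : ℝ) ≤
      a * (f n (p + 3) (a + 1) t : ℝ) + ((p : ℝ) + 2) * ((t : ℝ) - 1) *
        ((q + 1).choose (p + 3) : ℝ) := by
    rcases Nat.eq_zero_or_pos p with hp | hp
    · subst hp
      have h1 := TR.lower3 (n := n) (s := a + 1) (t := t) (q := q) (by omega) hst (by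
        rw [Nat.add_sub_cancel]; linarith)
      have h2 : ((q.choose (0 + 2) : ℕ) : ℝ) = (q : ℝ) * (q - 1) / 2 := TR.choose_two_real q
      have h3 : (((q + 1).choose (0 + 3) : ℕ) : ℝ) =
          ((q : ℝ) - 1) * q * (q + 1) / 6 := by
        have := TR.choose_three_real q
        rw [show 0 + 3 = 3 from rfl, this]
      rw [h2, h3]
      push_cast at h1 ⊢
      have h4 : (a : ℝ) + 1 - 1 = a := by ring
      rw [h4] at h1
      have h5 : ((t : ℝ) - 1) * (((q : ℝ) - 1) * q * (q + 1)) / (3 * (a : ℝ)) * a =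
          ((t : ℝ) - 1) * (((q : ℝ) - 1) * q * (q + 1)) / 3 := by
        field_simp
      have h6 := mul_le_mul_of_nonneg_right h1 hapos.le
      rw [sub_mul, h5] at h6
      have h7 : f n (0 + 3) (a + 1) t = f n 3 (a + 1) t := rfl
      rw [h7]
      linarith
    · obtain ⟨m, rfl⟩ : ∃ m, q = m + 1 := ⟨q - 1, by omega⟩
      have hc := chordAt (p := p) (a := a) (m := m) hp hs (by linarith)
      have h1 := lower_of_chord (n := n) (t := t) (by omega) (by omega) hst hc
      have e1 : ((m + 1 + 1).choose (p + 3) : ℝ) =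
          ((m + 1).choose (p + 2) : ℝ) + ((m + 1).choose (p + 3) : ℝ) := by
        have := Nat.choose_succ_succ' (m + 1) (p + 2)
        exact_mod_cast this
      have e2 : ((m + 1 + 1).choose (p + 3) : ℝ) * ((p : ℝ) + 3) =
          ((m : ℝ) + 2) * ((m + 1).choose (p + 2) : ℝ) := by
        have := Nat.add_one_mul_choose_eq (m + 1) (p + 2)
        have h2 : (((m + 1 + 1) * (m + 1).choose (p + 2) : ℕ) : ℝ) =
            (((m + 1 + 1).choose (p + 2 + 1) * (p + 2 + 1) : ℕ) : ℝ) := by rw [this]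
        push_cast at h2
        linarith
      have e3 : ((m + 2).choose (p + 3) : ℝ) = ((m + 1 + 1).choose (p + 3) : ℝ) := rfl
      rw [e3] at h1
      set X : ℝ := ((m + 1 + 1).choose (p + 3) : ℝ) with hX
      set Y : ℝ := ((m + 1).choose (p + 2) : ℝ) with hY
      set Z : ℝ := ((m + 1).choose (p + 3) : ℝ) with hZ
      have e4 : Z = X - Y := by linarith
      rw [e4] at h1
      have e5 : (((m : ℝ) + 2) * ((t : ℝ) - 1) - n * a) * (X - Y) +
          (n * a - ((m : ℝ) + 1) * ((t : ℝ) - 1)) * X =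
          n * a * Y + ((t : ℝ) - 1) * (X - (((m : ℝ) + 2) * Y)) := by ring
      rw [e5, ← e2] at h1
      linarith
  have h8 : ((n * a * q.choose (p + 2) : ℕ) : ℝ) ≤
      ((a * f n (p + 3) (a + 1) t + (p + 2) * (t - 1) * (q + 1).choose (p + 3) : ℕ) : ℝ) := by
    push_cast [ht1]
    exact hgoal
  exact_mod_cast h8

/-- The Turan type theorem. -/
theorem turan_exact {n r s k : ℕ} (hr : 3 ≤ r)
    (hs : (r - 1) * ((r - 1) ^ 2 + 1) ≤ 2 * (s - 1)) (hk : 1 ≤ k)
    (hn : k * ((s - 2) / (r - 1) + (s - 1)) ≤ n) :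
    f n r s (k * (s - 1) + 1) =
      (k - n % k) * (n / k).choose r + (n % k) * (n / k + 1).choose r := by
  have hr1 : 0 < r - 1 := by omega
  have hq : (s - 2) / (r - 1) + (s - 1) ≤ n / k := by
    rw [Nat.le_div_iff_mul_le hk, mul_comm]; exact hn
  have hw : s - 2 < ((s - 2) / (r - 1) + 1) * (r - 1) := by
    have := Nat.lt_mul_div_succ (s - 2) hr1
    rw [mul_comm]; exact this
  obtain ⟨p, rfl⟩ : ∃ p, r = p + 3 := ⟨r - 3, by omega⟩
  have hp1 : p + 3 - 1 = p + 2 := by omega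
  rw [hp1] at hs hq hw
  have hs1 : p + 3 ≤ s - 1 := by nlinarith
  have hqq : (p + 3) * (s - 1) ≤ (p + 2) * (n / k + 1) := by
    have h1 : (p + 2) * ((s - 2) / (p + 2) + (s - 1) + 1) ≤ (p + 2) * (n / k + 1) :=
      Nat.mul_le_mul_left _ (by omega)
    have h2 : (p + 2) * ((s - 2) / (p + 2) + (s - 1) + 1) =
        ((s - 2) / (p + 2) + 1) * (p + 2) + (p + 2) * (s - 1) := by ring
    have h3 : (p + 3) * (s - 1) = (s - 1) + (p + 2) * (s - 1) := by ring
    omega
  rcases Nat.eq_zero_or_pos p with hp | hp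
  · subst hp
    exact TR.exact3 (by omega) hk (by linarith)
  · obtain ⟨a, rfl⟩ : ∃ a, s = a + 1 := ⟨s - 1, by omega⟩
    rw [Nat.add_sub_cancel] at *
    have hqa : a ≤ n / k := le_trans (Nat.le_add_left _ _) hq
    generalize hN : n / k = N at *
    obtain ⟨m, hm⟩ : ∃ m, N = m + 1 := ⟨N - 1, by omega⟩
    rw [← hN]
    refine exact_of_chord (by omega) hk (by rw [hN]; omega) ?_
    rw [hN]
    rw [hm, Nat.add_sub_cancel]
    rw [hm] at hqq
    exact chordAt hp hs (by linarith)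

end Pool.Agent.Lib.MP_455133_co.LR
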